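import Pool.Agent.N602.RR.Lists

/-! # The algorithm and its cost -/

set_option autoImplicit false

namespace Pool.Agent.N602.RR

open Classical

/-- dot product -/
noncomputable def dotL (l m : List ℝ) : ℝ := (l.zip m).foldl (fun s p => s + p.1 * p.2) 0

theorem CO_dotL : CO (fun _ => True) (fun x : List ℝ × List ℝ => dotL x.1 x.2)
    (fun x => x.1.length) := by
  refine CO.foldl (l := fun x : List ℝ × List ℝ => x.1.zip x.2)
    (s := fun _ => (0 : ℝ)) (f := fun _ s (p : ℝ × ℝ) => s + p.1 * p.2) (Pb := fun _ => True)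
    (Tb := fun _ => 0)
    (CO.zip (CO.fst CO.id) (CO.snd CO.id) 1 (fun x _ => by omega)) CO.zero
    (CO.add (CO.snd (CO.fst CO.id)) (CO.mul (CO.fst (CO.snd CO.id)) (CO.snd (CO.snd CO.id))))
    (fun _ _ => True) (fun _ => 0) 1 (fun _ _ => trivial)
    (fun _ _ _ _ _ _ => ⟨trivial, le_rfl, trivial⟩) (fun x _ => ?_)
  simp only [List.length_zip]
  omega

/-- one step of the extraction of the integer part -/
noncomputable def flStep (s : ℝ × ℝ) (h : ℝ) : ℝ × ℝ :=
  if 0 < h - s.2 then s else (s.1 + h, s.2 - h)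

/-- the integer part by comparisons with powers of two -/
noncomputable def flL (W : List ℝ) (r : ℝ) : ℝ := (W.foldl flStep (0, r)).1

theorem CO_flL : CO (fun _ => True) (fun x : List ℝ × ℝ => flL x.1 x.2)
    (fun x => x.1.length) := by
  refine CO.fst ?_
  refine CO.foldl (l := fun x : List ℝ × ℝ => x.1) (s := fun x => ((0 : ℝ), x.2))
    (f := fun _ (s : ℝ × ℝ) (h : ℝ) => flStep s h) (Pb := fun _ => True)
    (Tb := fun _ => 0)
    (CO.fst CO.id) (CO.zero.pair (CO.snd CO.id))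
    ?_
    (fun _ _ => True) (fun _ => 0) 1 (fun _ _ => trivial)
    (fun _ _ _ _ _ _ => ⟨trivial, le_rfl, trivial⟩) (fun x _ => by omega)
  unfold flStep
  exact CO.itePos (CO.sub (CO.snd CO.id) (CO.snd (CO.snd (CO.fst CO.id))))
    (CO.snd (CO.fst CO.id))
    ((CO.add (CO.fst (CO.snd (CO.fst CO.id))) (CO.snd CO.id)).pair
      (CO.sub (CO.snd (CO.snd (CO.fst CO.id))) (CO.snd CO.id)))

/-- the number `∑ l_j β^{-j}` -/
noncomputable def packL (β : ℝ) (l : List ℝ) : ℝ :=
  (l.foldl (fun (s : ℝ × ℝ) a => (s.1 / β, s.2 + s.1 * a)) (1, 0)).2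

theorem CO_packL : CO (fun _ => True) (fun x : ℝ × List ℝ => packL x.1 x.2)
    (fun x => x.2.length) := by
  refine CO.snd ?_
  refine CO.foldl (l := fun x : ℝ × List ℝ => x.2) (s := fun _ => ((1 : ℝ), (0 : ℝ)))
    (f := fun x (s : ℝ × ℝ) (a : ℝ) => (s.1 / x.1, s.2 + s.1 * a)) (Pb := fun _ => True)
    (Tb := fun _ => 0)
    (CO.snd CO.id) (CO.one.pair CO.zero)
    ?_
    (fun _ _ => True) (fun _ => 0) 1 (fun _ _ => trivial)
    (fun _ _ _ _ _ _ => ⟨trivial, le_rfl, trivial⟩) (fun x _ => by omega)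
  exact (CO.div (CO.fst (CO.snd (CO.fst CO.id))) (CO.fst (CO.fst (CO.fst CO.id)))).pair
    (CO.add (CO.snd (CO.snd (CO.fst CO.id)))
      (CO.mul (CO.fst (CO.snd (CO.fst CO.id))) (CO.snd CO.id)))

/-- parameters `((β, H), (W, ts))` -/
abbrev Par : Type := (ℝ × ℝ) × (List ℝ × List ℝ)

/-- the digits of `r` in base `β`, shifted by `H` -/
noncomputable def unpackL (c : Par) (r : ℝ) : List ℝ :=
  mapAcc (fun r _ => ((r - flL c.2.1 r) * c.1.1, flL c.2.1 r - c.1.2)) r c.2.2

@[simp] theorem unpackL_length (c : Par) (r : ℝ) : (unpackL c r).length = c.2.2.length := by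
  simp [unpackL]

theorem CO_unpackL : CO (fun _ => True) (fun x : Par × ℝ => unpackL x.1 x.2)
    (fun x => x.1.2.2.length * (x.1.2.1.length + 1)) := by
  have hfl : CO (fun _ => True) (fun y : ((Par × ℝ) × ℝ) × ℝ => flL y.1.1.1.2.1 y.1.2)
      (fun y => y.1.1.1.2.1.length) :=
    CO_flL.app (f := fun y : ((Par × ℝ) × ℝ) × ℝ => (y.1.1.1.2.1, y.1.2))
      ((CO.fst (CO.snd (CO.fst (CO.fst (CO.fst CO.id))))).pair (CO.snd (CO.fst CO.id))) 1
      (fun y _ => ⟨trivial, by simp⟩)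
  refine CO.mapAcc (l := fun x : Par × ℝ => x.1.2.2) (s := fun x : Par × ℝ => x.2)
    (f := fun x (r : ℝ) (_ : ℝ) => ((r - flL x.1.2.1 r) * x.1.1.1, flL x.1.2.1 r - x.1.1.2))
    (Pb := fun _ => True) (Tb := fun y => y.1.1.1.2.1.length)
    (CO.snd (CO.snd (CO.fst CO.id))) (CO.snd CO.id)
    ((CO.mul (CO.sub (CO.snd (CO.fst CO.id)) hfl) (CO.fst (CO.fst (CO.fst (CO.fst (CO.fst CO.id)))))).pair
      (CO.sub hfl (CO.snd (CO.fst (CO.fst (CO.fst (CO.fst CO.id)))))))
    (fun x => x.1.2.1.length) 1 (fun x _ u b _ => ⟨trivial, le_rfl⟩) (fun x _ => by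
      simp only [one_mul]; omega)

/-- the products of the rows of `A` with the packed matrix -/
noncomputable def mulAux (c : Par) (PB : List ℝ) (off : ℝ) (A : List (List ℝ)) :
    List (List ℝ) := A.map (fun row => unpackL c (dotL row PB + off))

/-- the packed matrix product -/
noncomputable def mulL (c : Par) (A B : List (List ℝ)) : List (List ℝ) :=
  mulAux c (B.map (packL c.1.1)) (packL c.1.1 (c.2.2.map fun _ => c.1.2)) A

/-- a square matrix -/
def Sq (n : ℕ) (A : List (List ℝ)) : Prop := A.length = n ∧ ∀ r ∈ A, r.length = n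

theorem Sq_mulL {c : Par} {n : ℕ} (hc : c.2.2.length = n) {A B : List (List ℝ)} (hA : Sq n A) :
    Sq n (mulL c A B) := by
  constructor
  · simp [mulL, mulAux, hA.1]
  · intro r hr
    simp only [mulL, mulAux, List.mem_map] at hr
    obtain ⟨row, _, rfl⟩ := hr
    simp [hc]

/-- the basic cost bound `n ^ 2 * (w + 1)` -/
def cst (c : Par) : ℕ := c.2.2.length ^ 2 * (c.2.1.length + 1)

theorem le_cst1 (c : Par) : c.2.2.length ≤ cst c := by
  unfold cst
  have : c.2.2.length ≤ c.2.2.length ^ 2 := Nat.le_self_pow (by norm_num) _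
  nlinarith [Nat.zero_le (c.2.2.length ^ 2 * c.2.1.length)]

theorem le_cst2 (c : Par) : c.2.2.length ^ 2 ≤ cst c := by
  unfold cst
  nlinarith [Nat.zero_le (c.2.2.length ^ 2 * c.2.1.length)]

theorem le_cst3 (c : Par) : c.2.2.length * (c.2.1.length + 1) ≤ cst c := by
  unfold cst
  exact Nat.mul_le_mul_right _ (Nat.le_self_pow (by norm_num) _)

theorem le_cst4 (c : Par) : c.2.2.length * (c.2.2.length * (c.2.1.length + 1) + 1) ≤ 2 * (cst c + 1) := by
  have h1 : c.2.2.length * (c.2.2.length * (c.2.1.length + 1)) = cst c := by unfold cst; ring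
  have := le_cst1 c
  rw [mul_add, h1]
  omega

theorem le_cst5 (c : Par) : c.2.2.length * (c.2.2.length + 1) ≤ 2 * (cst c + 1) := by
  have h1 := le_cst1 c
  have h2 := le_cst2 c
  nlinarith

theorem CO_mulAux : CO (fun x : (Par × (List ℝ × ℝ)) × List (List ℝ) => Sq x.1.1.2.2.length x.2)
    (fun x => mulAux x.1.1 x.1.2.1 x.1.2.2 x.2) (fun x => cst x.1.1) := by
  refine CO.map (l := fun x : (Par × (List ℝ × ℝ)) × List (List ℝ) => x.2)
    (f := fun x row => unpackL x.1.1 (dotL row x.1.2.1 + x.1.2.2))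
    (Pb := fun y => y.2.length ≤ y.1.1.1.2.2.length)
    (Tb := fun y => y.1.1.1.2.2.length * (y.1.1.1.2.1.length + 1))
    (CO.snd CO.id) ?_ (fun x => x.1.1.2.2.length * (x.1.1.2.1.length + 1)) 2
    (fun x hx b hb => ⟨(hx.2 b hb).le, le_rfl⟩) (fun x hx => ?_)
  · have hd : CO (fun y : ((Par × (List ℝ × ℝ)) × List (List ℝ)) × List ℝ =>
        y.2.length ≤ y.1.1.1.2.2.length) (fun y => dotL y.2 y.1.1.2.1)
        (fun y => y.1.1.1.2.2.length * (y.1.1.1.2.1.length + 1)) :=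
      CO_dotL.app (f := fun y : ((Par × (List ℝ × ℝ)) × List (List ℝ)) × List ℝ =>
        (y.2, y.1.1.2.1)) ((CO.snd CO.id).pair (CO.fst (CO.snd (CO.fst (CO.fst CO.id))))) 1
        (fun y hy => ⟨trivial, by
          simp only [one_mul]
          nlinarith [Nat.zero_le (y.1.1.1.2.2.length * y.1.1.1.2.1.length)]⟩)
    exact CO_unpackL.app (f := fun y : ((Par × (List ℝ × ℝ)) × List (List ℝ)) × List ℝ =>
      (y.1.1.1, dotL y.2 y.1.1.2.1 + y.1.1.2.2))
      ((CO.fst (CO.fst (CO.fst CO.id))).pair (hd.add (CO.snd (CO.snd (CO.fst (CO.fst CO.id))))))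
      1 (fun y _ => ⟨trivial, by simp⟩)
  · rw [hx.1]
    exact le_cst4 x.1.1

theorem CO_mulL : CO (fun x : Par × (List (List ℝ) × List (List ℝ)) =>
      Sq x.1.2.2.length x.2.1 ∧ Sq x.1.2.2.length x.2.2)
    (fun x => mulL x.1 x.2.1 x.2.2) (fun x => cst x.1) := by
  -- packing of the second matrix
  have h1 : CO (fun x : Par × (List (List ℝ) × List (List ℝ)) =>
      Sq x.1.2.2.length x.2.1 ∧ Sq x.1.2.2.length x.2.2) (fun x => x.2.2.map (packL x.1.1.1))
      (fun x => cst x.1) :=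
    CO.map (f := fun (x : Par × (List (List ℝ) × List (List ℝ))) (r : List ℝ) => packL x.1.1.1 r)
      (Pb := fun _ => True) (Tb := fun y => y.2.length)
      (CO.snd (CO.snd CO.id))
      (CO_packL.app (f := fun y : (Par × (List (List ℝ) × List (List ℝ))) × List ℝ =>
        (y.1.1.1.1, y.2)) ((CO.fst (CO.fst (CO.fst (CO.fst CO.id)))).pair (CO.snd CO.id)) 1
        (fun y _ => ⟨trivial, by simp⟩)) (fun x => x.1.2.2.length) 2
      (fun x hx b hb => ⟨trivial, (hx.2.2 b hb).le⟩)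
      (fun x hx => by rw [hx.2.1]; exact le_cst5 x.1)
  have h2 : CO (fun x : Par × (List (List ℝ) × List (List ℝ)) =>
      Sq x.1.2.2.length x.2.1 ∧ Sq x.1.2.2.length x.2.2)
      (fun x => x.1.2.2.map (fun _ => x.1.1.2)) (fun x => cst x.1) :=
    CO.map (f := fun (x : Par × (List (List ℝ) × List (List ℝ))) (_ : ℝ) => x.1.1.2)
      (Pb := fun _ => True) (Tb := fun _ => 0)
      (CO.snd (CO.snd (CO.fst CO.id)))
      (CO.snd (CO.fst (CO.fst (CO.fst CO.id)))) (fun x => 0) 2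
      (fun x hx b hb => ⟨trivial, le_rfl⟩)
      (fun x hx => by have := le_cst1 x.1; omega)
  have h3 : CO (fun x : Par × (List (List ℝ) × List (List ℝ)) =>
      Sq x.1.2.2.length x.2.1 ∧ Sq x.1.2.2.length x.2.2)
      (fun x => packL x.1.1.1 (x.1.2.2.map (fun _ => x.1.1.2))) (fun x => cst x.1) :=
    CO_packL.app (f := fun x : Par × (List (List ℝ) × List (List ℝ)) =>
      (x.1.1.1, x.1.2.2.map (fun _ => x.1.1.2)))
      ((CO.fst (CO.fst (CO.fst CO.id))).pair h2) 1
      (fun x _ => ⟨trivial, by simpa using (le_cst1 x.1).trans (by omega)⟩)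
  exact CO_mulAux.app (f := fun x : Par × (List (List ℝ) × List (List ℝ)) =>
      ((x.1, (x.2.2.map (packL x.1.1.1), packL x.1.1.1 (x.1.2.2.map (fun _ => x.1.1.2)))), x.2.1))
    (((CO.fst CO.id).pair (h1.pair h3)).pair (CO.fst (CO.snd CO.id))) 1
    (fun x hx => ⟨hx.1, by simp⟩)

end Pool.Agent.N602.RR
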