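import Pool.Agent.N602.RR.Alg

/-! # The algorithm and its cost, continued -/

set_option autoImplicit false

namespace Pool.Agent.N602.RR

open Classical

/-- the list `[n-1, …, 0]` where `n` is the length of the list -/
noncomputable def idxL (A : List (List ℝ)) : List ℝ :=
  (A.foldl (fun (s : ℝ × List ℝ) _ => (s.1 + 1, s.1 :: s.2)) (0, [])).2

theorem CO_idxL : CO (fun _ => True) (fun A : List (List ℝ) => idxL A) (fun A => A.length) := by
  refine CO.snd ?_
  exact CO.foldl (l := fun x : List (List ℝ) => x) (s := fun _ => ((0 : ℝ), ([] : List ℝ)))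
    (f := fun _ (s : ℝ × List ℝ) (_ : List ℝ) => (s.1 + 1, s.1 :: s.2)) (Pb := fun _ => True)
    (Tb := fun _ => 0) CO.id (CO.zero.pair CO.nil)
    (((CO.fst (CO.snd (CO.fst CO.id))).add CO.one).pair
      ((CO.fst (CO.snd (CO.fst CO.id))).cons (CO.snd (CO.snd (CO.fst CO.id)))))
    (fun _ _ => True) (fun _ => 0) 1 (fun _ _ => trivial)
    (fun _ _ _ _ _ _ => ⟨trivial, le_rfl, trivial⟩) (fun x _ => by omega)

/-- the number of elements, as a real number -/
noncomputable def cntL (l : List ℝ) : ℝ := l.foldl (fun (s : ℝ) _ => s + 1) 0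

theorem CO_cntL : CO (fun _ => True) (fun l : List ℝ => cntL l) (fun l => l.length) :=
  CO.foldl (l := fun x : List ℝ => x) (s := fun _ => (0 : ℝ))
    (f := fun _ (s : ℝ) (_ : ℝ) => s + 1) (Pb := fun _ => True)
    (Tb := fun _ => 0) CO.id CO.zero
    ((CO.snd (CO.fst CO.id)).add CO.one)
    (fun _ _ => True) (fun _ => 0) 1 (fun _ _ => trivial)
    (fun _ _ _ _ _ _ => ⟨trivial, le_rfl, trivial⟩) (fun x _ => by omega)

/-- transposition -/
noncomputable def transL (ts : List ℝ) (A : List (List ℝ)) : List (List ℝ) :=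
  A.reverse.foldl (fun (cols : List (List ℝ)) (row : List ℝ) =>
    (row.zip cols).map (fun p => p.1 :: p.2)) (ts.map fun _ => [])

theorem CO_transL : CO (fun x : List ℝ × List (List ℝ) => Sq x.1.length x.2)
    (fun x => transL x.1 x.2) (fun x => x.1.length ^ 2) := by
  have hsq : ∀ m : ℕ, m ≤ m ^ 2 := fun m => Nat.le_self_pow (by norm_num) m
  refine CO.foldl (l := fun x : List ℝ × List (List ℝ) => x.2.reverse)
    (s := fun x => x.1.map fun _ => ([] : List ℝ))
    (f := fun _ (cols : List (List ℝ)) (row : List ℝ) => (row.zip cols).map (fun p => p.1 :: p.2))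
    (Pb := fun y => y.2.length ≤ y.1.1.1.length)
    (Tb := fun y => y.1.1.1.length)
    ((CO.snd CO.id).reverse 1 (fun x hx => ?_))
    (CO.map (f := fun _ _ => ([] : List ℝ)) (Pb := fun _ => True) (Tb := fun _ => 0) (CO.fst CO.id)
      CO.nil (fun _ => 0) 1 (fun _ _ _ _ => ⟨trivial, le_rfl⟩) (fun x hx => ?_))
    (CO.map (l := fun y : ((List ℝ × List (List ℝ)) × List (List ℝ)) × List ℝ => y.2.zip y.1.2)
      (f := fun _ (p : ℝ × List ℝ) => p.1 :: p.2) (Pb := fun _ => True) (Tb := fun _ => 0)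
      ((CO.snd CO.id).zip (CO.snd (CO.fst CO.id)) 1 (fun y hy => ?_))
      ((CO.fst (CO.snd CO.id)).cons (CO.snd (CO.snd CO.id)))
      (fun _ => 0) 1 (fun _ _ _ _ => ⟨trivial, le_rfl⟩) (fun y hy => ?_))
    (fun _ _ => True) (fun x => x.1.length) 2 (fun _ _ => trivial)
    (fun x hx u _ b hb => ⟨?_, le_rfl, trivial⟩) (fun x hx => ?_)
  · have := hsq x.1.length
    rw [hx.1]; omega
  · have := hsq x.1.length
    omega
  · omega
  · simp only [List.length_zip] at hy ⊢; omega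
  · exact (hx.2 b (by simpa using hb)).le
  · have := hsq x.1.length
    rw [List.length_reverse, hx.1]
    nlinarith

/-- the identity matrix -/
noncomputable def idL (ts : List ℝ) : List (List ℝ) :=
  ts.map fun i => ts.map fun j => if 0 < (i - j) * (i - j) then 0 else 1

theorem CO_idL : CO (fun _ => True) (fun x : List ℝ => idL x) (fun x => x.length ^ 2) := by
  have hsq : ∀ m : ℕ, m ≤ m ^ 2 := fun m => Nat.le_self_pow (by norm_num) m
  refine CO.map (l := fun x : List ℝ => x)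
    (f := fun (x : List ℝ) (i : ℝ) => x.map fun j => if 0 < (i - j) * (i - j) then (0 : ℝ) else 1)
    (Pb := fun _ => True) (Tb := fun y => y.1.length) CO.id
    (CO.map (l := fun x : List ℝ × ℝ => x.1)
      (f := fun (x : List ℝ × ℝ) (j : ℝ) => if 0 < (x.2 - j) * (x.2 - j) then (0 : ℝ) else 1)
      (Pb := fun _ => True) (Tb := fun _ => 0) (CO.fst CO.id)
      (CO.itePos (((CO.snd (CO.fst CO.id)).sub (CO.snd CO.id)).mul
        ((CO.snd (CO.fst CO.id)).sub (CO.snd CO.id))) CO.zero CO.one)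
      (fun _ => 0) 1 (fun _ _ _ _ => ⟨trivial, le_rfl⟩) (fun x hx => by omega))
    (fun x => x.length) 2 (fun _ _ _ _ => ⟨trivial, le_rfl⟩) (fun x hx => ?_)
  have := hsq x.length
  nlinarith

/-- the rounded new iterate `⌊2 X - Z / Q2⌋` -/
noncomputable def combL (c : Par) (Q2 : ℝ) (X Z : List (List ℝ)) : List (List ℝ) :=
  (X.zip Z).map fun p => (p.1.zip p.2).map fun q =>
    flL c.2.1 (2 * q.1 - q.2 / Q2 + c.1.2) - c.1.2

theorem Sq_combL {c : Par} {Q2 : ℝ} {n : ℕ} {X Z : List (List ℝ)} (hX : Sq n X) (hZ : Sq n Z) :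
    Sq n (combL c Q2 X Z) := by
  constructor
  · simp [combL, hX.1, hZ.1]
  · intro r hr
    simp only [combL, List.mem_map] at hr
    obtain ⟨p, hp, rfl⟩ := hr
    have h1 := List.of_mem_zip (a := p.1) (b := p.2) hp
    simp [hX.2 _ h1.1, hZ.2 _ h1.2]

theorem CO_combL : CO (fun x : (Par × ℝ) × (List (List ℝ) × List (List ℝ)) =>
      Sq x.1.1.2.2.length x.2.1 ∧ Sq x.1.1.2.2.length x.2.2)
    (fun x => combL x.1.1 x.1.2 x.2.1 x.2.2) (fun x => cst x.1.1) := by
  refine CO.map (l := fun x : (Par × ℝ) × (List (List ℝ) × List (List ℝ)) => x.2.1.zip x.2.2)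
    (f := fun x p => (p.1.zip p.2).map fun q =>
      flL x.1.1.2.1 (2 * q.1 - q.2 / x.1.2 + x.1.1.1.2) - x.1.1.1.2)
    (Pb := fun y => y.2.1.length ≤ y.1.1.1.2.2.length)
    (Tb := fun y => y.1.1.1.2.2.length * (y.1.1.1.2.1.length + 1))
    ((CO.fst (CO.snd CO.id)).zip (CO.snd (CO.snd CO.id)) 1 (fun x hx => ?_)) ?_
    (fun x => x.1.1.2.2.length * (x.1.1.2.1.length + 1)) 2
    (fun x hx b hb => ⟨?_, le_rfl⟩) (fun x hx => ?_)
  · have := le_cst1 x.1.1
    rw [hx.1.1]; omega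
  · refine CO.map (l := fun x : ((Par × ℝ) × (List (List ℝ) × List (List ℝ))) × (List ℝ × List ℝ) =>
      x.2.1.zip x.2.2)
      (f := fun x q => flL x.1.1.1.2.1 (2 * q.1 - q.2 / x.1.1.2 + x.1.1.1.1.2) - x.1.1.1.1.2)
      (Pb := fun _ => True) (Tb := fun y => y.1.1.1.1.2.1.length)
      ((CO.fst (CO.snd CO.id)).zip (CO.snd (CO.snd CO.id)) 1 (fun x hx => ?_)) ?_
      (fun x => x.1.1.1.2.1.length) 1
      (fun x hx b hb => ⟨trivial, le_rfl⟩) (fun x hx => ?_)
    · nlinarith [Nat.zero_le (x.1.1.1.2.2.length * x.1.1.1.2.1.length)]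
    · refine CO.sub ?_ (CO.snd (CO.fst (CO.fst (CO.fst (CO.fst (CO.fst CO.id))))))
      exact CO_flL.app (f := fun y : ((((Par × ℝ) × (List (List ℝ) × List (List ℝ))) ×
          (List ℝ × List ℝ)) × (ℝ × ℝ)) =>
          (y.1.1.1.1.2.1, 2 * y.2.1 - y.2.2 / y.1.1.1.2 + y.1.1.1.1.1.2))
        ((CO.fst (CO.snd (CO.fst (CO.fst (CO.fst (CO.fst CO.id)))))).pair
          (((CO.two.mul (CO.fst (CO.snd CO.id))).sub
            ((CO.snd (CO.snd CO.id)).div (CO.snd (CO.fst (CO.fst (CO.fst CO.id)))))).add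
            (CO.snd (CO.fst (CO.fst (CO.fst (CO.fst (CO.fst CO.id)))))))) 1
        (fun y _ => ⟨trivial, by simp⟩)
    · simp only [List.length_zip] at hx ⊢
      have : min x.2.1.length x.2.2.length ≤ x.1.1.1.2.2.length := by omega
      nlinarith [Nat.mul_le_mul_right (x.1.1.1.2.1.length + 1) this]
  · have h1 := List.of_mem_zip (a := b.1) (b := b.2) hb
    exact (hx.1.2 _ h1.1).le
  · rw [List.length_zip, hx.1.1, hx.2.1, min_self]
    exact le_cst4 x.1.1

/-- one Newton step -/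
noncomputable def newt (c : Par) (Q2 : ℝ) (U X : List (List ℝ)) : List (List ℝ) :=
  combL c Q2 X (mulL c (mulL c X U) X)

theorem Sq_newt {c : Par} {Q2 : ℝ} {n : ℕ} (hc : c.2.2.length = n) {U X : List (List ℝ)}
    (hX : Sq n X) : Sq n (newt c Q2 U X) :=
  Sq_combL hX (Sq_mulL hc (Sq_mulL hc hX))

theorem CO_newt : CO (fun x : (Par × ℝ) × (List (List ℝ) × List (List ℝ)) =>
      Sq x.1.1.2.2.length x.2.1 ∧ Sq x.1.1.2.2.length x.2.2)
    (fun x => newt x.1.1 x.1.2 x.2.1 x.2.2) (fun x => cst x.1.1) := by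
  have h1 : CO (fun x : (Par × ℝ) × (List (List ℝ) × List (List ℝ)) =>
      Sq x.1.1.2.2.length x.2.1 ∧ Sq x.1.1.2.2.length x.2.2)
      (fun x => mulL x.1.1 x.2.2 x.2.1) (fun x => cst x.1.1) :=
    CO_mulL.app (f := fun x : (Par × ℝ) × (List (List ℝ) × List (List ℝ)) =>
      (x.1.1, (x.2.2, x.2.1))) ((CO.fst (CO.fst CO.id)).pair
        ((CO.snd (CO.snd CO.id)).pair (CO.fst (CO.snd CO.id)))) 1
      (fun x hx => ⟨⟨hx.2, hx.1⟩, by simp⟩)
  have h2 : CO (fun x : (Par × ℝ) × (List (List ℝ) × List (List ℝ)) =>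
      Sq x.1.1.2.2.length x.2.1 ∧ Sq x.1.1.2.2.length x.2.2)
      (fun x => mulL x.1.1 (mulL x.1.1 x.2.2 x.2.1) x.2.2) (fun x => cst x.1.1) :=
    CO_mulL.app (f := fun x : (Par × ℝ) × (List (List ℝ) × List (List ℝ)) =>
      (x.1.1, (mulL x.1.1 x.2.2 x.2.1, x.2.2))) ((CO.fst (CO.fst CO.id)).pair
        (h1.pair (CO.snd (CO.snd CO.id)))) 1
      (fun x hx => ⟨⟨Sq_mulL rfl hx.2, hx.2⟩, by simp⟩)
  exact CO_combL.app (f := fun x : (Par × ℝ) × (List (List ℝ) × List (List ℝ)) =>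
      (x.1, (x.2.2, mulL x.1.1 (mulL x.1.1 x.2.2 x.2.1) x.2.2))) ((CO.fst CO.id).pair
        ((CO.snd (CO.snd CO.id)).pair h2)) 1
      (fun x hx => ⟨⟨hx.2, Sq_mulL rfl (Sq_mulL rfl hx.2)⟩, by simp⟩)

/-- the Newton iteration, one step for each element of `W1` -/
noncomputable def iterL (c : Par) (Q2 : ℝ) (U : List (List ℝ)) (W1 : List ℝ)
    (X0 : List (List ℝ)) : List (List ℝ) :=
  W1.foldl (fun X _ => newt c Q2 U X) X0

theorem Sq_iterL {c : Par} {Q2 : ℝ} {n : ℕ} (hc : c.2.2.length = n) {U X : List (List ℝ)}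
    (W1 : List ℝ) (hX : Sq n X) : Sq n (iterL c Q2 U W1 X) := by
  induction W1 generalizing X with
  | nil => exact hX
  | cons a W1 ih => exact ih (Sq_newt hc hX)

theorem CO_iterL : CO (fun x : ((Par × ℝ) × List ℝ) × (List (List ℝ) × List (List ℝ)) =>
      Sq x.1.1.1.2.2.length x.2.1 ∧ Sq x.1.1.1.2.2.length x.2.2)
    (fun x => iterL x.1.1.1 x.1.1.2 x.2.1 x.1.2 x.2.2)
    (fun x => (cst x.1.1.1 + 1) * (x.1.2.length + 1)) := by
  refine CO.foldl (l := fun x : ((Par × ℝ) × List ℝ) × (List (List ℝ) × List (List ℝ)) => x.1.2)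
    (s := fun x => x.2.2) (f := fun x (X : List (List ℝ)) (_ : ℝ) => newt x.1.1.1 x.1.1.2 x.2.1 X)
    (Pb := fun y => Sq y.1.1.1.1.1.2.2.length y.1.1.2.1 ∧ Sq y.1.1.1.1.1.2.2.length y.1.2)
    (Tb := fun y => cst y.1.1.1.1.1)
    (CO.snd (CO.fst CO.id)) (CO.snd (CO.snd CO.id))
    (CO_newt.app (f := fun y : ((((Par × ℝ) × List ℝ) × (List (List ℝ) × List (List ℝ))) ×
      List (List ℝ)) × ℝ => (y.1.1.1.1, (y.1.1.2.1, y.1.2)))
      ((CO.fst (CO.fst (CO.fst (CO.fst CO.id)))).pair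
        ((CO.fst (CO.snd (CO.fst (CO.fst CO.id)))).pair (CO.snd (CO.fst CO.id)))) 1
      (fun y hy => ⟨hy, by simp⟩))
    (fun x X => Sq x.1.1.1.2.2.length X) (fun x => cst x.1.1.1) 1 (fun x hx => hx.2)
    (fun x hx X hX _ _ => ⟨⟨hx.1, hX⟩, le_rfl, Sq_newt rfl hX⟩) (fun x hx => ?_)
  nlinarith

/-- sum of squares of the entries -/
noncomputable def frobL (X : List (List ℝ)) : ℝ := X.foldl (fun s r => s + dotL r r) 0

theorem CO_frobL : CO (fun x : List ℝ × List (List ℝ) => Sq x.1.length x.2)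
    (fun x => frobL x.2) (fun x => x.1.length ^ 2) := by
  have hsq : ∀ m : ℕ, m ≤ m ^ 2 := fun m => Nat.le_self_pow (by norm_num) m
  refine CO.foldl (l := fun x : List ℝ × List (List ℝ) => x.2) (s := fun _ => (0 : ℝ))
    (f := fun _ (s : ℝ) (r : List ℝ) => s + dotL r r)
    (Pb := fun y => y.2.length ≤ y.1.1.1.length) (Tb := fun y => y.1.1.1.length)
    (CO.snd CO.id) CO.zero
    ((CO.snd (CO.fst CO.id)).add
      (CO_dotL.app (f := fun y : ((List ℝ × List (List ℝ)) × ℝ) × List ℝ => (y.2, y.2))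
        ((CO.snd CO.id).pair (CO.snd CO.id)) 1
        (fun y hy => ⟨trivial, by simp only [one_mul]; omega⟩)))
    (fun _ _ => True) (fun x => x.1.length) 2 (fun _ _ => trivial)
    (fun x hx u _ b hb => ⟨(hx.2 b hb).le, le_rfl, trivial⟩) (fun x hx => ?_)
  have := hsq x.1.length
  rw [hx.1]
  nlinarith

/-- sum of absolute values of a list -/
noncomputable def absL (r : List ℝ) : ℝ := r.foldl (fun s a => s + if 0 < a then a else 0 - a) 0

theorem CO_absL : CO (fun _ => True) (fun x : List ℝ => absL x) (fun x => x.length) :=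
  CO.foldl (l := fun x : List ℝ => x) (s := fun _ => (0 : ℝ))
    (f := fun _ (s : ℝ) (a : ℝ) => s + if 0 < a then a else 0 - a)
    (Pb := fun _ => True) (Tb := fun _ => 0)
    CO.id CO.zero
    ((CO.snd (CO.fst CO.id)).add (CO.itePos (CO.snd CO.id) (CO.snd CO.id)
      (CO.zero.sub (CO.snd CO.id))))
    (fun _ _ => True) (fun _ => 0) 1 (fun _ _ => trivial)
    (fun _ _ _ _ _ _ => ⟨trivial, le_rfl, trivial⟩) (fun x _ => by omega)

/-- sum of absolute values of the entries -/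
noncomputable def absM (X : List (List ℝ)) : ℝ := X.foldl (fun s r => s + absL r) 0

theorem CO_absM : CO (fun x : List ℝ × List (List ℝ) => Sq x.1.length x.2)
    (fun x => absM x.2) (fun x => x.1.length ^ 2) := by
  have hsq : ∀ m : ℕ, m ≤ m ^ 2 := fun m => Nat.le_self_pow (by norm_num) m
  refine CO.foldl (l := fun x : List ℝ × List (List ℝ) => x.2) (s := fun _ => (0 : ℝ))
    (f := fun _ (s : ℝ) (r : List ℝ) => s + absL r)
    (Pb := fun y => y.2.length ≤ y.1.1.1.length) (Tb := fun y => y.1.1.1.length)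
    (CO.snd CO.id) CO.zero
    ((CO.snd (CO.fst CO.id)).add
      (CO_absL.app (f := fun y : ((List ℝ × List (List ℝ)) × ℝ) × List ℝ => y.2)
        (CO.snd CO.id) 1
        (fun y hy => ⟨trivial, by simp only [one_mul]; omega⟩)))
    (fun _ _ => True) (fun x => x.1.length) 2 (fun _ _ => trivial)
    (fun x hx u _ b hb => ⟨(hx.2 b hb).le, le_rfl, trivial⟩) (fun x hx => ?_)
  have := hsq x.1.length
  rw [hx.1]
  nlinarith

/-- the rounded and scaled matrix `⌊(a / s + 1) Q⌋ - Q` -/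
noncomputable def roundL (c : Par) (Q s : ℝ) (A : List (List ℝ)) : List (List ℝ) :=
  A.map fun r => r.map fun a => flL c.2.1 ((a / s + 1) * Q) - Q

theorem Sq_roundL {c : Par} {Q s : ℝ} {n : ℕ} {A : List (List ℝ)} (hA : Sq n A) :
    Sq n (roundL c Q s A) := by
  constructor
  · simp [roundL, hA.1]
  · intro r hr
    simp only [roundL, List.mem_map] at hr
    obtain ⟨p, hp, rfl⟩ := hr
    simp [hA.2 _ hp]

theorem CO_roundL : CO (fun x : (Par × (ℝ × ℝ)) × List (List ℝ) => Sq x.1.1.2.2.length x.2)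
    (fun x => roundL x.1.1 x.1.2.1 x.1.2.2 x.2) (fun x => cst x.1.1) := by
  refine CO.map (l := fun x : (Par × (ℝ × ℝ)) × List (List ℝ) => x.2)
    (f := fun x r => r.map fun a => flL x.1.1.2.1 ((a / x.1.2.2 + 1) * x.1.2.1) - x.1.2.1)
    (Pb := fun y => y.2.length ≤ y.1.1.1.2.2.length)
    (Tb := fun y => y.1.1.1.2.2.length * (y.1.1.1.2.1.length + 1))
    (CO.snd CO.id) ?_
    (fun x => x.1.1.2.2.length * (x.1.1.2.1.length + 1)) 2
    (fun x hx b hb => ⟨(hx.2 b hb).le, le_rfl⟩) (fun x hx => ?_)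
  · refine CO.map (l := fun x : ((Par × (ℝ × ℝ)) × List (List ℝ)) × List ℝ => x.2)
      (f := fun x a => flL x.1.1.1.2.1 ((a / x.1.1.2.2 + 1) * x.1.1.2.1) - x.1.1.2.1)
      (Pb := fun _ => True) (Tb := fun y => y.1.1.1.1.2.1.length)
      (CO.snd CO.id) ?_
      (fun x => x.1.1.1.2.1.length) 1
      (fun x hx b hb => ⟨trivial, le_rfl⟩) (fun x hx => ?_)
    · refine CO.sub ?_ (CO.fst (CO.snd (CO.fst (CO.fst (CO.fst CO.id)))))
      exact CO_flL.app (f := fun y : (((Par × (ℝ × ℝ)) × List (List ℝ)) × List ℝ) × ℝ =>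
          (y.1.1.1.1.2.1, (y.2 / y.1.1.1.2.2 + 1) * y.1.1.1.2.1))
        ((CO.fst (CO.snd (CO.fst (CO.fst (CO.fst (CO.fst CO.id)))))).pair
          ((((CO.snd CO.id).div (CO.snd (CO.snd (CO.fst (CO.fst (CO.fst CO.id)))))).add CO.one).mul
            (CO.fst (CO.snd (CO.fst (CO.fst (CO.fst CO.id))))))) 1
        (fun y _ => ⟨trivial, by simp⟩)
    · nlinarith [Nat.mul_le_mul_right (x.1.1.1.2.1.length + 1) hx]
  · rw [hx.1]
    exact le_cst4 x.1.1

/-- entrywise `X - k I` -/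
noncomputable def subId (k : ℝ) (ts : List ℝ) (X : List (List ℝ)) : List (List ℝ) :=
  (X.zip (idL ts)).map fun p => (p.1.zip p.2).map fun q => q.1 - k * q.2

theorem Sq_idL (ts : List ℝ) : Sq ts.length (idL ts) := by
  constructor
  · simp [idL]
  · intro r hr
    simp only [idL, List.mem_map] at hr
    obtain ⟨p, hp, rfl⟩ := hr
    simp

theorem Sq_subId {k : ℝ} {ts : List ℝ} {X : List (List ℝ)} (hX : Sq ts.length X) :
    Sq ts.length (subId k ts X) := by
  constructor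
  · simp [subId, hX.1, (Sq_idL ts).1]
  · intro r hr
    simp only [subId, List.mem_map] at hr
    obtain ⟨p, hp, rfl⟩ := hr
    have h1 := List.of_mem_zip (a := p.1) (b := p.2) hp
    simp [hX.2 _ h1.1, (Sq_idL ts).2 _ h1.2]

theorem CO_subId : CO (fun x : (ℝ × List ℝ) × List (List ℝ) => Sq x.1.2.length x.2)
    (fun x => subId x.1.1 x.1.2 x.2) (fun x => x.1.2.length ^ 2) := by
  have hsq : ∀ m : ℕ, m ≤ m ^ 2 := fun m => Nat.le_self_pow (by norm_num) m
  have hid : CO (fun x : (ℝ × List ℝ) × List (List ℝ) => Sq x.1.2.length x.2)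
      (fun x => idL x.1.2) (fun x => x.1.2.length ^ 2) :=
    CO_idL.app (f := fun x : (ℝ × List ℝ) × List (List ℝ) => x.1.2) (CO.snd (CO.fst CO.id)) 1
      (fun x _ => ⟨trivial, by simp⟩)
  refine CO.map (l := fun x : (ℝ × List ℝ) × List (List ℝ) => x.2.zip (idL x.1.2))
    (f := fun x p => (p.1.zip p.2).map fun q => q.1 - x.1.1 * q.2)
    (Pb := fun y => y.2.1.length ≤ y.1.1.2.length)
    (Tb := fun y => y.1.1.2.length)
    ((CO.snd CO.id).zip hid 1 (fun x hx => ?_)) ?_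
    (fun x => x.1.2.length) 2
    (fun x hx b hb => ⟨?_, le_rfl⟩) (fun x hx => ?_)
  · have := hsq x.1.2.length
    rw [hx.1]; omega
  · refine CO.map (l := fun x : ((ℝ × List ℝ) × List (List ℝ)) × (List ℝ × List ℝ) =>
      x.2.1.zip x.2.2)
      (f := fun x q => q.1 - x.1.1.1 * q.2)
      (Pb := fun _ => True) (Tb := fun _ => 0)
      ((CO.fst (CO.snd CO.id)).zip (CO.snd (CO.snd CO.id)) 1 (fun x hx => by omega))
      ((CO.fst (CO.snd CO.id)).sub ((CO.fst (CO.fst (CO.fst (CO.fst CO.id)))).mul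
        (CO.snd (CO.snd CO.id)))) (fun _ => 0) 1 (fun _ _ _ _ => ⟨trivial, le_rfl⟩)
      (fun x hx => ?_)
    simp only [List.length_zip]
    omega
  · have h1 := List.of_mem_zip (a := b.1) (b := b.2) hb
    exact (hx.2 _ h1.1).le
  · have := hsq x.1.2.length
    rw [List.length_zip, hx.1, (Sq_idL _).1, min_self]
    nlinarith

end Pool.Agent.N602.RR
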