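import Pool.Agent.N602.RR.Alg2

/-! # The algorithm and its cost: the main loop -/

set_option autoImplicit false

namespace Pool.Agent.N602.RR

open Classical

/-- squaring of `q` and doubling of the list of powers of two -/
noncomputable def dbl (x : ℝ × List ℝ) : ℝ × List ℝ := (x.1 * x.1, x.2.map (fun a => a * x.1) ++ x.2)

theorem dbl_length (x : ℝ × List ℝ) : (dbl x).2.length = 2 * x.2.length := by
  simp [dbl]; ring

theorem CO_dbl : CO (fun _ => True) dbl (fun x => x.2.length) := by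
  have h1 : CO (fun _ => True) (fun x : ℝ × List ℝ => x.2.map (fun a => a * x.1))
      (fun x => x.2.length) :=
    CO.map (f := fun (x : ℝ × List ℝ) (a : ℝ) => a * x.1) (Pb := fun _ => True) (Tb := fun _ => 0)
      (CO.snd CO.id) ((CO.snd CO.id).mul (CO.fst (CO.fst CO.id))) (fun _ => 0) 1
      (fun _ _ _ _ => ⟨trivial, le_rfl⟩) (fun x _ => by omega)
  exact ((CO.fst CO.id).mul (CO.fst CO.id)).pair (h1.append (CO.snd CO.id) 1
    (fun x _ => by simp))

/-- five doublings -/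
noncomputable def dbl5 (x : ℝ × List ℝ) : ℝ × List ℝ := dbl (dbl (dbl (dbl (dbl x))))

theorem dbl5_length (x : ℝ × List ℝ) : (dbl5 x).2.length = 32 * x.2.length := by
  simp only [dbl5, dbl_length]; ring

theorem CO_dbl5 : CO (fun _ => True) dbl5 (fun x => x.2.length) := by
  have h0 : CO (fun _ => True) (fun x : ℝ × List ℝ => dbl x) (fun x => x.2.length) := CO_dbl
  have h1 : CO (fun _ => True) (fun x : ℝ × List ℝ => dbl (dbl x)) (fun x => x.2.length) :=
    CO_dbl.app h0 32 (fun x _ => ⟨trivial, by simp only [dbl_length]; omega⟩)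
  have h2 : CO (fun _ => True) (fun x : ℝ × List ℝ => dbl (dbl (dbl x))) (fun x => x.2.length) :=
    CO_dbl.app h1 32 (fun x _ => ⟨trivial, by simp only [dbl_length]; omega⟩)
  have h3 : CO (fun _ => True) (fun x : ℝ × List ℝ => dbl (dbl (dbl (dbl x))))
      (fun x => x.2.length) :=
    CO_dbl.app h2 32 (fun x _ => ⟨trivial, by simp only [dbl_length]; omega⟩)
  exact CO_dbl.app h3 32 (fun x _ => ⟨trivial, by simp only [dbl_length]; omega⟩)

/-- the input: `(((A, b), ε), ts)` where `ts` is a list of `n` different numbers -/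
abbrev Inp : Type := ((List (List ℝ) × List ℝ) × ℝ) × List ℝ

/-- well-formed inputs -/
def WF (x : Inp) : Prop := Sq x.2.length x.1.1.1

/-- the parameters of an attempt -/
noncomputable def parL (x : Inp × (ℝ × List ℝ)) : Par :=
  (((dbl5 x.2).1, (dbl5 x.2).1 / 2), ((dbl5 x.2).2, x.1.2))

/-- the scale `Q = q ^ 4` -/
noncomputable def scQ (x : Inp × (ℝ × List ℝ)) : ℝ := (x.2.1 * x.2.1) * (x.2.1 * x.2.1)

/-- twice the sum of the absolute values -/
noncomputable def scS (x : Inp × (ℝ × List ℝ)) : ℝ := 2 * absM x.1.1.1.1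

/-- the rounded matrix -/
noncomputable def matU (x : Inp × (ℝ × List ℝ)) : List (List ℝ) :=
  roundL (parL x) (scQ x) (scS x) x.1.1.1.1

/-- the approximate inverse -/
noncomputable def matX (x : Inp × (ℝ × List ℝ)) : List (List ℝ) :=
  iterL (parL x) (scQ x * scQ x) (matU x) x.2.2 (transL x.1.2 (matU x))

/-- the cost of an attempt -/
def cstA (x : Inp × (ℝ × List ℝ)) : ℕ := (x.1.2.length ^ 2 + 1) * (x.2.2.length + 1) ^ 2

theorem cst_parL (x : Inp × (ℝ × List ℝ)) : (cst (parL x) + 1) * (x.2.2.length + 1) ≤ 33 * (cstA x + 1) := by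
  unfold cst cstA parL
  simp only [dbl5_length]
  have h : x.1.2.length ^ 2 * (32 * x.2.2.length + 1) + 1 ≤
      32 * ((x.1.2.length ^ 2 + 1) * (x.2.2.length + 1)) := by
    nlinarith [Nat.zero_le (x.1.2.length ^ 2 * x.2.2.length)]
  calc (x.1.2.length ^ 2 * (32 * x.2.2.length + 1) + 1) * (x.2.2.length + 1)
      ≤ 32 * ((x.1.2.length ^ 2 + 1) * (x.2.2.length + 1)) * (x.2.2.length + 1) :=
        Nat.mul_le_mul_right _ h
    _ ≤ _ := by ring_nf; omega

theorem cst_parL' (x : Inp × (ℝ × List ℝ)) : cst (parL x) ≤ 33 * (cstA x + 1) := by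
  have := cst_parL x
  nlinarith [Nat.zero_le (cst (parL x) * x.2.2.length)]

theorem sq_le_cstA (x : Inp × (ℝ × List ℝ)) : x.1.2.length ^ 2 ≤ 33 * (cstA x + 1) :=
  (le_cst2 (parL x)).trans (cst_parL' x)

theorem len_le_cstA (x : Inp × (ℝ × List ℝ)) : x.1.2.length ≤ 33 * (cstA x + 1) :=
  (Nat.le_self_pow (by norm_num) _).trans (sq_le_cstA x)

theorem w_le_cstA (x : Inp × (ℝ × List ℝ)) : x.2.2.length ≤ 33 * (cstA x + 1) := by
  unfold cstA
  nlinarith [Nat.zero_le (x.1.2.length ^ 2 * (x.2.2.length + 1) ^ 2)]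

/-- well-formed -/
abbrev WF2 (x : Inp × (ℝ × List ℝ)) : Prop := WF x.1

theorem CO_parL : CO WF2 parL cstA := by
  have h : CO WF2 (fun x : Inp × (ℝ × List ℝ) => dbl5 x.2) cstA :=
    CO_dbl5.app (CO.snd CO.id) 33 (fun x _ => ⟨trivial, w_le_cstA x⟩)
  exact (h.fst.pair (h.fst.div CO.two)).pair (h.snd.pair (CO.snd (CO.fst CO.id)))

theorem CO_scQ : CO WF2 scQ cstA :=
  ((CO.fst (CO.snd CO.id)).mul (CO.fst (CO.snd CO.id))).mul
    ((CO.fst (CO.snd CO.id)).mul (CO.fst (CO.snd CO.id)))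

theorem CO_scS : CO WF2 scS cstA :=
  CO.two.mul (CO_absM.app (f := fun x : Inp × (ℝ × List ℝ) => (x.1.2, x.1.1.1.1))
    ((CO.snd (CO.fst CO.id)).pair (CO.fst (CO.fst (CO.fst (CO.fst CO.id))))) 33
    (fun x hx => ⟨hx, sq_le_cstA x⟩))

theorem Sq_matU {x : Inp × (ℝ × List ℝ)} (hx : WF2 x) : Sq x.1.2.length (matU x) := Sq_roundL hx

theorem CO_matU : CO WF2 matU cstA :=
  CO_roundL.app (f := fun x : Inp × (ℝ × List ℝ) => ((parL x, (scQ x, scS x)), x.1.1.1.1))
    ((CO_parL.pair (CO_scQ.pair CO_scS)).pair (CO.fst (CO.fst (CO.fst (CO.fst CO.id))))) 33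
    (fun x hx => ⟨hx, cst_parL' x⟩)

theorem Sq_transL {ts : List ℝ} {A : List (List ℝ)} (hA : Sq ts.length A) :
    Sq ts.length (transL ts A) := by
  obtain ⟨h1, h2⟩ := hA
  unfold transL
  have : ∀ (R : List (List ℝ)), (∀ r ∈ R, r.length = ts.length) → 
      ((R.foldr (fun (row : List ℝ) (cols : List (List ℝ)) =>
        (row.zip cols).map (fun p => p.1 :: p.2)) (ts.map fun _ => [])).length = ts.length ∧
      ∀ r ∈ (R.foldr (fun (row : List ℝ) (cols : List (List ℝ)) =>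
        (row.zip cols).map (fun p => p.1 :: p.2)) (ts.map fun _ => [])), r.length = R.length) := by
    intro R
    induction R with
    | nil => 
      intro _
      simp
    | cons a R ih =>
      intro h
      obtain ⟨h3, h4⟩ := ih (fun r hr => h r (by simp [hr]))
      constructor
      · simp only [List.foldr_cons, List.length_map, List.length_zip]
        rw [h3, h a (by simp), min_self]
      · intro r hr
        simp only [List.foldr_cons, List.mem_map] at hr
        obtain ⟨p, hp, rfl⟩ := hr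
        have h5 := List.of_mem_zip (a := p.1) (b := p.2) hp
        simp [h4 _ h5.2]
  rw [List.foldl_reverse]
  obtain ⟨h3, h4⟩ := this A h2
  exact ⟨h3, fun r hr => by rw [h4 r hr, h1]⟩

theorem CO_matX : CO WF2 matX cstA := by
  have h1 : CO WF2 (fun x => transL x.1.2 (matU x)) cstA :=
    CO_transL.app (f := fun x : Inp × (ℝ × List ℝ) => (x.1.2, matU x))
      ((CO.snd (CO.fst CO.id)).pair CO_matU) 33 (fun x hx => ⟨Sq_matU hx, sq_le_cstA x⟩)
  exact CO_iterL.app (f := fun x : Inp × (ℝ × List ℝ) =>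
    (((parL x, scQ x * scQ x), x.2.2), (matU x, transL x.1.2 (matU x))))
    (((CO_parL.pair (CO_scQ.mul CO_scQ)).pair (CO.snd (CO.snd CO.id))).pair (CO_matU.pair h1)) 33
    (fun x hx => ⟨⟨Sq_matU hx, Sq_transL (Sq_matU hx)⟩, cst_parL x⟩)

theorem Sq_matX {x : Inp × (ℝ × List ℝ)} (hx : WF2 x) : Sq x.1.2.length (matX x) :=
  Sq_iterL rfl _ (Sq_transL (Sq_matU hx))

/-- the sum of the squares of the entries of `Q² I - X U` -/
noncomputable def tE (x : Inp × (ℝ × List ℝ)) : ℝ :=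
  frobL (subId (scQ x * scQ x) x.1.2 (mulL (parL x) (matX x) (matU x)))

/-- the sum of the squares of the entries of `X`, times `n²` -/
noncomputable def tX (x : Inp × (ℝ × List ℝ)) : ℝ :=
  frobL (matX x) * (cntL x.1.2 * cntL x.1.2)

/-- the tolerance `(ε/2)² Q⁴` -/
noncomputable def tol (x : Inp × (ℝ × List ℝ)) : ℝ :=
  (x.1.1.2 / 2 * (x.1.1.2 / 2)) * ((scQ x * scQ x) * (scQ x * scQ x))

theorem CO_tE : CO WF2 tE cstA := by
  have h1 : CO WF2 (fun x => mulL (parL x) (matX x) (matU x)) cstA :=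
    CO_mulL.app (f := fun x : Inp × (ℝ × List ℝ) => (parL x, (matX x, matU x)))
      (CO_parL.pair (CO_matX.pair CO_matU)) 33
      (fun x hx => ⟨⟨Sq_matX hx, Sq_matU hx⟩, cst_parL' x⟩)
  have h2 : CO WF2 (fun x => subId (scQ x * scQ x) x.1.2 (mulL (parL x) (matX x) (matU x))) cstA :=
    CO_subId.app (f := fun x : Inp × (ℝ × List ℝ) =>
      ((scQ x * scQ x, x.1.2), mulL (parL x) (matX x) (matU x)))
      (((CO_scQ.mul CO_scQ).pair (CO.snd (CO.fst CO.id))).pair h1) 33
      (fun x hx => ⟨Sq_mulL rfl (Sq_matX hx), sq_le_cstA x⟩)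
  exact CO_frobL.app (f := fun x : Inp × (ℝ × List ℝ) =>
      (x.1.2, subId (scQ x * scQ x) x.1.2 (mulL (parL x) (matX x) (matU x))))
      ((CO.snd (CO.fst CO.id)).pair h2) 33
      (fun x hx => ⟨Sq_subId (Sq_mulL rfl (Sq_matX hx)), sq_le_cstA x⟩)

theorem CO_cnt : CO WF2 (fun x : Inp × (ℝ × List ℝ) => cntL x.1.2) cstA :=
  CO_cntL.app (CO.snd (CO.fst CO.id)) 33 (fun x hx => ⟨trivial, len_le_cstA x⟩)

theorem CO_tX : CO WF2 tX cstA :=
  (CO_frobL.app (f := fun x : Inp × (ℝ × List ℝ) => (x.1.2, matX x))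
      ((CO.snd (CO.fst CO.id)).pair CO_matX) 33
      (fun x hx => ⟨Sq_matX hx, sq_le_cstA x⟩)).mul (CO_cnt.mul CO_cnt)

theorem CO_tol : CO WF2 tol cstA :=
  (((CO.snd (CO.fst (CO.fst CO.id))).div CO.two).mul
    ((CO.snd (CO.fst (CO.fst CO.id))).div CO.two)).mul
    ((CO_scQ.mul CO_scQ).mul (CO_scQ.mul CO_scQ))

/-- the flag: `0` if the attempt passes the tests, otherwise `1` -/
noncomputable def flg (x : Inp × (ℝ × List ℝ)) : ℝ :=
  if 0 < cntL x.1.2 - x.2.1 then 1 else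
    if 0 < tX x - tol x then 1 else
      if 0 < tE x - tol x then 1 else 0

theorem CO_flg : CO WF2 flg cstA :=
  CO.itePos (CO_cnt.sub (CO.fst (CO.snd CO.id))) CO.one
    (CO.itePos (CO_tX.sub CO_tol) CO.one (CO.itePos (CO_tE.sub CO_tol) CO.one CO.zero))

/-- the output `X b / (Q s)` -/
noncomputable def outL (x : Inp × (ℝ × List ℝ)) : List ℝ :=
  (matX x).map fun r => dotL r x.1.1.1.2 / (scQ x * scS x)

theorem CO_outL : CO WF2 outL cstA := by
  have h : CO WF2 (fun x : Inp × (ℝ × List ℝ) => (x.1.1.1.2, (x.1.2, (scQ x * scS x, matX x)))) cstA :=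
    (CO.snd (CO.fst (CO.fst (CO.fst CO.id)))).pair ((CO.snd (CO.fst CO.id)).pair
      ((CO_scQ.mul CO_scS).pair CO_matX))
  have h2 : CO (fun y : List ℝ × (List ℝ × (ℝ × List (List ℝ))) => Sq y.2.1.length y.2.2.2)
      (fun y => y.2.2.2.map fun r => dotL r y.1 / y.2.2.1) (fun y => y.2.1.length ^ 2) :=
    CO.map (f := fun (y : List ℝ × (List ℝ × (ℝ × List (List ℝ)))) (r : List ℝ) =>
      dotL r y.1 / y.2.2.1) (Pb := fun z => z.2.length ≤ z.1.2.1.length)
      (Tb := fun z => z.1.2.1.length)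
      (CO.snd (CO.snd (CO.snd CO.id)))
      ((CO_dotL.app (f := fun z : (List ℝ × (List ℝ × (ℝ × List (List ℝ)))) × List ℝ =>
        (z.2, z.1.1)) ((CO.snd CO.id).pair (CO.fst (CO.fst CO.id))) 1
        (fun z hz => ⟨trivial, by simp only [one_mul]; omega⟩)).div
        (CO.fst (CO.snd (CO.snd (CO.fst CO.id))))) (fun y => y.2.1.length) 2
      (fun y hy r hr => ⟨(hy.2 r hr).le, le_rfl⟩)
      (fun y hy => by
        have : y.2.1.length ≤ y.2.1.length ^ 2 := Nat.le_self_pow (by norm_num) _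
        rw [hy.1]; nlinarith)
  exact h2.app h 33 (fun x hx => ⟨Sq_matX hx, sq_le_cstA x⟩)

/-- the state of the main loop: `(input, ((q, W), (flag, x)))` -/
abbrev St : Type := Inp × ((ℝ × List ℝ) × (ℝ × List ℝ))

/-- one round of the main loop -/
noncomputable def bodyL (s : St) : St :=
  (s.1, (dbl s.2.1, (flg (s.1, s.2.1), outL (s.1, s.2.1))))

/-- the cost of a round -/
def cstS (s : St) : ℕ := cstA (s.1, s.2.1)

theorem CO_bodyL : CO (fun s : St => WF s.1) bodyL cstS := by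
  have h0 : CO (fun s : St => WF s.1) (fun s : St => (s.1, s.2.1)) cstS :=
    (CO.fst CO.id).pair (CO.fst (CO.snd CO.id))
  exact (CO.fst CO.id).pair ((CO_dbl.app (CO.fst (CO.snd CO.id)) 33
      (fun s _ => ⟨trivial, w_le_cstA (s.1, s.2.1)⟩)).pair
    ((CO_flg.app h0 1 (fun s hs => ⟨hs, by simp [cstS]⟩)).pair
      (CO_outL.app h0 1 (fun s hs => ⟨hs, by simp [cstS]⟩))))

/-- while loops -/
theorem while_cost {σ : Type} [Enc σ] {P : σ → Prop} {f : σ → σ} {r : σ → ℝ} {T : σ → ℕ}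
    (hf : CO P f T) (hr : CO P r T) :
    ∃ (p : Prog) (C : ℕ), ∀ (m : ℕ) (s : σ), (∀ j ≤ m, P (f^[j] s)) →
      (∀ j < m, 0 < r (f^[j] s)) → ¬ 0 < r (f^[m] s) →
      ∃ t, t ≤ C * (∑ j ∈ Finset.range (m + 1), (T (f^[j] s) + 1)) ∧
        Ev p (enc s) (enc (f^[m] s)) t := by
  obtain ⟨p, C, hp⟩ := hf
  obtain ⟨c, K, hc⟩ := hr
  refine ⟨.wh (.comp c .pos) p, C + K + 4, fun m => ?_⟩
  induction m with
  | zero =>
    intro s hP _ h0
    obtain ⟨t, ht, he⟩ := hc s (hP 0 le_rfl)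
    have h1 : D.pos (enc (r s)) = D.nil := by
      show D.pos (D.num (r s)) = _
      have : ¬ 0 < r s := h0
      simp [D.pos, this]
    have h2 : Ev (.comp c .pos) (enc s) D.nil (t + 1 + 1) := h1 ▸ Ev.comp he (Ev.pos _)
    refine ⟨_, ?_, Ev.whF h2⟩
    simp only [zero_add, Finset.sum_range_one, Function.iterate_zero, id_eq]
    nlinarith
  | succ m ih =>
    intro s hP hlt h0
    obtain ⟨t, ht, he⟩ := hc s (hP 0 (by omega))
    obtain ⟨u, hu, hu'⟩ := hp s (hP 0 (by omega))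
    have h1 : D.pos (enc (r s)) = D.tt := by
      show D.pos (D.num (r s)) = _
      have : 0 < r s := hlt 0 (by omega)
      simp [D.pos, this]
    have h2 : Ev (.comp c .pos) (enc s) D.tt (t + 1 + 1) := h1 ▸ Ev.comp he (Ev.pos _)
    obtain ⟨v, hv, hv'⟩ := ih (f s) (fun j hj => by
      have := hP (j + 1) (by omega)
      rwa [Function.iterate_succ_apply] at this) (fun j hj => by
      have := hlt (j + 1) (by omega)
      rwa [Function.iterate_succ_apply] at this) (by
      rwa [Function.iterate_succ_apply] at h0)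
    refine ⟨_, ?_, Ev.whT h2 (by simp [D.tt]) hu' (by
      rw [Function.iterate_succ_apply]; exact hv')⟩
    rw [Finset.sum_range_succ']
    simp only [Function.iterate_succ_apply, Function.iterate_zero, id_eq]
    nlinarith

end Pool.Agent.N602.RR
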