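import Mathlib

/-! # Elementary operator bounds for matrices -/

set_option autoImplicit false

namespace Pool.Agent.N602.RR

open Matrix

variable {n : ℕ}

/-- the Euclidean norm of a vector -/
noncomputable def nn (v : Fin n → ℝ) : ℝ := Real.sqrt (∑ i, v i ^ 2)

theorem nn_eq (v : Fin n → ℝ) : nn v = ‖(WithLp.toLp 2 v : EuclideanSpace ℝ (Fin n))‖ := by
  rw [EuclideanSpace.norm_eq]
  simp [nn]

theorem nn_nonneg (v : Fin n → ℝ) : 0 ≤ nn v := Real.sqrt_nonneg _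

theorem nn_sq (v : Fin n → ℝ) : nn v ^ 2 = ∑ i, v i ^ 2 :=
  Real.sq_sqrt (Finset.sum_nonneg fun _ _ => sq_nonneg _)

theorem nn_add (u v : Fin n → ℝ) : nn (u + v) ≤ nn u + nn v := by
  simp only [nn_eq]
  exact norm_add_le _ _

theorem nn_sub (u v : Fin n → ℝ) : nn (u - v) ≤ nn u + nn v := by
  simp only [nn_eq]
  exact norm_sub_le _ _

theorem nn_smul (c : ℝ) (v : Fin n → ℝ) : nn (c • v) = |c| * nn v := by
  simp only [nn_eq]
  exact norm_smul c _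

theorem nn_neg (v : Fin n → ℝ) : nn (-v) = nn v := by
  simp [nn]

theorem nn_zero : nn (0 : Fin n → ℝ) = 0 := by simp [nn]

theorem nn_eq_zero {v : Fin n → ℝ} (h : nn v = 0) : v = 0 := by
  rw [nn_eq, norm_eq_zero] at h
  funext i
  have := congrArg (fun w : EuclideanSpace ℝ (Fin n) => w i) h
  simpa using this

theorem abs_le_nn (v : Fin n → ℝ) (i : Fin n) : |v i| ≤ nn v := by
  unfold nn
  apply Real.abs_le_sqrt
  exact Finset.single_le_sum (f := fun i => v i ^ 2) (fun _ _ => sq_nonneg _) (Finset.mem_univ i)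

/-- `M` has operator norm at most `c` -/
def OB (M : Matrix (Fin n) (Fin n) ℝ) (c : ℝ) : Prop := ∀ v, nn (M *ᵥ v) ≤ c * nn v

theorem OB.mono {M : Matrix (Fin n) (Fin n) ℝ} {c d : ℝ} (h : OB M c) (hcd : c ≤ d) : OB M d :=
  fun v => (h v).trans (mul_le_mul_of_nonneg_right hcd (nn_nonneg v))

theorem OB.mul {A B : Matrix (Fin n) (Fin n) ℝ} {c d : ℝ} (hA : OB A c) (hB : OB B d)
    (hc : 0 ≤ c) : OB (A * B) (c * d) := fun v => by
  rw [← mulVec_mulVec]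
  calc _ ≤ c * nn (B *ᵥ v) := hA _
    _ ≤ c * (d * nn v) := mul_le_mul_of_nonneg_left (hB v) hc
    _ = _ := by ring

theorem OB.add {A B : Matrix (Fin n) (Fin n) ℝ} {c d : ℝ} (hA : OB A c) (hB : OB B d) :
    OB (A + B) (c + d) := fun v => by
  rw [add_mulVec, add_mul]
  exact (nn_add _ _).trans (add_le_add (hA v) (hB v))

theorem OB.sub {A B : Matrix (Fin n) (Fin n) ℝ} {c d : ℝ} (hA : OB A c) (hB : OB B d) :
    OB (A - B) (c + d) := fun v => by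
  rw [sub_mulVec, add_mul]
  exact (nn_sub _ _).trans (add_le_add (hA v) (hB v))

theorem OB_one : OB (1 : Matrix (Fin n) (Fin n) ℝ) 1 := fun v => by simp

theorem OB.smul {A : Matrix (Fin n) (Fin n) ℝ} {c : ℝ} (hA : OB A c) (k : ℝ) (hk : 0 ≤ k) :
    OB (k • A) (k * c) := fun v => by
  rw [smul_mulVec, nn_smul, abs_of_nonneg hk, mul_assoc]
  exact mul_le_mul_of_nonneg_left (hA v) hk

theorem OB_frob (M : Matrix (Fin n) (Fin n) ℝ) (c : ℝ) (hc : 0 ≤ c)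
    (h : ∑ i, ∑ j, M i j ^ 2 ≤ c ^ 2) : OB M c := fun v => by
  have h1 : nn (M *ᵥ v) ^ 2 ≤ (c * nn v) ^ 2 := by
    rw [nn_sq, mul_pow, nn_sq]
    calc ∑ i, (M *ᵥ v) i ^ 2 ≤ ∑ i, (∑ j, M i j ^ 2) * (∑ j, v j ^ 2) := by
          refine Finset.sum_le_sum fun i _ => ?_
          exact Finset.sum_mul_sq_le_sq_mul_sq Finset.univ (M i) v
      _ = (∑ i, ∑ j, M i j ^ 2) * (∑ j, v j ^ 2) := by rw [Finset.sum_mul]
      _ ≤ _ := mul_le_mul_of_nonneg_right h (Finset.sum_nonneg fun _ _ => sq_nonneg _)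
  exact (le_abs_self _).trans (abs_le_of_sq_le_sq h1 (mul_nonneg hc (nn_nonneg v)))

theorem OB_entry (M : Matrix (Fin n) (Fin n) ℝ) (c : ℝ) (hc : 0 ≤ c)
    (h : ∀ i j, |M i j| ≤ c) : OB M (n * c) := by
  refine OB_frob M _ (by positivity) ?_
  calc ∑ i, ∑ j, M i j ^ 2 ≤ ∑ _i : Fin n, ∑ _j : Fin n, c ^ 2 :=
        Finset.sum_le_sum fun i _ => Finset.sum_le_sum fun j _ => by
          rw [← sq_abs]
          exact pow_le_pow_left₀ (abs_nonneg _) (h i j) 2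
    _ = _ := by simp; ring

theorem OB.entry {M : Matrix (Fin n) (Fin n) ℝ} {c : ℝ} (h : OB M c) (i j : Fin n) :
    |M i j| ≤ c := by
  have h1 := h (Pi.single j 1)
  have h2 : nn (Pi.single j (1 : ℝ)) = 1 := by
    unfold nn
    rw [Finset.sum_eq_single j]
    · simp
    · intro b _ hb
      simp [hb]
    · simp
  rw [h2, mul_one] at h1
  have h3 := abs_le_nn (M *ᵥ Pi.single j 1) i
  have h4 : (M *ᵥ Pi.single j 1) i = M i j := by simp
  rw [h4] at h3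
  exact h3.trans h1

theorem nn_dot (v w : Fin n → ℝ) : nn (v - w) ^ 2 = nn v ^ 2 - 2 * (v ⬝ᵥ w) + nn w ^ 2 := by
  rw [nn_sq, nn_sq, nn_sq, dotProduct, Finset.mul_sum, ← Finset.sum_sub_distrib,
    ← Finset.sum_add_distrib]
  refine Finset.sum_congr rfl fun i _ => ?_
  simp only [Pi.sub_apply]
  ring

theorem nn_sq_dot (v : Fin n → ℝ) : nn v ^ 2 = v ⬝ᵥ v := by
  rw [nn_sq, dotProduct]
  exact Finset.sum_congr rfl fun i _ => by ring

/-- the first residual -/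
theorem OB_first (A : Matrix (Fin n) (Fin n) ℝ) (μ : ℝ) (h0 : 0 ≤ μ) (h1 : μ ≤ 1)
    (hA' : OB Aᵀ 1) (hl : ∀ v, μ * nn v ≤ nn (A *ᵥ v)) :
    OB (1 - Aᵀ * A) (1 - μ ^ 2 / 2) := fun v => by
  have hμ : 0 ≤ 1 - μ ^ 2 / 2 := by nlinarith
  rw [sub_mulVec, one_mulVec, ← mulVec_mulVec]
  have h2 := nn_dot v (Aᵀ *ᵥ (A *ᵥ v))
  have h3 : v ⬝ᵥ (Aᵀ *ᵥ (A *ᵥ v)) = nn (A *ᵥ v) ^ 2 := by
    rw [nn_sq_dot, dotProduct_mulVec, vecMul_transpose]
  have h4 : nn (Aᵀ *ᵥ (A *ᵥ v)) ^ 2 ≤ nn (A *ᵥ v) ^ 2 := by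
    have := hA' (A *ᵥ v)
    rw [one_mul] at this
    exact pow_le_pow_left₀ (nn_nonneg _) this 2
  have h5 : (μ * nn v) ^ 2 ≤ nn (A *ᵥ v) ^ 2 :=
    pow_le_pow_left₀ (mul_nonneg h0 (nn_nonneg v)) (hl v) 2
  have h6 : nn (v - Aᵀ *ᵥ (A *ᵥ v)) ^ 2 ≤ ((1 - μ ^ 2 / 2) * nn v) ^ 2 := by
    rw [h2, h3]
    have : (1 - μ ^ 2) * nn v ^ 2 ≤ (1 - μ ^ 2 / 2) ^ 2 * nn v ^ 2 :=
      mul_le_mul_of_nonneg_right (by nlinarith [sq_nonneg (μ ^ 2)]) (sq_nonneg _)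
    nlinarith
  exact (le_abs_self _).trans (abs_le_of_sq_le_sq h6 (mul_nonneg hμ (nn_nonneg v)))

/-- the bound for `X` from the bound for the residual -/
theorem OB_inv (X A : Matrix (Fin n) (Fin n) ℝ) (μ : ℝ) (h0 : 0 < μ)
    (hl : ∀ v, μ * nn v ≤ nn (A *ᵥ v)) (hR : OB (1 - X * A) 2) : OB X (3 / μ) := fun u => by
  have hinj : Function.Injective A.mulVec := by
    intro v w hvw
    have h1 := hl (v - w)
    rw [mulVec_sub, show A.mulVec v = A.mulVec w from hvw, sub_self, nn_zero] at h1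
    have h2 : nn (v - w) = 0 := by
      have := nn_nonneg (v - w)
      nlinarith
    exact sub_eq_zero.mp (nn_eq_zero h2)
  have hsurj : Function.Surjective A.mulVec :=
    mulVec_surjective_iff_isUnit.mpr (mulVec_injective_iff_isUnit.mp hinj)
  obtain ⟨v, rfl⟩ := hsurj u
  have h1 : X *ᵥ (A *ᵥ v) = v - (1 - X * A) *ᵥ v := by
    rw [sub_mulVec, one_mulVec, mulVec_mulVec]; simp
  have h2 : nn (X *ᵥ (A *ᵥ v)) ≤ 3 * nn v := by
    rw [h1]
    have := nn_sub v ((1 - X * A) *ᵥ v)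
    have := hR v
    linarith
  have h3 := hl v
  show nn (X *ᵥ (A *ᵥ v)) ≤ 3 / μ * nn (A *ᵥ v)
  calc nn (X *ᵥ (A *ᵥ v)) ≤ 3 * nn v := h2
    _ = 3 / μ * (μ * nn v) := by field_simp
    _ ≤ _ := mul_le_mul_of_nonneg_left h3 (by positivity)

/-- the residual after a Newton step -/
theorem newton_res (X A E : Matrix (Fin n) (Fin n) ℝ) :
    1 - (2 • X - X * A * X - E) * A = (1 - X * A) * (1 - X * A) + E * A := by
  noncomm_ring

theorem pow_bound {x : ℝ} (h0 : 0 < x) (h1 : x ≤ 1) (N : ℕ) (hN : 0 < N) :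
    (1 - x) ^ N ≤ 1 / (N * x) := by
  have h2 : (1 - x) ^ N ≤ Real.exp (-(N * x)) := by
    calc (1 - x) ^ N ≤ (Real.exp (-x)) ^ N :=
          pow_le_pow_left₀ (by linarith) (by linarith [Real.add_one_le_exp (-x)]) N
      _ = Real.exp (-(N * x)) := by rw [← Real.exp_nat_mul]; ring_nf
  have h3 : 0 < (N : ℝ) * x := by positivity
  have h4 : (N : ℝ) * x ≤ Real.exp (N * x) := by linarith [Real.add_one_le_exp (N * x)]
  rw [Real.exp_neg] at h2
  calc (1 - x) ^ N ≤ (Real.exp (N * x))⁻¹ := h2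
    _ ≤ (N * x)⁻¹ := inv_anti₀ h3 h4
    _ = _ := by rw [one_div]

end Pool.Agent.N602.RR
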