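import Pool.Agent.N602.RR.Model

/-! # Cost calculus for programs -/

set_option autoImplicit false

namespace Pool.Agent.N602.RR

variable {α β γ δ σ τ : Type} [Enc α] [Enc β] [Enc γ] [Enc δ] [Enc σ] [Enc τ]

/-- On the inputs in `P`, the function `f` is computed by one program within `C * (T x + 1)`
steps. -/
def CO (P : α → Prop) (f : α → β) (T : α → ℕ) : Prop :=
  ∃ (p : Prog) (C : ℕ), ∀ x : α, P x → ∃ t, t ≤ C * (T x + 1) ∧ Ev p (enc x) (enc (f x)) t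

variable {P : α → Prop} {B : α → ℕ}

/-- change of the cost bound -/
theorem CO.mono {f : α → β} {T : α → ℕ} (h : CO P f T) (K : ℕ)
    (hTU : ∀ x, P x → T x ≤ K * (B x + 1)) : CO P f B := by
  obtain ⟨p, C, h⟩ := h
  refine ⟨p, C * (K + 1), fun x hx => ?_⟩
  obtain ⟨t, ht, he⟩ := h x hx
  refine ⟨t, ht.trans ?_, he⟩
  have := hTU x hx
  calc C * (T x + 1) ≤ C * (K * (B x + 1) + 1) := Nat.mul_le_mul_left _ (by omega)
    _ ≤ C * ((K + 1) * (B x + 1)) := Nat.mul_le_mul_left _ (by nlinarith)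
    _ = _ := by ring

theorem CO.congr {f g : α → β} (h : CO P f B) (hfg : ∀ x, P x → f x = g x) : CO P g B := by
  obtain ⟨p, C, h⟩ := h
  refine ⟨p, C, fun x hx => ?_⟩
  obtain ⟨t, ht, he⟩ := h x hx
  exact ⟨t, ht, hfg x hx ▸ he⟩

theorem CO.weaken {Q : α → Prop} {f : α → β} (h : CO Q f B) (hPQ : ∀ x, P x → Q x) :
    CO P f B := by
  obtain ⟨p, C, h⟩ := h
  exact ⟨p, C, fun x hx => h x (hPQ x hx)⟩

theorem CO.id : CO P (fun x : α => x) B := ⟨.id, 1, fun x _ => ⟨1, by omega, Ev.id _⟩⟩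

/-- calling a subroutine -/
theorem CO.app {P' : β → Prop} {U : β → ℕ} {g : β → γ} {f : α → β} (hg : CO P' g U)
    (hf : CO P f B) (K : ℕ) (h : ∀ x, P x → P' (f x) ∧ U (f x) ≤ K * (B x + 1)) :
    CO P (fun x => g (f x)) B := by
  obtain ⟨p, C, h1⟩ := hf
  obtain ⟨q, M, h2⟩ := hg
  refine ⟨.comp p q, C + M * (K + 1) + 1, fun x hx => ?_⟩
  obtain ⟨t, ht, he⟩ := h1 x hx
  obtain ⟨u, hu, he'⟩ := h2 (f x) (h x hx).1
  refine ⟨t + u + 1, ?_, Ev.comp he he'⟩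
  have h3 : u ≤ M * ((K + 1) * (B x + 1)) := by
    refine hu.trans (Nat.mul_le_mul_left _ ?_)
    have := (h x hx).2
    nlinarith
  nlinarith

/-- calling a constant-cost function -/
theorem CO.app0 {g : β → γ} {f : α → β} (hg : CO (fun _ => True) g (fun _ => 0))
    (hf : CO P f B) : CO P (fun x => g (f x)) B :=
  CO.app hg hf 0 (fun _ _ => ⟨trivial, by omega⟩)

theorem CO.pair {f : α → β} {g : α → γ} (hf : CO P f B) (hg : CO P g B) :
    CO P (fun x => (f x, g x)) B := by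
  obtain ⟨p, C, h⟩ := hf
  obtain ⟨q, K, h'⟩ := hg
  refine ⟨.cons p q, C + K + 1, fun x hx => ?_⟩
  obtain ⟨t, ht, he⟩ := h x hx
  obtain ⟨u, hu, he'⟩ := h' x hx
  refine ⟨t + u + 1, ?_, Ev.cons he he'⟩
  nlinarith

theorem CO.fst {f : α → β × γ} (hf : CO P f B) : CO P (fun x => (f x).1) B := by
  obtain ⟨p, C, h⟩ := hf
  refine ⟨.comp p .hd, C + 2, fun x hx => ?_⟩
  obtain ⟨t, ht, he⟩ := h x hx
  refine ⟨t + 1 + 1, ?_, Ev.comp he (Ev.hd _)⟩
  nlinarith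

theorem CO.snd {f : α → β × γ} (hf : CO P f B) : CO P (fun x => (f x).2) B := by
  obtain ⟨p, C, h⟩ := hf
  refine ⟨.comp p .tl, C + 2, fun x hx => ?_⟩
  obtain ⟨t, ht, he⟩ := h x hx
  refine ⟨t + 1 + 1, ?_, Ev.comp he (Ev.tl _)⟩
  nlinarith

theorem CO.int (z : ℤ) : CO P (fun _ => (z : ℝ)) B :=
  ⟨.int z, 1, fun x _ => ⟨1, by omega, Ev.int _ _⟩⟩

theorem CO.zero : CO P (fun _ => (0 : ℝ)) B := by simpa using CO.int (P := P) (B := B) 0

theorem CO.one : CO P (fun _ => (1 : ℝ)) B := by simpa using CO.int (P := P) (B := B) 1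

theorem CO.two : CO P (fun _ => (2 : ℝ)) B := by simpa using CO.int (P := P) (B := B) 2

theorem CO.nil : CO P (fun _ => ([] : List β)) B :=
  ⟨.nil, 1, fun x _ => ⟨1, by omega, Ev.nil _⟩⟩

theorem CO.cons {f : α → β} {g : α → List β} (hf : CO P f B) (hg : CO P g B) :
    CO P (fun x => f x :: g x) B := by
  obtain ⟨p, C, h⟩ := hf
  obtain ⟨q, K, h'⟩ := hg
  refine ⟨.cons p q, C + K + 1, fun x hx => ?_⟩
  obtain ⟨t, ht, he⟩ := h x hx
  obtain ⟨u, hu, he'⟩ := h' x hx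
  refine ⟨t + u + 1, ?_, Ev.cons he he'⟩
  nlinarith

theorem CO.add {f g : α → ℝ} (hf : CO P f B) (hg : CO P g B) :
    CO P (fun x => f x + g x) B := by
  obtain ⟨p, C, h⟩ := hf.pair hg
  refine ⟨.comp p .add, C + 2, fun x hx => ?_⟩
  obtain ⟨t, ht, he⟩ := h x hx
  refine ⟨t + 1 + 1, ?_, Ev.comp he (Ev.add _)⟩
  nlinarith

theorem CO.sub {f g : α → ℝ} (hf : CO P f B) (hg : CO P g B) :
    CO P (fun x => f x - g x) B := by
  obtain ⟨p, C, h⟩ := hf.pair hg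
  refine ⟨.comp p .sub, C + 2, fun x hx => ?_⟩
  obtain ⟨t, ht, he⟩ := h x hx
  refine ⟨t + 1 + 1, ?_, Ev.comp he (Ev.sub _)⟩
  nlinarith

theorem CO.mul {f g : α → ℝ} (hf : CO P f B) (hg : CO P g B) :
    CO P (fun x => f x * g x) B := by
  obtain ⟨p, C, h⟩ := hf.pair hg
  refine ⟨.comp p .mul, C + 2, fun x hx => ?_⟩
  obtain ⟨t, ht, he⟩ := h x hx
  refine ⟨t + 1 + 1, ?_, Ev.comp he (Ev.mul _)⟩
  nlinarith

theorem CO.div {f g : α → ℝ} (hf : CO P f B) (hg : CO P g B) :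
    CO P (fun x => f x / g x) B := by
  obtain ⟨p, C, h⟩ := hf.pair hg
  refine ⟨.comp p .div, C + 2, fun x hx => ?_⟩
  obtain ⟨t, ht, he⟩ := h x hx
  refine ⟨t + 1 + 1, ?_, Ev.comp he (Ev.div _)⟩
  nlinarith

open Classical in
/-- branching on the sign of a number -/
theorem CO.itePos {r : α → ℝ} {f g : α → β} (hr : CO P r B) (hf : CO P f B) (hg : CO P g B) :
    CO P (fun x => if 0 < r x then f x else g x) B := by
  obtain ⟨c, A, hc⟩ := hr
  obtain ⟨p, C, h⟩ := hf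
  obtain ⟨q, K, h'⟩ := hg
  refine ⟨.ite (.comp c .pos) p q, A + C + K + 3, fun x hx => ?_⟩
  obtain ⟨s, hs, hes⟩ := hc x hx
  obtain ⟨t, ht, he⟩ := h x hx
  obtain ⟨u, hu, he'⟩ := h' x hx
  have hcond : Ev (.comp c .pos) (enc x) (D.pos (enc (r x))) (s + 1 + 1) := Ev.comp hes (Ev.pos _)
  by_cases h0 : 0 < r x
  · have h1 : D.pos (enc (r x)) = D.tt := by
      show D.pos (D.num (r x)) = _
      simp [D.pos, h0]
    rw [h1] at hcond
    refine ⟨(s + 1 + 1) + t + 1, ?_, ?_⟩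
    · nlinarith
    · have := Ev.iteT (q := q) hcond (by simp [D.tt]) he
      simpa [h0] using this
  · have h1 : D.pos (enc (r x)) = D.nil := by
      show D.pos (D.num (r x)) = _
      simp [D.pos, h0]
    rw [h1] at hcond
    refine ⟨(s + 1 + 1) + u + 1, ?_, ?_⟩
    · nlinarith
    · have := Ev.iteF (p := p) hcond he'
      simpa [h0] using this

/-- folds over a list with a context and an invariant -/
theorem CO.foldl {l : α → List β} {s : α → σ} {f : α → σ → β → σ}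
    {Pb : (α × σ) × β → Prop} {Tb : (α × σ) × β → ℕ}
    (hl : CO P l B) (hs : CO P s B)
    (hb : CO Pb (fun y : (α × σ) × β => f y.1.1 y.1.2 y.2) Tb)
    (I : α → σ → Prop) (M : α → ℕ) (K : ℕ)
    (h0 : ∀ x, P x → I x (s x))
    (h1 : ∀ x, P x → ∀ u, I x u → ∀ b ∈ l x, Pb ((x, u), b) ∧ Tb ((x, u), b) ≤ M x ∧ I x (f x u b))
    (hK : ∀ x, P x → (l x).length * (M x + 1) ≤ K * (B x + 1)) :
    CO P (fun x => (l x).foldl (f x) (s x)) B := by
  obtain ⟨p, C, h⟩ := hb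
  obtain ⟨pl, Cl, hpl⟩ := hl
  obtain ⟨ps, Cs, hps⟩ := hs
  -- loop state: ((x, u), l)
  let body : Prog := .cons (.cons (.comp .hd .hd) (.comp (.cons .hd (.comp .tl .hd)) p)) (.comp .tl .tl)
  have hw : ∀ (x : α), P x → ∀ (l' : List β) (u : σ), I x u → (∀ b ∈ l', b ∈ l x) →
      ∃ t, t ≤ (C + 20) * (l'.length * (M x + 1) + 1) ∧
      Ev (.wh .tl body) (.cons (.cons (enc x) (enc u)) (enc l'))
        (.cons (.cons (enc x) (enc (l'.foldl (f x) u))) (enc ([] : List β))) t := by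
    intro x hx l'
    induction l' with
    | nil =>
      intro u _ _
      refine ⟨2, ?_, Ev.whF (t := 1) (Ev.tl _)⟩
      simp only [List.length_nil]
      omega
    | cons a l' ih =>
      intro u hu hl'
      obtain ⟨hPb, hTb, hI⟩ := h1 x hx u hu a (hl' a (by simp))
      obtain ⟨t, ht, he⟩ := h ((x, u), a) hPb
      obtain ⟨v, hv, hev⟩ := ih (f x u a) hI (fun b hb => hl' b (by simp [hb]))
      obtain ⟨m, hm, hbody⟩ : ∃ m, m ≤ t + 18 ∧
          Ev body (.cons (.cons (enc x) (enc u)) (enc (a :: l')))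
          (.cons (.cons (enc x) (enc (f x u a))) (enc l')) m := by
        refine ⟨_, ?_, Ev.cons (Ev.cons (Ev.comp (Ev.hd _) (Ev.hd _))
          (Ev.comp (y := enc ((x, u), a)) (Ev.cons (Ev.hd _) (Ev.comp (Ev.tl _) (Ev.hd _))) he))
          (Ev.comp (Ev.tl _) (Ev.tl _))⟩
        omega
      refine ⟨_, ?_, Ev.whT (Ev.tl _) ?_ hbody hev⟩
      · simp only [List.length_cons]
        have h3 : t ≤ C * (M x + 1) := ht.trans (Nat.mul_le_mul_left _ (by omega))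
        nlinarith
      · show enc (a :: l') ≠ D.nil
        intro hh
        cases hh
  refine ⟨.comp (.comp (.cons (.cons .id ps) pl) (.wh .tl body)) (.comp .hd .tl),
    Cl + Cs + (C + 20) * (K + 1) + 10, fun x hx => ?_⟩
  obtain ⟨t, ht, he⟩ := hw x hx (l x) (s x) (h0 x hx) (fun b hb => hb)
  obtain ⟨tl, htl, hel⟩ := hpl x hx
  obtain ⟨ts, hts, hes⟩ := hps x hx
  refine ⟨_, ?_, Ev.comp (Ev.comp (Ev.cons (Ev.cons (Ev.id _) hes) hel) he)
    (Ev.comp (Ev.hd _) (Ev.tl _))⟩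
  · have h3 : t ≤ (C + 20) * ((K + 1) * (B x + 1)) := by
      refine ht.trans (Nat.mul_le_mul_left _ ?_)
      have := hK x hx
      nlinarith
    nlinarith

/-- let-binding -/
theorem CO.letin {f : α → β} {g : α × β → γ} {P' : α × β → Prop} {U : α × β → ℕ}
    (hf : CO P f B) (hg : CO P' g U) (K : ℕ)
    (h : ∀ x, P x → P' (x, f x) ∧ U (x, f x) ≤ K * (B x + 1)) :
    CO P (fun x => g (x, f x)) B :=
  CO.app hg (CO.id.pair hf) K h

end Pool.Agent.N602.RR
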