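import Pool.Agent.N602.RR.Sem
import Pool.Agent.N602.RR.Ana

/-! # Correctness of one attempt -/

set_option autoImplicit false

namespace Pool.Agent.N602.RR

open Matrix

variable {n : ℕ}

theorem mul_entry (A B : Matrix (Fin n) (Fin n) ℝ) (a b : ℝ) (ha : 0 ≤ a)
    (hA : ∀ i j, |A i j| ≤ a) (hB : ∀ i j, |B i j| ≤ b) (i j : Fin n) :
    |(A * B) i j| ≤ n * (a * b) := by
  rw [Matrix.mul_apply]
  calc |∑ k, A i k * B k j| ≤ ∑ k, |A i k * B k j| := Finset.abs_sum_le_sum_abs _ _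
    _ ≤ ∑ _k : Fin n, a * b := Finset.sum_le_sum fun k _ => by
        rw [abs_mul]
        exact mul_le_mul (hA i k) (hB k j) (abs_nonneg _) ha
    _ = _ := by simp

theorem IntM.mul {A B : Matrix (Fin n) (Fin n) ℝ} (hA : IntM A) (hB : IntM B) : IntM (A * B) := by
  intro i j
  rw [Matrix.mul_apply]
  choose f hf using hA
  choose g hg using hB
  exact ⟨∑ k, f i k * g k j, by push_cast; exact Finset.sum_congr rfl fun k _ => by rw [hf, hg]⟩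

theorem pow_half (w : ℕ) (hw : 1 ≤ w) : ∃ z : ℤ, (2 : ℝ) ^ (32 * w) / 2 = z := by
  refine ⟨2 ^ (32 * w - 1), ?_⟩
  push_cast
  rw [div_eq_iff (by norm_num), ← pow_succ]
  congr 1
  omega

/-- the next Newton iterate -/
noncomputable def nxt (U : Matrix (Fin n) (Fin n) ℝ) (Q2 : ℝ) (X : Matrix (Fin n) (Fin n) ℝ) :
    Matrix (Fin n) (Fin n) ℝ := fun i j => (⌊2 * X i j - (X * U * X) i j / Q2⌋ : ℝ)

theorem nxt_int (U : Matrix (Fin n) (Fin n) ℝ) (Q2 : ℝ) (X : Matrix (Fin n) (Fin n) ℝ) :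
    IntM (nxt U Q2 X) := fun _ _ => ⟨_, rfl⟩

/-- the parameters for `q = 2 ^ w` -/
noncomputable def prm (w : ℕ) (ts : List ℝ) : Par :=
  ((2 ^ (32 * w), 2 ^ (32 * w) / 2), (wts (32 * w), ts))

theorem q_pows (w : ℕ) (hw : 1 ≤ w) (a : ℕ) (ha : a ≤ 31) :
    ((2 : ℝ) ^ w) ^ a ≤ 2 ^ (32 * w) / 2 := by
  rw [le_div_iff₀ (by norm_num), ← pow_mul, ← pow_succ]
  refine pow_le_pow_right₀ (by norm_num) ?_
  nlinarith

theorem newt_LL (w : ℕ) (hw : 1 ≤ w) (ts : List ℝ) (hts : ts.length = n)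
    (U X : Matrix (Fin n) (Fin n) ℝ) (hU : IntM U) (hX : IntM X)
    (hnq : (n : ℝ) ≤ 2 ^ w) (hUb : ∀ i j, |U i j| ≤ (2 ^ w) ^ 4)
    (hXb : ∀ i j, |X i j| ≤ (2 ^ w) ^ 5) :
    newt (prm w ts) ((2 ^ w) ^ 8) (LL U) (LL X) = LL (nxt U ((2 ^ w) ^ 8) X) := by
  set q : ℝ := 2 ^ w with hq
  have hq1 : 1 ≤ q := one_le_pow₀ (by norm_num)
  have hq2 : 2 ≤ q := by
    calc (2 : ℝ) = 2 ^ 1 := by norm_num
      _ ≤ _ := pow_le_pow_right₀ (by norm_num) hw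
  have hn0 : (0 : ℝ) ≤ n := Nat.cast_nonneg n
  have hint := pow_half w hw
  have hH := q_pows w hw 20 (by norm_num)
  rw [← hq] at hH
  have e1 : ∀ i j, |(X * U) i j| ≤ q ^ 10 := fun i j => by
    refine (mul_entry X U (q ^ 5) (q ^ 4) (by positivity) hXb hUb i j).trans ?_
    calc (n : ℝ) * (q ^ 5 * q ^ 4) ≤ q * (q ^ 5 * q ^ 4) :=
          mul_le_mul_of_nonneg_right hnq (by positivity)
      _ = _ := by ring
  have e2 : ∀ i j, |(X * U * X) i j| ≤ q ^ 16 := fun i j => by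
    refine (mul_entry (X * U) X (q ^ 10) (q ^ 5) (by positivity) e1 hXb i j).trans ?_
    calc (n : ℝ) * (q ^ 10 * q ^ 5) ≤ q * (q ^ 10 * q ^ 5) :=
          mul_le_mul_of_nonneg_right hnq (by positivity)
      _ = _ := by ring
  have lt1 : q ^ 10 < 2 ^ (32 * w) / 2 :=
    lt_of_lt_of_le (pow_lt_pow_right₀ (by linarith) (by norm_num)) hH
  have lt2 : q ^ 16 < 2 ^ (32 * w) / 2 :=
    lt_of_lt_of_le (pow_lt_pow_right₀ (by linarith) (by norm_num)) hH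
  unfold newt prm
  rw [mulL_LL (32 * w) _ hint (by ring) ts hts X U (hX.mul hU)
    (fun i j => (e1 i j).trans_lt lt1)]
  rw [mulL_LL (32 * w) _ hint (by ring) ts hts (X * U) X ((hX.mul hU).mul hX)
    (fun i j => (e2 i j).trans_lt lt2)]
  rw [combL_LL (32 * w) _ hint (by ring) ts]
  · rfl
  · intro i j
    have h1 : |2 * X i j - (X * U * X) i j / q ^ 8| ≤ 2 * q ^ 5 + q ^ 16 := by
      have h2 : |(X * U * X) i j / q ^ 8| ≤ q ^ 16 := by
        rw [abs_div, abs_of_pos (by positivity : (0 : ℝ) < q ^ 8)]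
        exact (div_le_self (abs_nonneg _) (one_le_pow₀ hq1)).trans (e2 i j)
      have h3 : |2 * X i j| ≤ 2 * q ^ 5 := by
        rw [abs_mul, abs_of_pos (by norm_num : (0 : ℝ) < 2)]
        exact mul_le_mul_of_nonneg_left (hXb i j) (by norm_num)
      exact (abs_sub _ _).trans (add_le_add h3 h2)
    refine h1.trans_lt (lt_of_lt_of_le ?_ hH)
    have h4 : 2 * q ^ 5 ≤ q ^ 6 := by
      rw [pow_succ q 5]; nlinarith [pow_nonneg (by linarith : (0:ℝ) ≤ q) 5]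
    have h5 : q ^ 6 ≤ q ^ 16 := pow_le_pow_right₀ hq1 (by norm_num)
    have h6 : 2 * q ^ 16 ≤ q ^ 17 := by
      rw [pow_succ q 16]; nlinarith [pow_nonneg (by linarith : (0:ℝ) ≤ q) 16]
    have h7 : q ^ 17 < q ^ 20 := pow_lt_pow_right₀ (by linarith) (by norm_num)
    linarith

theorem iterL_eq (c : Par) (Q2 : ℝ) (U : List (List ℝ)) (W1 : List ℝ) (X0 : List (List ℝ)) :
    iterL c Q2 U W1 X0 = (newt c Q2 U)^[W1.length] X0 := by
  induction W1 generalizing X0 with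
  | nil => rfl
  | cons a W ih =>
    have : iterL c Q2 U (a :: W) X0 = iterL c Q2 U W (newt c Q2 U X0) := rfl
    rw [this, ih, List.length_cons, Function.iterate_succ_apply]

/-- the analysis of the Newton iteration -/
theorem newton_good (w : ℕ) (hw : 1 ≤ w) (ts : List ℝ) (hts : ts.length = n)
    (U : Matrix (Fin n) (Fin n) ℝ) (hU : IntM U)
    (hnq : (n : ℝ) ≤ 2 ^ w) (hUb : ∀ i j, |U i j| ≤ (2 ^ w) ^ 4)
    (μ : ℝ) (hμ0 : 0 < μ) (hμ1 : μ ≤ 1) (hμq : 3 / μ ≤ 2 ^ w)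
    (hA1 : OB ((1 / (2 ^ w) ^ 4 : ℝ) • U) 1) (hA2 : OB (((1 / (2 ^ w) ^ 4 : ℝ) • U)ᵀ) 1)
    (hl : ∀ v, μ * nn v ≤ nn (((1 / (2 ^ w) ^ 4 : ℝ) • U) *ᵥ v)) :
    ∀ k ≤ w, (newt (prm w ts) ((2 ^ w) ^ 8) (LL U))^[k] (LL Uᵀ) =
        LL ((nxt U ((2 ^ w) ^ 8))^[k] Uᵀ) ∧ IntM ((nxt U ((2 ^ w) ^ 8))^[k] Uᵀ) ∧
      (∀ i j, |((nxt U ((2 ^ w) ^ 8))^[k] Uᵀ) i j| ≤ (2 ^ w) ^ 5) ∧
      OB (1 - ((1 / (2 ^ w) ^ 4 : ℝ) • ((nxt U ((2 ^ w) ^ 8))^[k] Uᵀ)) *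
        ((1 / (2 ^ w) ^ 4 : ℝ) • U)) ((1 - μ ^ 2 / 2) ^ (2 ^ k) + 4 ^ k * (n / (2 ^ w) ^ 4)) := by
  set q : ℝ := 2 ^ w with hq
  have hq1 : 1 ≤ q := one_le_pow₀ (by norm_num)
  have hq0 : 0 < q := by linarith
  have hn0 : (0 : ℝ) ≤ n := Nat.cast_nonneg n
  set Ah : Matrix (Fin n) (Fin n) ℝ := (1 / q ^ 4 : ℝ) • U with hAh
  have hr0 : 0 ≤ 1 - μ ^ 2 / 2 := by nlinarith
  have hr1 : 1 - μ ^ 2 / 2 ≤ 1 := by nlinarith [sq_nonneg μ]
  have hη : (n : ℝ) / q ^ 4 ≤ 1 / q ^ 3 := by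
    rw [div_le_div_iff₀ (by positivity) (by positivity)]
    calc (n : ℝ) * q ^ 3 ≤ q * q ^ 3 := mul_le_mul_of_nonneg_right hnq (by positivity)
      _ = _ := by ring
  have hηk : ∀ k ≤ w, (4 : ℝ) ^ k * (n / q ^ 4) ≤ 1 := fun k hk => by
    have h1 : (4 : ℝ) ^ k ≤ q ^ 2 := by
      rw [hq, ← pow_mul, show (4 : ℝ) = 2 ^ 2 by norm_num, ← pow_mul]
      exact pow_le_pow_right₀ (by norm_num) (by omega)
    calc (4 : ℝ) ^ k * (n / q ^ 4) ≤ q ^ 2 * (1 / q ^ 3) :=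
          mul_le_mul h1 hη (by positivity) (by positivity)
      _ = 1 / q := by field_simp
      _ ≤ 1 := by rw [div_le_one hq0]; exact hq1
  have hρ : ∀ k ≤ w, (1 - μ ^ 2 / 2) ^ (2 ^ k) + 4 ^ k * (n / q ^ 4) ≤ 2 := fun k hk => by
    have := pow_le_one₀ (n := 2 ^ k) hr0 hr1
    linarith [hηk k hk]
  -- entries from the residual
  have hent : ∀ X : Matrix (Fin n) (Fin n) ℝ, OB (1 - ((1 / q ^ 4 : ℝ) • X) * Ah) 2 →
      ∀ i j, |X i j| ≤ q ^ 5 := fun X hX i j => by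
    have h1 := (OB_inv _ _ μ hμ0 hl hX).entry i j
    rw [Matrix.smul_apply, smul_eq_mul, abs_mul, abs_of_pos (by positivity)] at h1
    have h2 : |X i j| ≤ 3 / μ * q ^ 4 := by
      have h3 : |X i j| = (1 / q ^ 4 * |X i j|) * q ^ 4 := by field_simp
      rw [h3]
      exact mul_le_mul_of_nonneg_right h1 (by positivity)
    calc |X i j| ≤ 3 / μ * q ^ 4 := h2
      _ ≤ q * q ^ 4 := mul_le_mul_of_nonneg_right hμq (by positivity)
      _ = _ := by ring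
  intro k
  induction k with
  | zero =>
    intro _
    have hres : OB (1 - ((1 / q ^ 4 : ℝ) • Uᵀ) * Ah)
        ((1 - μ ^ 2 / 2) ^ (2 ^ 0) + 4 ^ 0 * (n / q ^ 4)) := by
      have h1 := OB_first Ah μ hμ0.le hμ1 hA2 hl
      have h2 : (1 / q ^ 4 : ℝ) • Uᵀ = Ahᵀ := by rw [hAh, transpose_smul]
      rw [h2]
      refine h1.mono ?_
      simp only [pow_zero, pow_one, one_mul]
      have : 0 ≤ (n : ℝ) / q ^ 4 := by positivity
      linarith
    refine ⟨rfl, fun i j => hU j i, ?_, hres⟩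
    exact hent _ (hres.mono (hρ 0 (by omega)))
  | succ k ih =>
    intro hk
    obtain ⟨h1, h2, h3, h4⟩ := ih (by omega)
    rw [Function.iterate_succ_apply', Function.iterate_succ_apply', h1]
    set X := (nxt U (q ^ 8))^[k] Uᵀ with hX
    have hstep := newt_LL w hw ts hts U X hU h2 hnq hUb h3
    rw [← hq] at hstep
    -- the residual
    let E : Matrix (Fin n) (Fin n) ℝ := fun i j =>
      (2 * X i j - (X * U * X) i j / q ^ 8 - (⌊2 * X i j - (X * U * X) i j / q ^ 8⌋ : ℝ)) / q ^ 4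
    have hE : OB E (n * (1 / q ^ 4)) := by
      refine OB_entry E _ (by positivity) fun i j => ?_
      show |(_ : ℝ) / q ^ 4| ≤ _
      rw [abs_div, abs_of_pos (by positivity : (0 : ℝ) < q ^ 4)]
      refine div_le_div_of_nonneg_right ?_ (by positivity)
      rw [abs_le]
      constructor
      · linarith [Int.floor_le (2 * X i j - (X * U * X) i j / q ^ 8)]
      · linarith [Int.lt_floor_add_one (2 * X i j - (X * U * X) i j / q ^ 8)]
    have hXn : (1 / q ^ 4 : ℝ) • nxt U (q ^ 8) X =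
        2 • ((1 / q ^ 4 : ℝ) • X) - ((1 / q ^ 4 : ℝ) • X) * Ah * ((1 / q ^ 4 : ℝ) • X) - E := by
      have h5 : ((1 / q ^ 4 : ℝ) • X) * Ah * ((1 / q ^ 4 : ℝ) • X) =
          (1 / q ^ 12 : ℝ) • (X * U * X) := by
        rw [hAh]
        simp only [smul_mul_assoc, mul_smul_comm, smul_smul]
        congr 1
        field_simp
      rw [h5]
      ext i j
      show 1 / q ^ 4 * (⌊2 * X i j - (X * U * X) i j / q ^ 8⌋ : ℝ) =
        (2 : ℕ) • (1 / q ^ 4 * X i j) - 1 / q ^ 12 * (X * U * X) i j -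
        (2 * X i j - (X * U * X) i j / q ^ 8 - (⌊2 * X i j - (X * U * X) i j / q ^ 8⌋ : ℝ)) / q ^ 4
      generalize (⌊2 * X i j - (X * U * X) i j / q ^ 8⌋ : ℝ) = F
      generalize (X * U * X) i j = G
      rw [nsmul_eq_mul]
      push_cast
      field_simp
      ring
    have hres : OB (1 - ((1 / q ^ 4 : ℝ) • nxt U (q ^ 8) X) * Ah)
        ((1 - μ ^ 2 / 2) ^ (2 ^ (k + 1)) + 4 ^ (k + 1) * (n / q ^ 4)) := by
      rw [hXn, newton_res]
      have h6 := (h4.mul h4 (by positivity)).add (hE.mul hA1 (by positivity))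
      refine h6.mono ?_
      have ha0 : 0 ≤ (1 - μ ^ 2 / 2) ^ (2 ^ k) := by positivity
      have ha1 : (1 - μ ^ 2 / 2) ^ (2 ^ k) ≤ 1 := pow_le_one₀ hr0 hr1
      have he0 : 0 ≤ (4 : ℝ) ^ k * (n / q ^ 4) := by positivity
      have he1 := hηk k (by omega)
      have he2 : (n : ℝ) * (1 / q ^ 4) ≤ 4 ^ k * (n / q ^ 4) := by
        rw [show (n : ℝ) * (1 / q ^ 4) = 1 * (n / q ^ 4) by ring]
        exact mul_le_mul_of_nonneg_right (one_le_pow₀ (by norm_num)) (by positivity)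
      have h7 : (1 - μ ^ 2 / 2) ^ (2 ^ (k + 1)) =
          (1 - μ ^ 2 / 2) ^ (2 ^ k) * (1 - μ ^ 2 / 2) ^ (2 ^ k) := by
        rw [← pow_add]; congr 1; ring
      rw [h7, pow_succ (4 : ℝ) k]
      nlinarith
    refine ⟨hstep, nxt_int _ _ _, ?_, hres⟩
    exact hent _ (hres.mono (hρ (k + 1) hk))

end Pool.Agent.N602.RR
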