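import Pool.Agent.N602.RR.Corr

/-! # Correctness of one attempt: the tests -/

set_option autoImplicit false

namespace Pool.Agent.N602.RR

open Matrix

variable {n : ℕ}

/-- the argument of an attempt with `q = 2 ^ w` -/
noncomputable def arg (w : ℕ) (A : Matrix (Fin n) (Fin n) ℝ) (b : Fin n → ℝ) (ε : ℝ)
    (t : Fin n → ℝ) : Inp × (ℝ × List ℝ) :=
  ((((LL A, List.ofFn b), ε), List.ofFn t), ((2 : ℝ) ^ w, wts w))

/-- sum of absolute values of the entries -/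
noncomputable def sabs (A : Matrix (Fin n) (Fin n) ℝ) : ℝ := ∑ i, ∑ j, |A i j|

theorem abs_le_sabs (A : Matrix (Fin n) (Fin n) ℝ) (i j : Fin n) : |A i j| ≤ sabs A := by
  unfold sabs
  calc |A i j| ≤ ∑ j, |A i j| :=
        Finset.single_le_sum (f := fun j => |A i j|) (fun _ _ => abs_nonneg _) (Finset.mem_univ j)
    _ ≤ _ := Finset.single_le_sum (f := fun i => ∑ j, |A i j|)
        (fun _ _ => Finset.sum_nonneg fun _ _ => abs_nonneg _) (Finset.mem_univ i)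

theorem sabs_nonneg (A : Matrix (Fin n) (Fin n) ℝ) : 0 ≤ sabs A :=
  Finset.sum_nonneg fun _ _ => Finset.sum_nonneg fun _ _ => abs_nonneg _

theorem sum_sq_le_sabs (A : Matrix (Fin n) (Fin n) ℝ) : ∑ i, ∑ j, A i j ^ 2 ≤ sabs A ^ 2 := by
  calc ∑ i, ∑ j, A i j ^ 2 ≤ ∑ i, ∑ j, |A i j| * sabs A := by
        refine Finset.sum_le_sum fun i _ => Finset.sum_le_sum fun j _ => ?_
        rw [← sq_abs, sq]
        exact mul_le_mul_of_nonneg_left (abs_le_sabs A i j) (abs_nonneg _)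
    _ = _ := by
        simp only [← Finset.sum_mul]
        rw [← sabs]; ring

theorem parL_arg (w : ℕ) (A : Matrix (Fin n) (Fin n) ℝ) (b : Fin n → ℝ) (ε : ℝ)
    (t : Fin n → ℝ) : parL (arg w A b ε t) = prm w (List.ofFn t) := by
  unfold parL arg prm
  simp only [dbl5_wts]

theorem scQ_arg (w : ℕ) (A : Matrix (Fin n) (Fin n) ℝ) (b : Fin n → ℝ) (ε : ℝ)
    (t : Fin n → ℝ) : scQ (arg w A b ε t) = (2 ^ w) ^ 4 := by
  unfold scQ arg; ring

theorem scS_arg (w : ℕ) (A : Matrix (Fin n) (Fin n) ℝ) (b : Fin n → ℝ) (ε : ℝ)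
    (t : Fin n → ℝ) : scS (arg w A b ε t) = 2 * sabs A := by
  unfold scS arg
  simp only [absM_LL]
  rfl

/-- the rounded scaled matrix -/
noncomputable def Um (w : ℕ) (A : Matrix (Fin n) (Fin n) ℝ) : Matrix (Fin n) (Fin n) ℝ :=
  fun i j => (⌊A i j / (2 * sabs A) * (2 ^ w) ^ 4⌋ : ℝ)

theorem Um_int (w : ℕ) (A : Matrix (Fin n) (Fin n) ℝ) : IntM (Um w A) := fun _ _ => ⟨_, rfl⟩

theorem matU_arg (w : ℕ) (hw : 1 ≤ w) (A : Matrix (Fin n) (Fin n) ℝ) (hA : 0 < sabs A)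
    (b : Fin n → ℝ) (ε : ℝ) (t : Fin n → ℝ) : matU (arg w A b ε t) = LL (Um w A) := by
  unfold matU
  rw [parL_arg, scQ_arg, scS_arg]
  unfold prm
  refine roundL_LL (32 * w) _ _ _ _ _ ⟨(2 ^ w) ^ 4, by push_cast; rfl⟩ (by linarith) (by positivity)
    ?_ A fun i j => ?_
  · calc 2 * ((2 : ℝ) ^ w) ^ 4 = 2 ^ (4 * w + 1) := by rw [← pow_mul]; ring
      _ < _ := pow_lt_pow_right₀ (by norm_num) (by omega)
  · linarith [abs_le_sabs A i j]

theorem Um_close (w : ℕ) (A : Matrix (Fin n) (Fin n) ℝ) (i j : Fin n) :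
    |((1 / (2 ^ w) ^ 4 : ℝ) • Um w A - (1 / (2 * sabs A)) • A) i j| ≤ 1 / (2 ^ w) ^ 4 := by
  have h : ((1 / (2 ^ w) ^ 4 : ℝ) • Um w A - (1 / (2 * sabs A)) • A) i j =
      -((A i j / (2 * sabs A) * (2 ^ w) ^ 4 - (⌊A i j / (2 * sabs A) * (2 ^ w) ^ 4⌋ : ℝ)) /
        (2 ^ w) ^ 4) := by
    rw [Matrix.sub_apply, Matrix.smul_apply, Matrix.smul_apply]
    simp only [Um, smul_eq_mul]
    field_simp
    ring
  rw [h, abs_neg, abs_div, abs_of_pos (by positivity : (0 : ℝ) < (2 ^ w) ^ 4)]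
  refine div_le_div_of_nonneg_right ?_ (by positivity)
  rw [abs_le]
  constructor
  · linarith [Int.floor_le (A i j / (2 * sabs A) * (2 ^ w) ^ 4)]
  · linarith [Int.lt_floor_add_one (A i j / (2 * sabs A) * (2 ^ w) ^ 4)]

theorem Um_bound (w : ℕ) (hw : 1 ≤ w) (A : Matrix (Fin n) (Fin n) ℝ) (hA : 0 < sabs A)
    (i j : Fin n) : |Um w A i j| ≤ (2 ^ w) ^ 4 := by
  have hQ : (2 : ℝ) ≤ (2 ^ w) ^ 4 := by
    rw [← pow_mul]
    calc (2 : ℝ) = 2 ^ 1 := by norm_num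
      _ ≤ _ := pow_le_pow_right₀ (by norm_num) (by omega)
  have h1 : |A i j / (2 * sabs A)| ≤ 1 / 2 := by
    rw [abs_div, abs_of_pos (by linarith : 0 < 2 * sabs A), div_le_div_iff₀ (by linarith) (by norm_num)]
    linarith [abs_le_sabs A i j]
  have h2 := abs_le.mp h1
  have h3 := Int.floor_le (A i j / (2 * sabs A) * (2 ^ w) ^ 4)
  have h4 := Int.lt_floor_add_one (A i j / (2 * sabs A) * (2 ^ w) ^ 4)
  unfold Um
  rw [abs_le]
  constructor <;> nlinarith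

theorem hat_bounds (w : ℕ) (A : Matrix (Fin n) (Fin n) ℝ) (hA : 0 < sabs A)
    (hnq : (n : ℝ) * (1 / (2 ^ w) ^ 4) ≤ 1 / 2) :
    OB ((1 / (2 ^ w) ^ 4 : ℝ) • Um w A) 1 ∧ OB (((1 / (2 ^ w) ^ 4 : ℝ) • Um w A)ᵀ) 1 := by
  have key : ∀ M N : Matrix (Fin n) (Fin n) ℝ, ∑ i, ∑ j, M i j ^ 2 ≤ (1 / 2) ^ 2 →
      (∀ i j, |(N - M) i j| ≤ 1 / (2 ^ w) ^ 4) → OB N 1 := fun M N h1 h2 => by
    have h3 := (OB_frob M (1 / 2) (by norm_num) h1).add (OB_entry (N - M) _ (by positivity) h2)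
    rw [add_sub_cancel] at h3
    exact h3.mono (by linarith)
  have hs : ∑ i, ∑ j, ((1 / (2 * sabs A)) • A) i j ^ 2 ≤ (1 / 2) ^ 2 := by
    have h1 : ∑ i, ∑ j, ((1 / (2 * sabs A)) • A) i j ^ 2 =
        (1 / (2 * sabs A)) ^ 2 * ∑ i, ∑ j, A i j ^ 2 := by
      rw [Finset.mul_sum]
      refine Finset.sum_congr rfl fun i _ => ?_
      rw [Finset.mul_sum]
      refine Finset.sum_congr rfl fun j _ => ?_
      rw [Matrix.smul_apply, smul_eq_mul, mul_pow]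
    rw [h1]
    calc (1 / (2 * sabs A)) ^ 2 * ∑ i, ∑ j, A i j ^ 2 ≤ (1 / (2 * sabs A)) ^ 2 * sabs A ^ 2 :=
          mul_le_mul_of_nonneg_left (sum_sq_le_sabs A) (sq_nonneg _)
      _ = _ := by field_simp
  refine ⟨key _ _ hs (Um_close w A), key ((1 / (2 * sabs A)) • A)ᵀ _ ?_ fun i j => ?_⟩
  · rw [Finset.sum_comm]
    exact hs
  · exact Um_close w A j i

theorem matX_arg (w : ℕ) (hw : 1 ≤ w) (A : Matrix (Fin n) (Fin n) ℝ) (hA : 0 < sabs A)
    (b : Fin n → ℝ) (ε : ℝ) (t : Fin n → ℝ) : matX (arg w A b ε t) =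
      (newt (prm w (List.ofFn t)) ((2 ^ w) ^ 8) (LL (Um w A)))^[w] (LL (Um w A)ᵀ) := by
  unfold matX
  rw [parL_arg, scQ_arg, matU_arg w hw A hA, iterL_eq]
  have h1 : (arg w A b ε t).2.2.length = w := by simp [arg]
  have h2 : (arg w A b ε t).1.2 = List.ofFn t := rfl
  rw [h1, h2, transL_LL _ (by simp)]
  congr 2
  ring

theorem tol_arg (w : ℕ) (A : Matrix (Fin n) (Fin n) ℝ)
    (b : Fin n → ℝ) (ε : ℝ) (t : Fin n → ℝ) : tol (arg w A b ε t) = (ε / 2) ^ 2 * (2 ^ w) ^ 16 := by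
  unfold tol
  rw [scQ_arg]
  have h2 : (arg w A b ε t).1.1.2 = ε := rfl
  rw [h2]; ring

theorem tX_eq (w : ℕ) (A : Matrix (Fin n) (Fin n) ℝ) (b : Fin n → ℝ) (ε : ℝ) (t : Fin n → ℝ)
    (X : Matrix (Fin n) (Fin n) ℝ) (hX : matX (arg w A b ε t) = LL X) :
    tX (arg w A b ε t) = (∑ i, ∑ j, X i j ^ 2) * (n * n) := by
  unfold tX
  rw [hX, frobL_LL, cntL_eq]
  have h2 : (arg w A b ε t).1.2 = List.ofFn t := rfl
  rw [h2]
  simp

theorem tE_eq (w : ℕ) (hw : 1 ≤ w) (A : Matrix (Fin n) (Fin n) ℝ) (hA : 0 < sabs A)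
    (b : Fin n → ℝ) (ε : ℝ) (t : Fin n → ℝ) (ht : Function.Injective t)
    (X : Matrix (Fin n) (Fin n) ℝ) (hX : matX (arg w A b ε t) = LL X) (hXi : IntM X)
    (hnq : (n : ℝ) ≤ 2 ^ w) (hXb : ∀ i j, |X i j| ≤ (2 ^ w) ^ 8) :
    tE (arg w A b ε t) = (2 ^ w) ^ 16 * ∑ i, ∑ j,
      (1 - ((1 / (2 ^ w) ^ 4 : ℝ) • X) * ((1 / (2 ^ w) ^ 4 : ℝ) • Um w A)) i j ^ 2 := by
  unfold tE
  rw [hX, matU_arg w hw A hA, scQ_arg, parL_arg]
  have h2 : (arg w A b ε t).1.2 = List.ofFn t := rfl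
  rw [h2]
  unfold prm
  have hb : ∀ i j, |(X * Um w A) i j| < 2 ^ (32 * w) / 2 := fun i j => by
    have h1 := mul_entry X (Um w A) ((2 ^ w) ^ 8) ((2 ^ w) ^ 4) (by positivity) hXb
      (Um_bound w hw A hA) i j
    refine h1.trans_lt ?_
    have h3 := q_pows w hw 20 (by norm_num)
    have h4 : (1 : ℝ) < 2 ^ w := one_lt_pow₀ (by norm_num) (by omega)
    calc (n : ℝ) * ((2 ^ w) ^ 8 * (2 ^ w) ^ 4) ≤ 2 ^ w * ((2 ^ w) ^ 8 * (2 ^ w) ^ 4) :=
          mul_le_mul_of_nonneg_right hnq (by positivity)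
      _ = (2 ^ w) ^ 13 := by ring
      _ < (2 ^ w) ^ 20 := pow_lt_pow_right₀ h4 (by norm_num)
      _ ≤ _ := h3
  rw [mulL_LL (32 * w) _ (pow_half w hw) (by ring) _ (by simp) X (Um w A) (hXi.mul (Um_int w A)) hb,
    subId_LL _ t ht]
  refine (frobL_LL _).trans ?_
  rw [Finset.mul_sum]
  refine Finset.sum_congr rfl fun i _ => ?_
  rw [Finset.mul_sum]
  refine Finset.sum_congr rfl fun j _ => ?_
  rw [Matrix.sub_apply, smul_mul_smul_comm, Matrix.smul_apply, smul_eq_mul]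
  field_simp
  ring

/-- the flag is `0` when `q` is large enough -/
theorem flg_good (w : ℕ) (hw : 1 ≤ w) (hn : 1 ≤ n) (A : Matrix (Fin n) (Fin n) ℝ)
    (hA : 0 < sabs A) (b : Fin n → ℝ) (ε : ℝ) (hε0 : 0 < ε) (hε1 : ε < 1)
    (t : Fin n → ℝ) (ht : Function.Injective t) (μ : ℝ) (hμ0 : 0 < μ) (hμ1 : μ ≤ 1)
    (hl : ∀ v, 2 * μ * (2 * sabs A) * nn v ≤ nn (A *ᵥ v))
    (hK : 6 * n / (μ ^ 2 * ε) ≤ 2 ^ w) : flg (arg w A b ε t) = 0 := by
  set q : ℝ := 2 ^ w with hq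
  have hq1 : 1 ≤ q := one_le_pow₀ (by norm_num)
  have hq0 : 0 < q := by linarith
  have hn1 : (1 : ℝ) ≤ n := by exact_mod_cast hn
  have hμε : μ ^ 2 * ε ≤ 1 := by nlinarith [sq_nonneg μ, pow_le_one₀ (n := 2) hμ0.le hμ1]
  have hμε0 : 0 < μ ^ 2 * ε := by positivity
  have hK' : 6 * n ≤ q * (μ ^ 2 * ε) := by rwa [div_le_iff₀ hμε0] at hK
  have hnq6 : 6 * (n : ℝ) ≤ q := by nlinarith
  have hnq : (n : ℝ) ≤ q := by linarith
  have hμ2 : μ ^ 2 ≤ μ := by nlinarith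
  have hμq : 3 / μ ≤ q := by
    rw [div_le_iff₀ hμ0]
    have h1 : μ ^ 2 * ε ≤ μ := by nlinarith
    nlinarith
  have hnq4 : (n : ℝ) * (1 / q ^ 4) ≤ μ := by
    rw [mul_one_div, div_le_iff₀ (by positivity)]
    have h1 : q * μ ≥ 3 := by rw [div_le_iff₀ hμ0] at hμq; linarith
    have h2 : μ * q ^ 4 = (q * μ) * q ^ 3 := by ring
    rw [h2]
    have h3 : q ≤ q ^ 3 := le_self_pow₀ hq1 (by norm_num)
    nlinarith
  have hnq4' : (n : ℝ) * (1 / q ^ 4) ≤ 1 / 2 := by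
    rw [mul_one_div, div_le_div_iff₀ (by positivity) (by norm_num)]
    have h3 : q ≤ q ^ 4 := le_self_pow₀ hq1 (by norm_num)
    linarith
  obtain ⟨hA1, hA2⟩ := hat_bounds w A hA hnq4'
  have hlow : ∀ v, μ * nn v ≤ nn (((1 / q ^ 4 : ℝ) • Um w A) *ᵥ v) := fun v => by
    have h1 := hl v
    have h2 : nn (((1 / (2 * sabs A)) • A) *ᵥ v) = 1 / (2 * sabs A) * nn (A *ᵥ v) := by
      rw [smul_mulVec, nn_smul, abs_of_pos (by positivity)]
    have h3 : 2 * μ * nn v ≤ nn (((1 / (2 * sabs A)) • A) *ᵥ v) := by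
      rw [h2]
      calc 2 * μ * nn v = 1 / (2 * sabs A) * (2 * μ * (2 * sabs A) * nn v) := by
            field_simp
        _ ≤ _ := mul_le_mul_of_nonneg_left h1 (by positivity)
    have h4 := OB_entry _ _ (by positivity) (Um_close w A) v
    rw [sub_mulVec] at h4
    have h5 := nn_sub (((1 / q ^ 4 : ℝ) • Um w A) *ᵥ v)
      (((1 / q ^ 4 : ℝ) • Um w A) *ᵥ v - ((1 / (2 * sabs A)) • A) *ᵥ v)
    rw [sub_sub_cancel] at h5
    have h6 : (n : ℝ) * (1 / q ^ 4) * nn v ≤ μ * nn v :=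
      mul_le_mul_of_nonneg_right hnq4 (nn_nonneg v)
    linarith
  obtain ⟨g1, g2, g3, g4⟩ := newton_good w hw (List.ofFn t) (by simp) (Um w A) (Um_int w A) hnq
    (Um_bound w hw A hA) μ hμ0 hμ1 hμq hA1 hA2 hlow w le_rfl
  set X := (nxt (Um w A) (q ^ 8))^[w] (Um w A)ᵀ with hXdef
  have hmX : matX (arg w A b ε t) = LL X := by rw [matX_arg w hw A hA]; exact g1
  have hXb8 : ∀ i j, |X i j| ≤ q ^ 8 := fun i j =>
    (g3 i j).trans (pow_le_pow_right₀ hq1 (by norm_num))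
  have hεq : 1 ≤ ε / 2 * q := by nlinarith
  -- first test
  have t1 : ¬ 0 < cntL (arg w A b ε t).1.2 - (arg w A b ε t).2.1 := by
    rw [cntL_eq]
    have h1 : ((arg w A b ε t).1.2).length = n := by simp [arg]
    have h2 : (arg w A b ε t).2.1 = q := rfl
    rw [h1, h2]
    linarith
  -- second test
  have t2 : ¬ 0 < tX (arg w A b ε t) - tol (arg w A b ε t) := by
    rw [tX_eq w A b ε t X hmX, tol_arg, not_lt, sub_nonpos]
    have h1 : ∑ i, ∑ j, X i j ^ 2 ≤ ∑ _i : Fin n, ∑ _j : Fin n, (q ^ 5) ^ 2 :=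
      Finset.sum_le_sum fun i _ => Finset.sum_le_sum fun j _ => by
        rw [← sq_abs]
        exact pow_le_pow_left₀ (abs_nonneg _) (g3 i j) 2
    have h2 : ∑ _i : Fin n, ∑ _j : Fin n, (q ^ 5) ^ 2 = n * n * q ^ 10 := by simp; ring
    rw [h2] at h1
    have hnn : (n : ℝ) * n ≤ q * q := mul_le_mul hnq hnq (by positivity) (by positivity)
    calc (∑ i, ∑ j, X i j ^ 2) * (n * n) ≤ (n * n * q ^ 10) * (n * n) :=
          mul_le_mul_of_nonneg_right h1 (by positivity)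
      _ = (n * n) * (n * n) * q ^ 10 := by ring
      _ ≤ (q * q) * (q * q) * q ^ 10 := by
          refine mul_le_mul_of_nonneg_right ?_ (by positivity)
          exact mul_le_mul hnn hnn (by positivity) (by positivity)
      _ = 1 * q ^ 14 := by ring
      _ ≤ (ε / 2 * q) ^ 2 * q ^ 14 := by
          refine mul_le_mul_of_nonneg_right ?_ (by positivity)
          exact one_le_pow₀ hεq
      _ = _ := by ring
  -- third test
  have t3 : ¬ 0 < tE (arg w A b ε t) - tol (arg w A b ε t) := by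
    rw [tE_eq w hw A hA b ε t ht X hmX g2 hnq hXb8, tol_arg, not_lt, sub_nonpos, mul_comm]
    refine mul_le_mul_of_nonneg_right ?_ (by positivity)
    set ρ : ℝ := (1 - μ ^ 2 / 2) ^ (2 ^ w) + 4 ^ w * (n / q ^ 4) with hρ
    have hr0 : 0 ≤ 1 - μ ^ 2 / 2 := by nlinarith
    have hρ0 : 0 ≤ ρ := by positivity
    have h1 : ∑ i, ∑ j, (1 - ((1 / q ^ 4 : ℝ) • X) * ((1 / q ^ 4 : ℝ) • Um w A)) i j ^ 2 ≤
        ∑ _i : Fin n, ∑ _j : Fin n, ρ ^ 2 :=
      Finset.sum_le_sum fun i _ => Finset.sum_le_sum fun j _ => by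
        rw [← sq_abs]
        exact pow_le_pow_left₀ (abs_nonneg _) (g4.entry i j) 2
    have h2 : ∑ _i : Fin n, ∑ _j : Fin n, ρ ^ 2 = (n * ρ) ^ 2 := by simp; ring
    rw [h2] at h1
    refine h1.trans (pow_le_pow_left₀ (by positivity) ?_ 2)
    -- n ρ ≤ ε / 2
    have h3 : (1 - μ ^ 2 / 2) ^ (2 ^ w) ≤ 2 / (q * μ ^ 2) := by
      have h4 := pow_bound (x := μ ^ 2 / 2) (by positivity) (by nlinarith) (2 ^ w) (by positivity)
      have h5 : (((2 ^ w : ℕ) : ℝ)) = q := by rw [hq]; push_cast; rfl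
      rw [h5] at h4
      refine h4.trans (le_of_eq ?_)
      field_simp
    have h4 : (4 : ℝ) ^ w * (n / q ^ 4) ≤ 1 / q := by
      have h5 : (4 : ℝ) ^ w = q ^ 2 := by
        rw [hq, ← pow_mul, show (4 : ℝ) = 2 ^ 2 by norm_num, ← pow_mul]
        congr 1; ring
      rw [h5]
      calc q ^ 2 * (n / q ^ 4) ≤ q ^ 2 * (q / q ^ 4) := by
            refine mul_le_mul_of_nonneg_left ?_ (by positivity)
            exact div_le_div_of_nonneg_right hnq (by positivity)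
        _ = _ := by field_simp
    have h5 : 1 / q ≤ 1 / (q * μ ^ 2) := by
      refine one_div_le_one_div_of_le (by positivity) ?_
      nlinarith
    have h6 : ρ ≤ 3 / (q * μ ^ 2) := by
      have : 3 / (q * μ ^ 2) = 2 / (q * μ ^ 2) + 1 / (q * μ ^ 2) := by ring
      rw [hρ, this]
      linarith
    calc n * ρ ≤ n * (3 / (q * μ ^ 2)) := mul_le_mul_of_nonneg_left h6 (by positivity)
      _ = 3 * n / (q * μ ^ 2) := by ring
      _ ≤ ε / 2 := by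
          rw [div_le_iff₀ (by positivity)]
          nlinarith
  unfold flg
  rw [if_neg t1, if_neg t2, if_neg t3]

end Pool.Agent.N602.RR
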