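import Pool.Agent.N602.RR.Corr2

/-! # Soundness of the tests -/

set_option autoImplicit false

namespace Pool.Agent.N602.RR

open Matrix

variable {n : ℕ}

/-- all entries are integers -/
def IntL (M : List (List ℝ)) : Prop := ∀ r ∈ M, ∀ a ∈ r, ∃ z : ℤ, a = z

theorem IntL_newt (w : ℕ) (hw : 1 ≤ w) (ts : List ℝ) (Q2 : ℝ) (U X : List (List ℝ)) :
    IntL (newt (prm w ts) Q2 U X) := by
  intro r hr a ha
  unfold newt combL at hr
  simp only [List.mem_map] at hr
  obtain ⟨p, _, rfl⟩ := hr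
  simp only [List.mem_map] at ha
  obtain ⟨u, _, rfl⟩ := ha
  obtain ⟨z, hz⟩ := pow_half w hw
  obtain ⟨y, hy⟩ := fl_int (32 * w) (2 * u.1 - u.2 / Q2 + (prm w ts).1.2)
  refine ⟨y - z, ?_⟩
  have h1 : (prm w ts).2.1 = wts (32 * w) := rfl
  have h2 : (prm w ts).1.2 = 2 ^ (32 * w) / 2 := rfl
  rw [h1, hy, h2, hz]
  push_cast
  ring

theorem exists_LL (M : List (List ℝ)) (hM : Sq n M) (hI : IntL M) :
    ∃ X : Matrix (Fin n) (Fin n) ℝ, M = LL X ∧ IntM X := by
  obtain ⟨h1, h2⟩ := hM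
  subst h1
  have h3 : ∀ i j : Fin M.length, (j : ℕ) < (M[(i : ℕ)]'i.2).length := fun i j => by
    rw [h2 _ (List.getElem_mem i.2)]; exact j.2
  refine ⟨fun i j => (M[(i : ℕ)]'i.2)[(j : ℕ)]'(h3 i j), ?_, ?_⟩
  · unfold LL
    apply List.ext_getElem
    · simp
    · intro i hi1 hi2
      rw [List.getElem_ofFn]
      apply List.ext_getElem
      · simp [h2 _ (List.getElem_mem hi1)]
      · intro j hj1 hj2
        simp
  · intro i j
    exact hI _ (List.getElem_mem _) _ (List.getElem_mem _)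

theorem WF_arg (w : ℕ) (A : Matrix (Fin n) (Fin n) ℝ) (b : Fin n → ℝ) (ε : ℝ) (t : Fin n → ℝ) :
    WF2 (arg w A b ε t) := by
  show Sq (List.ofFn t).length (LL A)
  simpa using Sq_LL A

/-- soundness -/
theorem sound (w : ℕ) (hw : 1 ≤ w) (hn : 1 ≤ n) (A : Matrix (Fin n) (Fin n) ℝ)
    (hA : 0 < sabs A) (b : Fin n → ℝ) (ε : ℝ) (hε0 : 0 < ε) (hε1 : ε < 1)
    (t : Fin n → ℝ) (ht : Function.Injective t) (hf : flg (arg w A b ε t) = 0)
    (xs : Fin n → ℝ) (hxs : A *ᵥ xs = b) :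
    ∃ out : Fin n → ℝ, outL (arg w A b ε t) = List.ofFn out ∧ nn (out - xs) ≤ ε * nn xs := by
  set q : ℝ := 2 ^ w with hq
  have hq1 : 1 ≤ q := one_le_pow₀ (by norm_num)
  have hq0 : 0 < q := by linarith
  have hn1 : (1 : ℝ) ≤ n := by exact_mod_cast hn
  -- the tests
  have T1 : ¬ 0 < cntL (arg w A b ε t).1.2 - (arg w A b ε t).2.1 := by
    intro h
    unfold flg at hf
    rw [if_pos h] at hf
    norm_num at hf
  have T2 : ¬ 0 < tX (arg w A b ε t) - tol (arg w A b ε t) := by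
    intro h
    unfold flg at hf
    rw [if_neg T1, if_pos h] at hf
    norm_num at hf
  have T3 : ¬ 0 < tE (arg w A b ε t) - tol (arg w A b ε t) := by
    intro h
    unfold flg at hf
    rw [if_neg T1, if_neg T2, if_pos h] at hf
    norm_num at hf
  have hnq : (n : ℝ) ≤ q := by
    rw [cntL_eq] at T1
    have h1 : ((arg w A b ε t).1.2).length = n := by simp [arg]
    have h2 : (arg w A b ε t).2.1 = q := rfl
    rw [h1, h2] at T1
    linarith
  -- the matrix
  obtain ⟨X, hX, hXi⟩ : ∃ X : Matrix (Fin n) (Fin n) ℝ, matX (arg w A b ε t) = LL X ∧ IntM X := by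
    refine exists_LL _ ?_ ?_
    · have := Sq_matX (WF_arg w A b ε t)
      simpa [arg] using this
    · rw [matX_arg w hw A hA]
      obtain ⟨w', rfl⟩ : ∃ w', w = w' + 1 := ⟨w - 1, by omega⟩
      rw [Function.iterate_succ_apply']
      exact IntL_newt _ hw _ _ _ _
  rw [tX_eq w A b ε t X hX, tol_arg, ← hq, not_lt, sub_nonpos] at T2
  set S : ℝ := ∑ i, ∑ j, X i j ^ 2 with hS
  have hS0 : 0 ≤ S := Finset.sum_nonneg fun _ _ => Finset.sum_nonneg fun _ _ => sq_nonneg _
  have hXb : ∀ i j, |X i j| ≤ q ^ 8 := fun i j => by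
    have h1 : X i j ^ 2 ≤ S := by
      calc X i j ^ 2 ≤ ∑ j, X i j ^ 2 :=
            Finset.single_le_sum (f := fun j => X i j ^ 2) (fun _ _ => sq_nonneg _)
              (Finset.mem_univ j)
        _ ≤ _ := Finset.single_le_sum (f := fun i => ∑ j, X i j ^ 2)
            (fun _ _ => Finset.sum_nonneg fun _ _ => sq_nonneg _) (Finset.mem_univ i)
    have h2 : S ≤ (q ^ 8) ^ 2 := by
      have h3 : S ≤ S * (n * n) := by
        have h5 : (1 : ℝ) ≤ n * n := by nlinarith
        nlinarith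
      have h4 : (ε / 2) ^ 2 * q ^ 16 ≤ 1 * q ^ 16 := by
        refine mul_le_mul_of_nonneg_right ?_ (by positivity)
        nlinarith
      calc S ≤ S * (n * n) := h3
        _ ≤ (ε / 2) ^ 2 * q ^ 16 := T2
        _ ≤ 1 * q ^ 16 := h4
        _ = _ := by ring
    exact abs_le_of_sq_le_sq (h1.trans h2) (by positivity)
  rw [tE_eq w hw A hA b ε t ht X hX hXi hnq hXb, tol_arg, ← hq, not_lt, sub_nonpos,
    mul_comm] at T3
  have T3' := le_of_mul_le_mul_right T3 (by positivity : (0 : ℝ) < q ^ 16)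
  -- the operator bounds
  set Xh : Matrix (Fin n) (Fin n) ℝ := (1 / q ^ 4 : ℝ) • X with hXh
  set Ah : Matrix (Fin n) (Fin n) ℝ := (1 / q ^ 4 : ℝ) • Um w A with hAh
  set A' : Matrix (Fin n) (Fin n) ℝ := (1 / (2 * sabs A)) • A with hA'
  have B1 : OB (1 - Xh * Ah) (ε / 2) := OB_frob _ _ (by positivity) T3'
  have B2 : OB Xh (ε / 2 * q ^ 4 / n) := by
    refine OB_frob _ _ (by positivity) ?_
    have h1 : ∑ i, ∑ j, Xh i j ^ 2 = S / q ^ 8 := by
      rw [hS, Finset.sum_div]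
      refine Finset.sum_congr rfl fun i _ => ?_
      rw [Finset.sum_div]
      refine Finset.sum_congr rfl fun j _ => ?_
      rw [hXh, Matrix.smul_apply, smul_eq_mul]
      field_simp
    rw [h1, div_pow, div_le_div_iff₀ (by positivity) (by positivity)]
    calc S * (n : ℝ) ^ 2 = S * (n * n) := by ring
      _ ≤ _ := T2
      _ = _ := by ring
  have B3 : OB (Ah - A') (n * (1 / q ^ 4)) := OB_entry _ _ (by positivity) (Um_close w A)
  have B4 : OB (1 - Xh * A') ε := by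
    have h1 := B1.add (B2.mul B3 (by positivity))
    have h2 : 1 - Xh * Ah + Xh * (Ah - A') = 1 - Xh * A' := by noncomm_ring
    rw [h2] at h1
    refine h1.mono (le_of_eq ?_)
    field_simp
    ring
  -- the output
  refine ⟨Xh *ᵥ (A' *ᵥ xs), ?_, ?_⟩
  · unfold outL
    rw [hX, scQ_arg, scS_arg, ← hq]
    have h2 : (arg w A b ε t).1.1.1.2 = List.ofFn b := rfl
    rw [h2]
    unfold LL
    rw [List.map_ofFn]
    congr 1
    funext i
    simp only [Function.comp_def]
    rw [dotL_ofFn, hXh, hA', smul_mulVec, smul_mulVec, mulVec_smul, hxs]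
    simp only [Pi.smul_apply, smul_eq_mul, mulVec, dotProduct]
    field_simp
  · have h1 : Xh *ᵥ (A' *ᵥ xs) - xs = -((1 - Xh * A') *ᵥ xs) := by
      rw [sub_mulVec, one_mulVec, mulVec_mulVec]; simp
    rw [h1, nn_neg]
    exact B4 xs

end Pool.Agent.N602.RR
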