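import Mathlib

/-! # Two-valued random matrices: counting -/

set_option autoImplicit false

namespace Pool.Agent.N602.RR

open Finset

variable {n : ℕ}

/-- the value of a bit -/
def bv (u v : ℝ) (b : Bool) : ℝ := if b then u else v

/-- the linear form `∑ x_i r_i` -/
noncomputable def lf (u v : ℝ) (x : Fin n → ℝ) (r : Fin n → Bool) : ℝ := ∑ i, x i * bv u v (r i)

theorem bv_not (u v : ℝ) (b : Bool) : |bv u v (!b) - bv u v b| = |u - v| := by
  cases b
  · simp [bv]
  · simp [bv, abs_sub_comm]

/-- flipping a large coordinate -/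
theorem flip_count (u v : ℝ) (huv : 1 ≤ u - v) (x : Fin n → ℝ) (i0 : Fin n) (η c : ℝ)
    (h : 2 * η < |x i0|) :
    2 * (univ.filter fun r : Fin n → Bool => |lf u v x r - c| ≤ η).card ≤ 2 ^ n := by
  classical
  set S := univ.filter fun r : Fin n → Bool => |lf u v x r - c| ≤ η with hS
  have hflip : ∀ r : Fin n → Bool,
      lf u v x (Function.update r i0 (!r i0)) - lf u v x r =
        x i0 * (bv u v (!r i0) - bv u v (r i0)) := by
    intro r
    unfold lf
    rw [← Finset.sum_sub_distrib, Finset.sum_eq_single i0]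
    · simp; ring
    · intro b _ hb
      simp [hb]
    · simp
  have h1 : S.card ≤ Sᶜ.card := by
    refine Finset.card_le_card_of_injOn (fun r => Function.update r i0 (!r i0)) ?_ ?_
    · intro r hr
      rw [Finset.mem_coe, Finset.mem_compl]
      intro hr'
      have e1 : |lf u v x r - c| ≤ η := by simpa [hS] using hr
      have e2 : |lf u v x (Function.update r i0 (!r i0)) - c| ≤ η := by simpa [hS] using hr'
      have e3 : |lf u v x (Function.update r i0 (!r i0)) - lf u v x r| ≤ 2 * η := by
        have : lf u v x (Function.update r i0 (!r i0)) - lf u v x r =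
          (lf u v x (Function.update r i0 (!r i0)) - c) - (lf u v x r - c) := by ring
        rw [this]
        exact (abs_sub _ _).trans (by linarith)
      rw [hflip, abs_mul, bv_not, abs_of_pos (by linarith : 0 < u - v)] at e3
      have e4 : |x i0| ≤ |x i0| * (u - v) := le_mul_of_one_le_right (abs_nonneg _) huv
      linarith
    · intro r _ r' _ hrr
      have hrr' : Function.update r i0 (!r i0) = Function.update r' i0 (!r' i0) := hrr
      funext k
      by_cases hk : k = i0
      · subst hk
        have := congrFun hrr' k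
        simpa using this
      · have := congrFun hrr' k
        simpa [hk] using this
  have h2 : S.card + Sᶜ.card = 2 ^ n := by
    rw [Finset.card_add_card_compl]; simp
  omega

/-- the Erdős–Littlewood–Offord bound -/
theorem elo (u v : ℝ) (huv : 1 ≤ u - v) (x : Fin n → ℝ) (T : Finset (Fin n)) (m : ℕ)
    (hT : T.card = 2 * m) (τ η c : ℝ) (hτ : 0 < τ) (hx : ∀ i ∈ T, τ ≤ |x i|) (hη : 2 * η < τ) :
    (univ.filter fun r : Fin n → Bool => |lf u v x r - c| ≤ η).card ≤
      2 ^ (n - 2 * m) * m.centralBinom := by
  classical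
  let e := Equiv.piEquivPiSubtypeProd (fun i => i ∈ T) (fun _ : Fin n => Bool)
  -- the set attached to a choice on `T`
  let F : ({i // i ∈ T} → Bool) → Finset {i // i ∈ T} := fun r =>
    univ.filter fun i => (r i = true ↔ 0 < x i)
  have hFinj : Function.Injective F := by
    intro r r' h
    funext i
    have h1 : i ∈ F r ↔ i ∈ F r' := by rw [h]
    simp only [F, Finset.mem_filter, Finset.mem_univ, true_and] at h1
    by_cases hi : 0 < x i
    · simp only [hi, iff_true] at h1
      rcases Bool.eq_false_or_eq_true (r i) with h2 | h2 <;>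
        rcases Bool.eq_false_or_eq_true (r' i) with h3 | h3 <;> simp_all
    · simp only [hi, iff_false] at h1
      rcases Bool.eq_false_or_eq_true (r i) with h2 | h2 <;>
        rcases Bool.eq_false_or_eq_true (r' i) with h3 | h3 <;> simp_all
  -- the linear form
  have hlf : ∀ (r1 : {i // i ∈ T} → Bool) (r2 : {i // ¬ i ∈ T} → Bool),
      lf u v x (e.symm (r1, r2)) = (∑ i : {i // i ∈ T}, x i * (if 0 < x i then v else u)) +
        (u - v) * (∑ i ∈ F r1, |x i|) + ∑ i : {i // ¬ i ∈ T}, x i * bv u v (r2 i) := by
    intro r1 r2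
    unfold lf
    rw [← Fintype.sum_subtype_add_sum_subtype (fun i => i ∈ T)
      (fun i => x i * bv u v (e.symm (r1, r2) i))]
    congr 1
    · rw [Finset.mul_sum, Finset.sum_filter, ← Finset.sum_add_distrib]
      refine Finset.sum_congr (by ext; simp) fun i _ => ?_
      have h1 : e.symm (r1, r2) i = r1 i := by
        simp only [e, Equiv.piEquivPiSubtypeProd_symm_apply]
        rw [dif_pos i.2]
      rw [h1]
      by_cases hi : 0 < x i
      · rcases Bool.eq_false_or_eq_true (r1 i) with h2 | h2
        · simp [h2, hi, bv, abs_of_pos hi]; ring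
        · simp [h2, hi, bv]
      · have hi' : x i ≤ 0 := not_lt.mp hi
        rcases Bool.eq_false_or_eq_true (r1 i) with h2 | h2
        · simp [h2, hi, bv]
        · simp [h2, hi, bv, abs_of_nonpos hi']; ring
    · refine Finset.sum_congr (by ext; simp) fun i _ => ?_
      have h1 : e.symm (r1, r2) i = r2 i := by
        simp only [e, Equiv.piEquivPiSubtypeProd_symm_apply]
        rw [dif_neg i.2]
      rw [h1]
  -- fibres
  have hfib : ∀ r2 : {i // ¬ i ∈ T} → Bool,
      (univ.filter fun r1 : {i // i ∈ T} → Bool => |lf u v x (e.symm (r1, r2)) - c| ≤ η).card ≤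
        m.centralBinom := by
    intro r2
    set S := univ.filter fun r1 : {i // i ∈ T} → Bool => |lf u v x (e.symm (r1, r2)) - c| ≤ η
      with hS
    have h1 : S.card = (S.image F).card := (Finset.card_image_of_injective S hFinj).symm
    rw [h1]
    have hanti : IsAntichain (· ⊆ ·) ((S.image F : Finset (Finset {i // i ∈ T})) :
        Set (Finset {i // i ∈ T})) := by
      intro A hA B hB hAB hsub
      rw [Finset.mem_coe, Finset.mem_image] at hA hB
      obtain ⟨r, hr, rfl⟩ := hA
      obtain ⟨r', hr', rfl⟩ := hB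
      have e1 : |lf u v x (e.symm (r, r2)) - c| ≤ η := by simpa [hS] using hr
      have e2 : |lf u v x (e.symm (r', r2)) - c| ≤ η := by simpa [hS] using hr'
      have e3 := (abs_le.mp e1).1
      have e4 := (abs_le.mp e2).2
      rw [hlf] at e3 e4
      have e5 : (∑ i ∈ F r', |x i|) = (∑ i ∈ F r, |x i|) + ∑ i ∈ F r' \ F r, |x i| := by
        rw [add_comm, Finset.sum_sdiff hsub]
      obtain ⟨i, hi⟩ : (F r' \ F r).Nonempty := by
        rw [Finset.sdiff_nonempty]
        intro h
        exact hAB (Finset.Subset.antisymm hsub h)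
      have e6 : τ ≤ ∑ i ∈ F r' \ F r, |x i| := by
        refine (hx i i.2).trans ?_
        exact Finset.single_le_sum (f := fun i : {i // i ∈ T} => |x i|)
          (fun _ _ => abs_nonneg _) hi
      rw [e5] at e4
      have e7 : (u - v) * τ ≤ (u - v) * ∑ i ∈ F r' \ F r, |x i| :=
        mul_le_mul_of_nonneg_left e6 (by linarith)
      have e8 : τ ≤ (u - v) * τ := le_mul_of_one_le_left hτ.le huv
      rw [mul_add] at e4
      linarith
    have h2 := hanti.sperner
    rw [Fintype.card_coe, hT, Nat.mul_div_cancel_left m (by norm_num)] at h2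
    rw [Nat.centralBinom_eq_two_mul_choose]
    exact h2
  -- counting
  have hcount : (univ.filter fun r : Fin n → Bool => |lf u v x r - c| ≤ η).card =
      ∑ r2 : {i // ¬ i ∈ T} → Bool,
        (univ.filter fun r1 : {i // i ∈ T} → Bool => |lf u v x (e.symm (r1, r2)) - c| ≤ η).card := by
    have h1 : (univ.filter fun r : Fin n → Bool => |lf u v x r - c| ≤ η).card =
        (univ.filter fun p : ({i // i ∈ T} → Bool) × ({i // ¬ i ∈ T} → Bool) =>
          |lf u v x (e.symm p) - c| ≤ η).card := by
      refine Finset.card_bij (fun r _ => e r) (fun r hr => ?_) (fun r _ r' _ h => e.injective h)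
        (fun p hp => ⟨e.symm p, ?_, by simp⟩)
      · simpa using hr
      · simpa using hp
    rw [h1, Finset.card_filter, Fintype.sum_prod_type_right]
    refine Finset.sum_congr rfl fun r2 _ => ?_
    rw [Finset.card_filter]
  rw [hcount]
  calc ∑ r2 : {i // ¬ i ∈ T} → Bool,
        (univ.filter fun r1 : {i // i ∈ T} → Bool => |lf u v x (e.symm (r1, r2)) - c| ≤ η).card
      ≤ ∑ _r2 : {i // ¬ i ∈ T} → Bool, m.centralBinom := Finset.sum_le_sum fun r2 _ => hfib r2
    _ = 2 ^ (n - 2 * m) * m.centralBinom := by
        rw [Finset.sum_const, smul_eq_mul]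
        congr 1
        rw [Finset.card_univ, Fintype.card_fun, Fintype.card_bool, Fintype.card_subtype_compl,
          Fintype.card_fin, Fintype.card_coe, hT]

theorem centralBinom_bound (m : ℕ) : m.centralBinom ^ 2 * (2 * m + 1) ≤ 16 ^ m := by
  induction m with
  | zero => simp
  | succ m ih =>
    have h1 := Nat.succ_mul_centralBinom_succ m
    -- (m+1) C(m+1) = 2 (2m+1) C(m)
    have h2 : (m + 1) ^ 2 * ((m + 1).centralBinom ^ 2 * (2 * (m + 1) + 1)) ≤
        (m + 1) ^ 2 * 16 ^ (m + 1) := by
      calc (m + 1) ^ 2 * ((m + 1).centralBinom ^ 2 * (2 * (m + 1) + 1))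
          = ((m + 1) * (m + 1).centralBinom) ^ 2 * (2 * m + 3) := by ring
        _ = (2 * (2 * m + 1) * m.centralBinom) ^ 2 * (2 * m + 3) := by rw [h1]
        _ = (m.centralBinom ^ 2 * (2 * m + 1)) * (4 * ((2 * m + 1) * (2 * m + 3))) := by ring
        _ ≤ 16 ^ m * (4 * ((2 * m + 1) * (2 * m + 3))) := Nat.mul_le_mul_right _ ih
        _ ≤ 16 ^ m * (16 * (m + 1) ^ 2) := Nat.mul_le_mul_left _ (by nlinarith)
        _ = _ := by ring
    exact Nat.le_of_mul_le_mul_left h2 (by positivity)

end Pool.Agent.N602.RR
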