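import Pool.Agent.N602.RR.Disc

/-! # Two-valued random matrices: nets and normals -/

set_option autoImplicit false

namespace Pool.Agent.N602.RR

open Finset

variable {n : ℕ}

theorem bv_abs (u v : ℝ) (hu : |u| ≤ 1) (hv : |v| ≤ 1) (b : Bool) : |bv u v b| ≤ 1 := by
  cases b <;> simp [bv, hu, hv]

theorem lf_close (u v : ℝ) (hu : |u| ≤ 1) (hv : |v| ≤ 1) (x y : Fin n → ℝ) (δ : ℝ)
    (h : ∀ i, |x i - y i| ≤ δ) (r : Fin n → Bool) : |lf u v y r - lf u v x r| ≤ n * δ := by
  unfold lf
  rw [← Finset.sum_sub_distrib]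
  calc |∑ i, (y i * bv u v (r i) - x i * bv u v (r i))|
      ≤ ∑ i, |y i * bv u v (r i) - x i * bv u v (r i)| := Finset.abs_sum_le_sum_abs _ _
    _ ≤ ∑ _i : Fin n, δ := Finset.sum_le_sum fun i _ => by
        rw [← sub_mul, abs_mul, abs_sub_comm]
        calc |x i - y i| * |bv u v (r i)| ≤ δ * 1 :=
              mul_le_mul (h i) (bv_abs u v hu hv _) (abs_nonneg _) ((abs_nonneg _).trans (h i))
          _ = δ := mul_one _
    _ = n * δ := by simp

/-- unit vectors in the sup norm -/
def Un (x : Fin n → ℝ) : Prop := (∃ i0, |x i0| = 1) ∧ ∀ i, |x i| ≤ 1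

/-- the number of large coordinates -/
noncomputable def big (x : Fin n → ℝ) : Finset (Fin n) :=
  univ.filter fun i => 1 / (8 * (n : ℝ)) ≤ |x i|

open Classical in
/-- matrices with an approximate compressible kernel vector -/
noncomputable def badN (u v : ℝ) (κ : Type) [Fintype κ] (n s : ℕ) :
    Finset (κ → (Fin n → Bool)) :=
  univ.filter fun M => ∃ x : Fin n → ℝ, Un x ∧ (big x).card < s ∧ ∀ l, |lf u v x (M l)| ≤ 1 / 16

theorem badN_card (u v : ℝ) (hu : |u| ≤ 1) (hv : |v| ≤ 1) (huv : 1 ≤ u - v) (κ : Type)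
    [Fintype κ] (n s : ℕ) (hn : 1 ≤ n) (hs : s ≤ n) :
    (badN u v κ n s).card ≤ (17 * n ^ 2) ^ s * (2 ^ (n - 1)) ^ (Fintype.card κ) := by
  classical
  have hn0 : (0 : ℝ) < n := by exact_mod_cast hn
  -- the grid
  let G : Finset (Fin n) → Finset (Fin n → ℤ) := fun S =>
    Fintype.piFinset fun i => if i ∈ S then Finset.Icc (-(8 * n : ℤ)) (8 * n) else {0}
  have hG : ∀ S, S.card = s → (G S).card = (16 * n + 1) ^ s := by
    intro S hS
    simp only [G, Fintype.card_piFinset]
    have : ∀ i : Fin n, (if i ∈ S then Finset.Icc (-(8 * n : ℤ)) (8 * n) else {0}).card =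
        if i ∈ S then 16 * n + 1 else 1 := by
      intro i
      split_ifs
      · simp; omega
      · simp
    rw [Finset.prod_congr rfl fun i _ => this i, Finset.prod_ite_mem, Finset.univ_inter,
      Finset.prod_const, hS]
  -- the matrices attached to a grid vector
  let R : (Fin n → ℤ) → Finset (Fin n → Bool) := fun z =>
    univ.filter fun r : Fin n → Bool => |lf u v (fun i => (z i : ℝ) / (8 * n)) r - 0| ≤ 3 / 16
  let Q : (Fin n → ℤ) → Finset (κ → (Fin n → Bool)) := fun z =>
    if ∃ i0, (z i0 : ℝ) = 8 * n ∨ (z i0 : ℝ) = -(8 * n) then Fintype.piFinset fun _ => R z else ∅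
  have hQ : ∀ z, (Q z).card ≤ (2 ^ (n - 1)) ^ (Fintype.card κ) := by
    intro z
    simp only [Q]
    split_ifs with h
    · obtain ⟨i0, hi0⟩ := h
      rw [Fintype.card_piFinset, Finset.prod_const, Finset.card_univ]
      refine Nat.pow_le_pow_left ?_ _
      have h1 := flip_count u v huv (fun i => (z i : ℝ) / (8 * n)) i0 (3 / 16) 0 (by
        have h2 : |(z i0 : ℝ) / (8 * n)| = 1 := by
          rcases hi0 with h | h
          · rw [h]; rw [div_self (by positivity)]; simp
          · rw [h, neg_div, div_self (by positivity)]; simp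
        simp only [h2]; norm_num)
      have h3 : 2 ^ n = 2 * 2 ^ (n - 1) := by
        rw [← pow_succ']; congr 1; omega
      have h4 : (R z).card = (univ.filter fun r : Fin n → Bool =>
        |lf u v (fun i => (z i : ℝ) / (8 * n)) r - 0| ≤ 3 / 16).card := rfl
      omega
    · simp
  have hsub : badN u v κ n s ⊆ (powersetCard s (univ : Finset (Fin n))).biUnion fun S =>
      (G S).biUnion fun z => Q z := by
    intro M hM
    simp only [badN, mem_filter, mem_univ, true_and] at hM
    obtain ⟨x, ⟨⟨i0, hi0⟩, hx⟩, hbig, hM⟩ := hM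
    obtain ⟨S, hS1, hS2⟩ : ∃ S : Finset (Fin n), big x ⊆ S ∧ S.card = s :=
      Finset.exists_superset_card_eq hbig.le (by simpa using hs)
    let z : Fin n → ℤ := fun i => if i ∈ S then ⌊8 * n * x i⌋ else 0
    simp only [mem_biUnion, mem_powersetCard_univ]
    have hi0S : i0 ∈ S := by
      apply hS1
      simp only [big, mem_filter, mem_univ, true_and, hi0]
      rw [div_le_one (by positivity)]
      have : (1 : ℝ) ≤ n := by exact_mod_cast hn
      linarith
    refine ⟨S, hS2, z, ?_, ?_⟩
    · simp only [G, Fintype.mem_piFinset]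
      intro i
      simp only [z]
      split_ifs with h
      · rw [Finset.mem_Icc]
        have h1 := abs_le.mp (hx i)
        constructor
        · rw [Int.le_floor]
          push_cast
          nlinarith
        · have h2 : 8 * n * x i ≤ ((8 * n : ℤ) : ℝ) := by push_cast; nlinarith
          have h3 := Int.floor_le_floor h2
          rw [Int.floor_intCast] at h3
          exact h3
      · simp
    · have hz0 : ((z i0 : ℝ) = 8 * n ∨ (z i0 : ℝ) = -(8 * n)) := by
        simp only [z, if_pos hi0S]
        rcases (abs_eq (by norm_num : (0 : ℝ) ≤ 1)).mp hi0 with h | h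
        · left
          rw [h, mul_one]
          have : (8 * (n : ℝ)) = ((8 * n : ℤ) : ℝ) := by push_cast; ring
          rw [this, Int.floor_intCast]
        · right
          rw [h]
          have : (8 * (n : ℝ)) * (-1) = ((-(8 * n) : ℤ) : ℝ) := by push_cast; ring
          rw [this, Int.floor_intCast]
          push_cast; ring
      simp only [Q]
      rw [if_pos ⟨i0, hz0⟩, Fintype.mem_piFinset]
      intro l
      simp only [R, mem_filter, mem_univ, true_and, sub_zero]
      have hclose : ∀ i, |x i - (z i : ℝ) / (8 * n)| ≤ 1 / (8 * n) := by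
        intro i
        simp only [z]
        split_ifs with h
        · have h1 := Int.floor_le (8 * n * x i)
          have h2 := Int.lt_floor_add_one (8 * n * x i)
          have h3 : x i - (⌊8 * n * x i⌋ : ℝ) / (8 * n) = (8 * n * x i - ⌊8 * n * x i⌋) / (8 * n) := by
            field_simp
          rw [h3, abs_div, abs_of_pos (by positivity : (0 : ℝ) < 8 * n)]
          refine div_le_div_of_nonneg_right ?_ (by positivity)
          rw [abs_le]; constructor <;> linarith
        · simp only [Int.cast_zero, zero_div, sub_zero]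
          by_contra h1
          exact h (hS1 (by
            simp only [big, mem_filter, mem_univ, true_and]
            exact (not_le.mp h1).le))
      have h1 := lf_close u v hu hv x _ _ hclose (M l)
      have h2 : (n : ℝ) * (1 / (8 * n)) = 1 / 8 := by field_simp
      rw [h2] at h1
      have h3 := hM l
      have h4 : lf u v (fun i => (z i : ℝ) / (8 * n)) (M l) =
        (lf u v (fun i => (z i : ℝ) / (8 * n)) (M l) - lf u v x (M l)) + lf u v x (M l) := by ring
      rw [h4]
      exact (abs_add_le _ _).trans (by linarith)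
  calc (badN u v κ n s).card ≤ _ := Finset.card_le_card hsub
    _ ≤ ∑ S ∈ powersetCard s (univ : Finset (Fin n)), ∑ z ∈ G S, (Q z).card := by
        refine Finset.card_biUnion_le.trans (Finset.sum_le_sum fun S _ => Finset.card_biUnion_le)
    _ ≤ ∑ S ∈ powersetCard s (univ : Finset (Fin n)), ∑ z ∈ G S, (2 ^ (n - 1)) ^ (Fintype.card κ) :=
        Finset.sum_le_sum fun S _ => Finset.sum_le_sum fun z _ => hQ z
    _ = n.choose s * ((16 * n + 1) ^ s * (2 ^ (n - 1)) ^ (Fintype.card κ)) := by
        rw [Finset.sum_congr rfl fun S hS => by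
          rw [Finset.sum_const, smul_eq_mul, hG S (mem_powersetCard_univ.mp hS)]]
        rw [Finset.sum_const, smul_eq_mul, card_powersetCard]
        simp
    _ ≤ n ^ s * ((17 * n) ^ s * (2 ^ (n - 1)) ^ (Fintype.card κ)) := by
        refine Nat.mul_le_mul (Nat.choose_le_pow n s) (Nat.mul_le_mul_right _ ?_)
        exact Nat.pow_le_pow_left (by omega) s
    _ = _ := by
        rw [← mul_assoc, ← mul_pow]; congr 2; ring

/-- normals: a unit vector orthogonal to `n - 1` given vectors -/
theorem exists_normal (u v : ℝ) (hn : 1 ≤ n) (j : Fin n) (o : {l // l ≠ j} → (Fin n → Bool)) :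
    ∃ x : Fin n → ℝ, Un x ∧ ∀ l, lf u v x (o l) = 0 := by
  classical
  let L : (Fin n → ℝ) →ₗ[ℝ] ({l : Fin n // l ≠ j} → ℝ) :=
    { toFun := fun x l => lf u v x (o l)
      map_add' := fun x y => by
        funext l; simp [lf, add_mul, Finset.sum_add_distrib]
      map_smul' := fun c x => by
        funext l; simp [lf, mul_assoc, Finset.mul_sum] }
  have hker : LinearMap.ker L ≠ ⊥ := by
    apply LinearMap.ker_ne_bot_of_finrank_lt
    simp only [Module.finrank_fintype_fun_eq_card, Fintype.card_fin]
    rw [Fintype.card_subtype_compl]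
    simp
    omega
  obtain ⟨x, hx, hx0⟩ := (Submodule.ne_bot_iff _).mp hker
  have hxn : 0 < ‖x‖ := norm_pos_iff.mpr hx0
  have : Nonempty (Fin n) := ⟨j⟩
  obtain ⟨i0, hi0⟩ : ∃ i0, |x i0| = ‖x‖ := by
    obtain ⟨i0, _, hi0⟩ := Finset.exists_max_image (univ : Finset (Fin n)) (fun i => |x i|)
      ⟨j, mem_univ j⟩
    refine ⟨i0, le_antisymm (norm_le_pi_norm x i0) ?_⟩
    rw [pi_norm_le_iff_of_nonneg (abs_nonneg _)]
    exact fun i => hi0 i (mem_univ i)
  refine ⟨fun i => x i / ‖x‖, ⟨⟨i0, ?_⟩, fun i => ?_⟩, fun l => ?_⟩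
  · rw [abs_div, abs_of_pos hxn, hi0, div_self hxn.ne']
  · rw [abs_div, abs_of_pos hxn, div_le_one hxn]
    exact norm_le_pi_norm x i
  · have h1 : L x = 0 := hx
    have h2 : lf u v x (o l) = 0 := congrFun h1 l
    have h3 : lf u v (fun i => x i / ‖x‖) (o l) = lf u v x (o l) / ‖x‖ := by
      unfold lf
      rw [Finset.sum_div]
      exact Finset.sum_congr rfl fun i _ => by ring
    rw [h3, h2, zero_div]

end Pool.Agent.N602.RR
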