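import Pool.Agent.N602.RR.Disc2

/-! # Two-valued random matrices: the bad set is small -/

set_option autoImplicit false

namespace Pool.Agent.N602.RR

open Finset

variable {n : ℕ}

/-- a chosen normal -/
noncomputable def nrm (u v : ℝ) (hn : 1 ≤ n) (j : Fin n) (o : {l // l ≠ j} → (Fin n → Bool)) :
    Fin n → ℝ := (exists_normal u v hn j o).choose

theorem nrm_spec (u v : ℝ) (hn : 1 ≤ n) (j : Fin n) (o : {l // l ≠ j} → (Fin n → Bool)) :
    Un (nrm u v hn j o) ∧ ∀ l, lf u v (nrm u v hn j o) (o l) = 0 :=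
  (exists_normal u v hn j o).choose_spec

open Classical in
/-- the `j`-th vector is almost orthogonal to the normal of the others -/
noncomputable def badJ (u v : ℝ) (hn : 1 ≤ n) (j : Fin n) : Finset (Fin n → (Fin n → Bool)) :=
  univ.filter fun M => |lf u v (nrm u v hn j (fun l => M l)) (M j)| ≤ 1 / (25 * n)

theorem badJ_card (u v : ℝ) (hu : |u| ≤ 1) (hv : |v| ≤ 1) (huv : 1 ≤ u - v) (hn : 1 ≤ n)
    (m : ℕ) (hm : 2 * m ≤ n) (j : Fin n) :
    (badJ u v hn j).card ≤ (2 ^ n) ^ (n - 1) * (2 ^ (n - 2 * m) * m.centralBinom) +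
      2 ^ n * ((17 * n ^ 2) ^ (2 * m) * (2 ^ (n - 1)) ^ (n - 1)) := by
  classical
  have hn0 : (0 : ℝ) < n := by exact_mod_cast hn
  let e : (Fin n → (Fin n → Bool)) ≃ (Fin n → Bool) × ({l // l ≠ j} → (Fin n → Bool)) :=
    Equiv.funSplitAt j (Fin n → Bool)
  have h1 : (badJ u v hn j).card = (univ.filter fun p : (Fin n → Bool) ×
      ({l // l ≠ j} → (Fin n → Bool)) => |lf u v (nrm u v hn j p.2) p.1| ≤ 1 / (25 * n)).card := by
    refine Finset.card_bij (fun M _ => e M) (fun M hM => ?_) (fun r _ r' _ h => e.injective h)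
      (fun p hp => ⟨e.symm p, ?_, by simp⟩)
    · simp only [badJ, mem_filter, mem_univ, true_and] at hM ⊢
      exact hM
    · simp only [badJ, mem_filter, mem_univ, true_and] at hp ⊢
      have h2 : ((e.symm p) j, (fun l : {l // l ≠ j} => (e.symm p) l)) = p := e.apply_symm_apply p
      have h3 : (e.symm p) j = p.1 := congrArg Prod.fst h2
      have h4 : (fun l : {l // l ≠ j} => (e.symm p) l) = p.2 := congrArg Prod.snd h2
      rw [h3, h4]
      exact hp
  have hcardκ : Fintype.card {l : Fin n // l ≠ j} = n - 1 := by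
    rw [Fintype.card_subtype_compl]; simp
  rw [h1, Finset.card_filter, Fintype.sum_prod_type_right]
  have h2 : ∀ o : {l // l ≠ j} → (Fin n → Bool),
      (∑ r : Fin n → Bool, if |lf u v (nrm u v hn j o) r| ≤ 1 / (25 * n) then 1 else 0) ≤
      (if o ∈ badN u v {l // l ≠ j} n (2 * m) then 2 ^ n else 0) +
        2 ^ (n - 2 * m) * m.centralBinom := by
    intro o
    rw [← Finset.card_filter]
    split_ifs with ho
    · refine le_trans ?_ (Nat.le_add_right _ _)
      refine (Finset.card_le_univ _).trans ?_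
      simp
    · rw [zero_add]
      obtain ⟨hU, ho2⟩ := nrm_spec u v hn j o
      have hbig : 2 * m ≤ (big (nrm u v hn j o)).card := by
        by_contra h
        apply ho
        simp only [badN, mem_filter, mem_univ, true_and]
        exact ⟨_, hU, not_le.mp h, fun l => by rw [ho2 l]; norm_num⟩
      obtain ⟨T, hT1, hT2⟩ := Finset.exists_subset_card_eq hbig
      have h3 := elo u v huv (nrm u v hn j o) T m hT2 (1 / (8 * n)) (1 / (25 * n)) 0 (by positivity)
        (fun i hi => by
          have := hT1 hi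
          simpa [big] using this) (by
          rw [mul_one_div, div_lt_div_iff₀ (by positivity) (by positivity)]
          linarith)
      simpa using h3
  calc ∑ o : {l // l ≠ j} → (Fin n → Bool),
      (∑ r : Fin n → Bool, if |lf u v (nrm u v hn j o) r| ≤ 1 / (25 * n) then 1 else 0)
      ≤ ∑ o : {l // l ≠ j} → (Fin n → Bool),
        ((if o ∈ badN u v {l // l ≠ j} n (2 * m) then 2 ^ n else 0) +
        2 ^ (n - 2 * m) * m.centralBinom) := Finset.sum_le_sum fun o _ => h2 o
    _ = (badN u v {l // l ≠ j} n (2 * m)).card * 2 ^ n +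
        (2 ^ n) ^ (n - 1) * (2 ^ (n - 2 * m) * m.centralBinom) := by
        rw [Finset.sum_add_distrib, Finset.sum_ite_mem, Finset.univ_inter, Finset.sum_const,
          Finset.sum_const, smul_eq_mul, smul_eq_mul]
        congr 2
        rw [Finset.card_univ, Fintype.card_fun, hcardκ]
        simp
    _ ≤ ((17 * n ^ 2) ^ (2 * m) * (2 ^ (n - 1)) ^ (n - 1)) * 2 ^ n +
        (2 ^ n) ^ (n - 1) * (2 ^ (n - 2 * m) * m.centralBinom) := by
        refine Nat.add_le_add_right (Nat.mul_le_mul_right _ ?_) _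
        have := badN_card u v hu hv huv {l // l ≠ j} n (2 * m) hn hm
        rwa [hcardκ] at this
    _ = _ := by ring

open Classical in
/-- matrices (given by rows) with an approximate kernel vector -/
noncomputable def Bad (u v : ℝ) (n : ℕ) : Finset (Fin n → (Fin n → Bool)) :=
  univ.filter fun M => ∃ x : Fin n → ℝ, Un x ∧ ∀ i, |lf u v x (M i)| ≤ 1 / (200 * (n : ℝ) ^ 3)

theorem Bad_card (u v : ℝ) (hu : |u| ≤ 1) (hv : |v| ≤ 1) (huv : 1 ≤ u - v) (hn : 1 ≤ n)
    (m : ℕ) (hm : 2 * m ≤ n) :
    2 * m * (Bad u v n).card ≤ 2 * m * ((17 * n ^ 2) ^ (2 * m) * (2 ^ (n - 1)) ^ n) +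
      n * ((2 ^ n) ^ (n - 1) * (2 ^ (n - 2 * m) * m.centralBinom) +
      2 ^ n * ((17 * n ^ 2) ^ (2 * m) * (2 ^ (n - 1)) ^ (n - 1))) := by
  classical
  have hn0 : (0 : ℝ) < n := by exact_mod_cast hn
  have hn1 : (1 : ℝ) ≤ n := by exact_mod_cast hn
  -- transposition
  let tr : (Fin n → (Fin n → Bool)) ≃ (Fin n → (Fin n → Bool)) :=
    { toFun := fun M i k => M k i
      invFun := fun M i k => M k i
      left_inv := fun _ => rfl
      right_inv := fun _ => rfl }
  set W : Finset (Fin n → (Fin n → Bool)) :=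
    univ.filter fun M => 2 * m ≤ (univ.filter fun k : Fin n => tr M ∈ badJ u v hn k).card with hW
  have hsub : Bad u v n ⊆ badN u v (Fin n) n (2 * m) ∪ W := by
    intro M hM
    simp only [Bad, mem_filter, mem_univ, true_and] at hM
    obtain ⟨x, hU, hx⟩ := hM
    rw [Finset.mem_union]
    by_cases hb : (big x).card < 2 * m
    · left
      simp only [badN, mem_filter, mem_univ, true_and]
      refine ⟨x, hU, hb, fun i => (hx i).trans ?_⟩
      rw [div_le_div_iff₀ (by positivity) (by norm_num)]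
      have : (1 : ℝ) ≤ (n : ℝ) ^ 3 := one_le_pow₀ hn1
      linarith
    · right
      simp only [hW, mem_filter, mem_univ, true_and]
      refine (not_lt.mp hb).trans (Finset.card_le_card ?_)
      intro k hk
      simp only [mem_filter, mem_univ, true_and, badJ]
      have hk' : 1 / (8 * (n : ℝ)) ≤ |x k| := by simpa [big] using hk
      set V := nrm u v hn k (fun l => tr M l) with hV
      obtain ⟨⟨_, hV1⟩, hV2⟩ := nrm_spec u v hn k (fun l => tr M l)
      -- the double sum
      have h1 : ∑ i, V i * lf u v x (M i) = x k * lf u v V (tr M k) := by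
        have h2 : ∑ i, V i * lf u v x (M i) = ∑ l, x l * lf u v V (tr M l) := by
          unfold lf
          simp only [Finset.mul_sum]
          rw [Finset.sum_comm]
          refine Finset.sum_congr rfl fun l _ => Finset.sum_congr rfl fun i _ => ?_
          show V i * (x l * bv u v (M i l)) = x l * (V i * bv u v (M i l))
          ring
        rw [h2, Finset.sum_eq_single k]
        · intro l _ hl
          rw [hV2 ⟨l, hl⟩, mul_zero]
        · simp
      have h2 : |∑ i, V i * lf u v x (M i)| ≤ n * (1 / (200 * (n : ℝ) ^ 3)) := by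
        calc |∑ i, V i * lf u v x (M i)| ≤ ∑ i, |V i * lf u v x (M i)| :=
              Finset.abs_sum_le_sum_abs _ _
          _ ≤ ∑ _i : Fin n, (1 / (200 * (n : ℝ) ^ 3)) := Finset.sum_le_sum fun i _ => by
              rw [abs_mul]
              calc |V i| * |lf u v x (M i)| ≤ 1 * (1 / (200 * (n : ℝ) ^ 3)) :=
                    mul_le_mul (hV1 i) (hx i) (abs_nonneg _) (by norm_num)
                _ = _ := one_mul _
          _ = _ := by simp
      rw [h1, abs_mul] at h2
      have h3 : 1 / (8 * (n : ℝ)) * |lf u v V (tr M k)| ≤ n * (1 / (200 * (n : ℝ) ^ 3)) :=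
        (mul_le_mul_of_nonneg_right hk' (abs_nonneg _)).trans h2
      have h4 : |lf u v V (tr M k)| = 8 * n * (1 / (8 * (n : ℝ)) * |lf u v V (tr M k)|) := by
        field_simp
      rw [h4]
      calc 8 * n * (1 / (8 * (n : ℝ)) * |lf u v V (tr M k)|)
          ≤ 8 * n * (n * (1 / (200 * (n : ℝ) ^ 3))) := mul_le_mul_of_nonneg_left h3 (by positivity)
        _ = _ := by field_simp; ring
  -- averaging
  have hWcard : 2 * m * W.card ≤ ∑ k : Fin n, (badJ u v hn k).card := by
    calc 2 * m * W.card = ∑ _M ∈ W, 2 * m := by rw [Finset.sum_const, smul_eq_mul]; ring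
      _ ≤ ∑ M ∈ W, (univ.filter fun k : Fin n => tr M ∈ badJ u v hn k).card :=
          Finset.sum_le_sum fun M hM => by
            simpa [hW] using hM
      _ ≤ ∑ M : Fin n → (Fin n → Bool), (univ.filter fun k : Fin n => tr M ∈ badJ u v hn k).card :=
          Finset.sum_le_sum_of_subset (Finset.subset_univ _)
      _ = ∑ M : Fin n → (Fin n → Bool), ∑ k : Fin n, if tr M ∈ badJ u v hn k then 1 else 0 :=
          Finset.sum_congr rfl fun M _ => Finset.card_filter _ _
      _ = ∑ k : Fin n, ∑ M : Fin n → (Fin n → Bool), if tr M ∈ badJ u v hn k then 1 else 0 :=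
          Finset.sum_comm
      _ = ∑ k : Fin n, (badJ u v hn k).card := by
          refine Finset.sum_congr rfl fun k _ => ?_
          rw [Equiv.sum_comp tr (fun M => if M ∈ badJ u v hn k then 1 else 0)]
          rw [Finset.sum_ite_mem, Finset.univ_inter, Finset.sum_const, smul_eq_mul, mul_one]
  have h1 := badN_card u v hu hv huv (Fin n) n (2 * m) hn hm
  rw [Fintype.card_fin] at h1
  have h2 : (Bad u v n).card ≤ (badN u v (Fin n) n (2 * m)).card + W.card :=
    (Finset.card_le_card hsub).trans (Finset.card_union_le _ _)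
  calc 2 * m * (Bad u v n).card ≤ 2 * m * ((badN u v (Fin n) n (2 * m)).card + W.card) :=
        Nat.mul_le_mul_left _ h2
    _ = 2 * m * (badN u v (Fin n) n (2 * m)).card + 2 * m * W.card := by ring
    _ ≤ 2 * m * ((17 * n ^ 2) ^ (2 * m) * (2 ^ (n - 1)) ^ n) +
        ∑ k : Fin n, (badJ u v hn k).card := Nat.add_le_add (Nat.mul_le_mul_left _ h1) hWcard
    _ ≤ 2 * m * ((17 * n ^ 2) ^ (2 * m) * (2 ^ (n - 1)) ^ n) +
        ∑ _k : Fin n, ((2 ^ n) ^ (n - 1) * (2 ^ (n - 2 * m) * m.centralBinom) +
      2 ^ n * ((17 * n ^ 2) ^ (2 * m) * (2 ^ (n - 1)) ^ (n - 1))) :=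
        Nat.add_le_add_left (Finset.sum_le_sum fun k _ => badJ_card u v hu hv huv hn m hm k) _
    _ = _ := by rw [Finset.sum_const, smul_eq_mul]; simp

end Pool.Agent.N602.RR
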