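import Pool.Agent.N602.RR.Disc3

/-! # Two-valued random matrices: the limit -/

set_option autoImplicit false

namespace Pool.Agent.N602.RR

open Finset Filter Topology

theorem Bad_real (u v : ℝ) (hu : |u| ≤ 1) (hv : |v| ≤ 1) (huv : 1 ≤ u - v) (n : ℕ) (hn : 1 ≤ n)
    (m : ℕ) (hm1 : 1 ≤ m) (hm : 2 * m ≤ n) :
    ((Bad u v n).card : ℝ) / 2 ^ (n * n) ≤
      3 * (n * ((17 * (n : ℝ) ^ 2) ^ (2 * m) / 2 ^ n)) + n / (2 * m) / Real.sqrt (2 * m + 1) := by
  have h := Bad_card u v hu hv huv hn m hm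
  have hn0 : (1 : ℝ) ≤ n := by exact_mod_cast hn
  have hm0 : (1 : ℝ) ≤ m := by exact_mod_cast hm1
  have hr : 2 * (m : ℝ) * (Bad u v n).card ≤
      2 * m * ((17 * (n : ℝ) ^ 2) ^ (2 * m) * (2 ^ (n - 1)) ^ n) +
      n * ((2 ^ n) ^ (n - 1) * (2 ^ (n - 2 * m) * (m.centralBinom : ℝ)) +
      2 ^ n * ((17 * (n : ℝ) ^ 2) ^ (2 * m) * (2 ^ (n - 1)) ^ (n - 1))) := by exact_mod_cast h
  set Y : ℝ := (17 * (n : ℝ) ^ 2) ^ (2 * m) with hY
  have hY0 : 0 ≤ Y := by positivity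
  have e1 : ((2 : ℝ) ^ (n - 1)) ^ n = 2 ^ (n * n) / 2 ^ n := by
    rw [eq_div_iff (by positivity), ← pow_mul, ← pow_add]
    congr 1
    obtain ⟨k, rfl⟩ : ∃ k, n = k + 1 := ⟨n - 1, by omega⟩
    simp; ring
  have e2 : ((2 : ℝ) ^ n) ^ (n - 1) * 2 ^ (n - 2 * m) = 2 ^ (n * n) / 4 ^ m := by
    rw [eq_div_iff (by positivity), show (4 : ℝ) = 2 ^ 2 by norm_num, ← pow_mul, ← pow_mul,
      ← pow_add, ← pow_add]
    congr 1
    obtain ⟨k, rfl⟩ : ∃ k, n = k + 1 := ⟨n - 1, by omega⟩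
    obtain ⟨j, hj⟩ : ∃ j, k + 1 = 2 * m + j := ⟨k + 1 - 2 * m, by omega⟩
    have : k + 1 - 2 * m = j := by omega
    rw [this]
    simp
    nlinarith
  have e3 : (2 : ℝ) ^ n * (2 ^ (n - 1)) ^ (n - 1) = 2 * (2 ^ (n * n) / 2 ^ n) := by
    rw [← mul_div_assoc, eq_div_iff (by positivity), ← pow_mul, ← pow_add, ← pow_succ', ← pow_add]
    congr 1
    obtain ⟨k, rfl⟩ : ∃ k, n = k + 1 := ⟨n - 1, by omega⟩
    simp; ring
  have e4 : (m.centralBinom : ℝ) / 4 ^ m ≤ 1 / Real.sqrt (2 * m + 1) := by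
    have h1 : ((m.centralBinom ^ 2 * (2 * m + 1) : ℕ) : ℝ) ≤ ((16 ^ m : ℕ) : ℝ) := by
      exact_mod_cast centralBinom_bound m
    push_cast at h1
    rw [div_le_div_iff₀ (by positivity) (by positivity), one_mul]
    have h2 : ((m.centralBinom : ℝ) * Real.sqrt (2 * m + 1)) ^ 2 ≤ (4 ^ m) ^ 2 := by
      rw [mul_pow, Real.sq_sqrt (by positivity)]
      calc _ ≤ (16 : ℝ) ^ m := h1
        _ = _ := by rw [← pow_mul, mul_comm m 2, pow_mul]; norm_num
    exact (le_abs_self _).trans (abs_le_of_sq_le_sq h2 (by positivity))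
  have hN : (0 : ℝ) < 2 ^ (n * n) := by positivity
  have h5 : 2 * (m : ℝ) * (Bad u v n).card ≤ 2 ^ (n * n) * (2 * m * (Y / 2 ^ n) +
      n * ((m.centralBinom : ℝ) / 4 ^ m + 2 * (Y / 2 ^ n))) := by
    calc 2 * (m : ℝ) * (Bad u v n).card ≤ _ := hr
      _ = 2 * m * (Y * (2 ^ (n - 1)) ^ n) +
          n * (((2 ^ n) ^ (n - 1) * 2 ^ (n - 2 * m)) * (m.centralBinom : ℝ) +
          Y * (2 ^ n * (2 ^ (n - 1)) ^ (n - 1))) := by ring
      _ = _ := by rw [e1, e2, e3]; field_simp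
  have h6 : ((Bad u v n).card : ℝ) / 2 ^ (n * n) ≤ (Y / 2 ^ n) +
      n / (2 * m) * ((m.centralBinom : ℝ) / 4 ^ m + 2 * (Y / 2 ^ n)) := by
    rw [div_le_iff₀ hN]
    have h7 : ((Bad u v n).card : ℝ) = (2 * (m : ℝ) * (Bad u v n).card) / (2 * m) := by field_simp
    rw [h7, div_le_iff₀ (by positivity)]
    refine h5.trans (le_of_eq ?_)
    field_simp
  refine h6.trans ?_
  have hZ : 0 ≤ Y / 2 ^ n := by positivity
  have hnm : (n : ℝ) / (2 * m) * (2 * (Y / 2 ^ n)) ≤ n * (Y / 2 ^ n) := by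
    have : (n : ℝ) / (2 * m) * (2 * (Y / 2 ^ n)) = (n * (Y / 2 ^ n)) / m := by field_simp
    rw [this]
    exact div_le_self (by positivity) hm0
  have h8 : (n : ℝ) / (2 * m) * ((m.centralBinom : ℝ) / 4 ^ m) ≤
      n / (2 * m) / Real.sqrt (2 * m + 1) := by
    rw [div_eq_mul_one_div (n / (2 * m) : ℝ)]
    exact mul_le_mul_of_nonneg_left e4 (by positivity)
  have h9 : Y / 2 ^ n ≤ n * (Y / 2 ^ n) := le_mul_of_one_le_left hZ hn0
  rw [mul_add]
  linarith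

theorem Bad_lim (u v : ℝ) (hu : |u| ≤ 1) (hv : |v| ≤ 1) (huv : 1 ≤ u - v) :
    Tendsto (fun n : ℕ => ((Bad u v n).card : ℝ) / 2 ^ (n * n)) atTop (𝓝 0) := by
  have hcast : Tendsto (fun n : ℕ => (n : ℝ)) atTop atTop := tendsto_natCast_atTop_atTop
  -- eventual inequalities
  have ev1 : ∀ᶠ n : ℕ in atTop, Real.log n ≤ (n : ℝ) ^ ((1 : ℝ) / 8) := by
    have := (isLittleO_log_rpow_atTop (r := 1 / 8) (by norm_num)).bound (c := 1) (by norm_num)
    have h2 := hcast.eventually this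
    filter_upwards [h2, eventually_ge_atTop 1] with n hn hn1
    rw [one_mul] at hn
    have h3 : (0 : ℝ) ≤ (n : ℝ) ^ ((1 : ℝ) / 8) := by positivity
    rw [Real.norm_of_nonneg h3] at hn
    exact (le_abs_self _).trans hn
  have ev2 : ∀ᶠ n : ℕ in atTop, (100 : ℝ) ≤ (n : ℝ) ^ ((1 : ℝ) / 8) :=
    ((tendsto_rpow_atTop (by norm_num : (0 : ℝ) < 1 / 8)).comp hcast).eventually_ge_atTop 100
  have lim1 : Tendsto (fun n : ℕ => 3 * Real.exp (-(n : ℝ) / 4) + (n : ℝ) ^ (-((1 : ℝ) / 8))) atTop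
      (𝓝 0) := by
    have h1 : Tendsto (fun n : ℕ => Real.exp (-(n : ℝ) / 4)) atTop (𝓝 0) := by
      refine Real.tendsto_exp_atBot.comp ?_
      have : Tendsto (fun n : ℕ => (n : ℝ) / 4) atTop atTop := hcast.atTop_div_const (by norm_num)
      have h2 := tendsto_neg_atTop_atBot.comp this
      refine h2.congr fun n => ?_
      simp [neg_div]
    have h2 : Tendsto (fun n : ℕ => (n : ℝ) ^ (-((1 : ℝ) / 8))) atTop (𝓝 0) :=
      (tendsto_rpow_neg_atTop (by norm_num : (0 : ℝ) < 1 / 8)).comp hcast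
    simpa using (h1.const_mul 3).add h2
  refine squeeze_zero' (Eventually.of_forall fun n => by positivity) ?_ lim1
  filter_upwards [ev1, ev2, eventually_ge_atTop 1] with n h1 h2 hn
  have hn0 : (0 : ℝ) < n := by exact_mod_cast hn
  have hn1 : (1 : ℝ) ≤ n := by exact_mod_cast hn
  set y : ℝ := (n : ℝ) ^ ((1 : ℝ) / 8) with hy
  have hy0 : 0 < y := by linarith
  have hy8 : y ^ 8 = n := by
    rw [hy, ← Real.rpow_natCast, ← Real.rpow_mul hn0.le]; norm_num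
  have hy6 : (n : ℝ) ^ ((3 : ℝ) / 4) = y ^ 6 := by
    rw [hy, ← Real.rpow_natCast, ← Real.rpow_mul hn0.le]; norm_num
  set m := ⌊y ^ 6⌋₊ with hm
  have hmle : (m : ℝ) ≤ y ^ 6 := Nat.floor_le (by positivity)
  have hmge : y ^ 6 < m + 1 := Nat.lt_floor_add_one _
  have hy6' : (2 : ℝ) ≤ y ^ 6 := by
    have : (1 : ℝ) ≤ y := by linarith
    calc (2 : ℝ) ≤ y := by linarith
      _ ≤ y ^ 6 := le_self_pow₀ this (by norm_num)
  have hm1 : 1 ≤ m := by
    have : (0 : ℝ) < m := by linarith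
    exact_mod_cast this
  have h2m : 2 * m ≤ n := by
    have : 2 * (m : ℝ) ≤ n := by
      rw [← hy8]
      have : y ^ 8 = y ^ 2 * y ^ 6 := by ring
      rw [this]
      have h2y : (2 : ℝ) ≤ y ^ 2 := by nlinarith
      calc 2 * (m : ℝ) ≤ 2 * y ^ 6 := by linarith
        _ ≤ _ := mul_le_mul_of_nonneg_right h2y (by positivity)
    exact_mod_cast this
  refine (Bad_real u v hu hv huv n hn m hm1 h2m).trans ?_
  refine add_le_add (mul_le_mul_of_nonneg_left ?_ (by norm_num)) ?_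
  · -- exponential term
    have hlog17 : Real.log 17 ≤ 3 := by
      rw [Real.log_le_iff_le_exp (by norm_num)]
      have e4 : (2.7 : ℝ) ≤ Real.exp 1 := by linarith [Real.exp_one_gt_d9]
      calc (17 : ℝ) ≤ 2.7 ^ 3 := by norm_num
        _ ≤ (Real.exp 1) ^ 3 := pow_le_pow_left₀ (by norm_num) e4 3
        _ = _ := by rw [← Real.exp_nat_mul]; norm_num
    have hpos : (0 : ℝ) < n * ((17 * (n : ℝ) ^ 2) ^ (2 * m) / 2 ^ n) := by positivity
    rw [← Real.log_le_iff_le_exp hpos]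
    rw [Real.log_mul (by positivity) (by positivity), Real.log_div (by positivity) (by positivity),
      Real.log_pow, Real.log_pow, Real.log_mul (by norm_num) (by positivity), Real.log_pow]
    push_cast
    have hl2 := Real.log_two_gt_d9
    have hlogn : 0 ≤ Real.log n := Real.log_nonneg hn1
    have e5 : 2 * (m : ℝ) * (Real.log 17 + 2 * Real.log n) ≤ 2 * y ^ 6 * (3 + 2 * y) := by
      refine mul_le_mul (by linarith) (by linarith) (by positivity) (by positivity)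
    have e6 : 2 * y ^ 6 * (3 + 2 * y) + y ≤ 5 * y ^ 7 := by
      have h7 : y ^ 7 = y * y ^ 6 := by ring
      have h8 : y ≤ y ^ 6 := le_self_pow₀ (by linarith) (by norm_num)
      nlinarith [pow_pos hy0 6]
    have e7 : 5 * y ^ 7 ≤ (1 / 20) * n := by
      rw [← hy8]
      have : y ^ 8 = y * y ^ 7 := by ring
      rw [this]
      nlinarith [pow_pos hy0 7]
    nlinarith
  · -- polynomial term
    have e1 : y ^ 6 ≤ 2 * m := by linarith
    have e2 : y ^ 3 ≤ Real.sqrt (2 * m + 1) := by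
      apply Real.le_sqrt_of_sq_le
      calc (y ^ 3) ^ 2 = y ^ 6 := by ring
        _ ≤ _ := by linarith
    have e3 : (n : ℝ) ^ (-((1 : ℝ) / 8)) = y⁻¹ := by
      rw [hy, Real.rpow_neg hn0.le]
    rw [e3]
    calc (n : ℝ) / (2 * m) / Real.sqrt (2 * m + 1) ≤ n / y ^ 6 / y ^ 3 := by
          refine div_le_div₀ (by positivity) ?_ (by positivity) e2
          exact div_le_div_of_nonneg_left hn0.le (by positivity) e1
      _ = y⁻¹ := by rw [← hy8]; field_simp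

end Pool.Agent.N602.RR
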