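import Mathlib

/-! # Random matrices with independent entries of bounded density -/

set_option autoImplicit false

namespace Pool.Agent.N602.RR

open MeasureTheory Matrix Filter Topology
open scoped ENNReal

/-- one entry: an affine function of one coordinate -/
theorem one_entry {ι : Type} [Fintype ι] [DecidableEq ι] (μ : Measure ℝ) [IsProbabilityMeasure μ]
    (hμ : ∀ a b : ℝ, μ (Set.Icc a b) ≤ ENNReal.ofReal (b - a)) (k : ι) (c d : (ι → ℝ) → ℝ)
    (hc : Measurable c) (hd : Measurable d) (hcu : ∀ ω x, c (Function.update ω k x) = c ω)
    (hdu : ∀ ω x, d (Function.update ω k x) = d ω) (t : ℝ) :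
    Measure.pi (fun _ : ι => μ) {ω | c ω ≠ 0 ∧ |c ω * ω k + d ω| ≤ t * |c ω|} ≤
      ENNReal.ofReal (2 * t) := by
  set S : Set (ι → ℝ) := {ω | c ω ≠ 0 ∧ |c ω * ω k + d ω| ≤ t * |c ω|} with hS
  have hSm : MeasurableSet S := by
    refine MeasurableSet.inter ?_ ?_
    · exact (hc (measurableSet_singleton 0)).compl
    · exact measurableSet_le (((hc.mul (measurable_pi_apply k)).add hd).abs) (hc.abs.const_mul t)
  have h1 : ∫⁻ ω, S.indicator (fun _ => (1 : ℝ≥0∞)) ω ∂Measure.pi (fun _ : ι => μ) ≤
      ∫⁻ _ω, ENNReal.ofReal (2 * t) ∂Measure.pi (fun _ : ι => μ) := by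
    refine lintegral_le_of_lmarginal_le (s := {k}) (measurable_const.indicator hSm)
      measurable_const ?_
    intro ω
    rw [lmarginal_singleton, lmarginal_singleton]
    simp only [lintegral_const, measure_univ, mul_one]
    by_cases h0 : c ω = 0
    · have : ∀ x, S.indicator (fun _ => (1 : ℝ≥0∞)) (Function.update ω k x) = 0 := by
        intro x
        rw [Set.indicator_of_notMem]
        intro hx
        exact hx.1 (by rw [hcu, h0])
      simp [this]
    · have h2 : ∀ x, S.indicator (fun _ => (1 : ℝ≥0∞)) (Function.update ω k x) =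
          (Set.Icc (-(d ω / c ω) - t) (-(d ω / c ω) + t)).indicator (fun _ => (1 : ℝ≥0∞)) x := by
        intro x
        have h3 : Function.update ω k x ∈ S ↔ x ∈ Set.Icc (-(d ω / c ω) - t) (-(d ω / c ω) + t) := by
          simp only [hS, Set.mem_setOf_eq, hcu, hdu, Function.update_self]
          have e1 : c ω * x + d ω = c ω * (x + d ω / c ω) := by field_simp
          rw [e1, abs_mul, mul_comm t]
          have h4 : 0 < |c ω| := abs_pos.mpr h0
          constructor
          · rintro ⟨_, h5⟩
            have h6 := le_of_mul_le_mul_left h5 h4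
            have h7 := abs_le.mp h6
            constructor <;> linarith
          · rintro ⟨h5, h6⟩
            refine ⟨h0, mul_le_mul_of_nonneg_left ?_ h4.le⟩
            rw [abs_le]; constructor <;> linarith
        by_cases h8 : Function.update ω k x ∈ S
        · rw [Set.indicator_of_mem h8, Set.indicator_of_mem (h3.mp h8)]
        · rw [Set.indicator_of_notMem h8, Set.indicator_of_notMem (fun h => h8 (h3.mpr h))]
      simp only [h2]
      rw [lintegral_indicator measurableSet_Icc]
      simp only [lintegral_const, one_mul, Measure.restrict_apply MeasurableSet.univ,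
        Set.univ_inter]
      refine (hμ _ _).trans (le_of_eq ?_)
      congr 1; ring
  rw [lintegral_indicator hSm] at h1
  simpa using h1

/-- the matrix of a family of entries -/
def toMat (n : ℕ) (ω : Fin n × Fin n → ℝ) : Matrix (Fin n) (Fin n) ℝ := fun i j => ω (i, j)

theorem measurable_det {ι : Type} (k : ℕ) (M : (ι → ℝ) → Matrix (Fin k) (Fin k) ℝ)
    (hM : ∀ i j, Measurable fun ω => M ω i j) : Measurable fun ω => (M ω).det := by
  simp only [Matrix.det_apply]
  refine Finset.measurable_sum _ fun σ _ => ?_
  refine Measurable.const_smul ?_ _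
  exact Finset.measurable_prod _ fun i _ => hM _ _

theorem det_affine (k : ℕ) (A : Matrix (Fin k) (Fin k) ℝ) (i j : Fin k) :
    A.det = A.adjugate j i * A i j + (A.updateRow i (Function.update (A i) j 0)).det := by
  have h1 := Matrix.det_eq_sum_mul_adjugate_row A i
  have h2 := Matrix.det_eq_sum_mul_adjugate_row (A.updateRow i (Function.update (A i) j 0)) i
  have h3 : ∀ l, (A.updateRow i (Function.update (A i) j 0)).adjugate l i = A.adjugate l i := by
    intro l
    rw [Matrix.adjugate_apply, Matrix.adjugate_apply]
    congr 1
    ext a b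
    by_cases ha : a = i
    · subst ha; simp
    · simp [ha]
  simp only [h3, Matrix.updateRow_self] at h2
  rw [h1, h2, ← Finset.add_sum_erase _ _ (Finset.mem_univ j),
    ← Finset.add_sum_erase Finset.univ (fun l => Function.update (A i) j 0 l * A.adjugate l i)
      (Finset.mem_univ j)]
  rw [Function.update_self, zero_mul, zero_add, mul_comm (A i j)]
  congr 1
  refine Finset.sum_congr rfl fun l hl => ?_
  rw [Function.update_of_ne (Finset.ne_of_mem_erase hl)]

/-- the probability that an entry of the inverse is large -/
theorem prob_adj (μ : Measure ℝ) [IsProbabilityMeasure μ]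
    (hμ : ∀ a b : ℝ, μ (Set.Icc a b) ≤ ENNReal.ofReal (b - a)) (n : ℕ) (i j : Fin n) (t : ℝ) :
    Measure.pi (fun _ : Fin n × Fin n => μ)
      {ω | (toMat n ω).adjugate j i ≠ 0 ∧ |(toMat n ω).det| ≤ t * |(toMat n ω).adjugate j i|} ≤
      ENNReal.ofReal (2 * t) := by
  have hadj : ∀ (ω : Fin n × Fin n → ℝ) (x : ℝ) (l : Fin n),
      (toMat n (Function.update ω (i, j) x)).adjugate l i = (toMat n ω).adjugate l i := by
    intro ω x l
    rw [Matrix.adjugate_apply, Matrix.adjugate_apply]
    congr 1
    ext a b
    by_cases ha : a = i
    · subst ha; simp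
    · rw [Matrix.updateRow_ne ha, Matrix.updateRow_ne ha]
      simp only [toMat]
      rw [Function.update_of_ne]
      intro h
      exact ha (congrArg Prod.fst h)
  have hrow : ∀ ω : Fin n × Fin n → ℝ,
      (toMat n ω).updateRow i (Function.update (toMat n ω i) j 0) =
        toMat n (Function.update ω (i, j) 0) := by
    intro ω
    ext a b
    by_cases ha : a = i
    · subst ha
      rw [Matrix.updateRow_self]
      by_cases hb : b = j
      · subst hb; simp [toMat]
      · rw [Function.update_of_ne hb]
        simp only [toMat]
        rw [Function.update_of_ne]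
        intro h
        exact hb (congrArg Prod.snd h)
    · rw [Matrix.updateRow_ne ha]
      simp only [toMat]
      rw [Function.update_of_ne]
      intro h
      exact ha (congrArg Prod.fst h)
  have hmeas : ∀ (l : Fin n), Measurable fun ω : Fin n × Fin n → ℝ => (toMat n ω).adjugate l i := by
    intro l
    simp only [Matrix.adjugate_apply]
    refine measurable_det n _ fun a b => ?_
    by_cases ha : a = i
    · subst ha; simp
    · simp only [Matrix.updateRow_ne ha]
      exact measurable_pi_apply _
  have hd : Measurable fun ω : Fin n × Fin n → ℝ => (toMat n (Function.update ω (i, j) 0)).det := by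
    refine measurable_det n _ fun a b => ?_
    simp only [toMat]
    by_cases h : (a, b) = (i, j)
    · rw [h]; simp
    · simp only [Function.update_of_ne h]
      exact measurable_pi_apply _
  have h := one_entry μ hμ (i, j) (fun ω => (toMat n ω).adjugate j i)
    (fun ω => (toMat n (Function.update ω (i, j) 0)).det) (hmeas j) hd (fun ω x => hadj ω x j)
    (fun ω x => by simp) t
  refine le_trans (measure_mono ?_) h
  intro ω hω
  refine ⟨hω.1, ?_⟩
  have h1 := det_affine n (toMat n ω) i j
  rw [hrow] at h1
  show |(toMat n ω).adjugate j i * ω (i, j) + (toMat n (Function.update ω (i, j) 0)).det| ≤ _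
  have h2 : (toMat n ω).adjugate j i * ω (i, j) + (toMat n (Function.update ω (i, j) 0)).det =
      (toMat n ω).det := h1.symm
  rw [h2]
  exact hω.2

/-- the leading minors -/
def lead (n k : ℕ) (hk : k ≤ n) (ω : Fin n × Fin n → ℝ) : Matrix (Fin k) (Fin k) ℝ :=
  fun a b => ω (Fin.castLE hk a, Fin.castLE hk b)

theorem prob_lead (μ : Measure ℝ) [IsProbabilityMeasure μ]
    (hμ : ∀ a b : ℝ, μ (Set.Icc a b) ≤ ENNReal.ofReal (b - a)) (n k : ℕ) (hk : k ≤ n) :
    Measure.pi (fun _ : Fin n × Fin n => μ) {ω | (lead n k hk ω).det = 0} = 0 := by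
  induction k with
  | zero =>
    have : {ω : Fin n × Fin n → ℝ | (lead n 0 hk ω).det = 0} = ∅ := by
      ext ω; simp
    rw [this]; simp
  | succ k ih =>
    have hk' : k ≤ n := by omega
    set e : Fin n × Fin n := (⟨k, hk⟩, ⟨k, hk⟩) with he
    have hcast : ∀ a : Fin (k + 1), Fin.castLE hk a = ⟨k, hk⟩ ↔ a = Fin.last k := by
      intro a
      rw [Fin.ext_iff, Fin.ext_iff]
      simp
    have hadj : ∀ ω, (lead n (k + 1) hk ω).adjugate (Fin.last k) (Fin.last k) =
        (lead n k hk' ω).det := by
      intro ω
      rw [Matrix.adjugate_fin_succ_eq_det_submatrix]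
      simp only [Fin.val_last, Even.neg_pow (Even.add_self k), one_pow, one_mul]
      congr 1
      ext a b
      simp [lead]
    have hupd : ∀ (ω : Fin n × Fin n → ℝ) (x : ℝ),
        lead n k hk' (Function.update ω e x) = lead n k hk' ω := by
      intro ω x
      ext a b
      simp only [lead]
      rw [Function.update_of_ne]
      intro h
      have h1 := congrArg (fun p : Fin n × Fin n => (p.1 : ℕ)) h
      simp only [he, Fin.val_castLE] at h1
      have := a.2
      omega
    have hrow : ∀ ω : Fin n × Fin n → ℝ,
        (lead n (k + 1) hk ω).updateRow (Fin.last k)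
          (Function.update (lead n (k + 1) hk ω (Fin.last k)) (Fin.last k) 0) =
        lead n (k + 1) hk (Function.update ω e 0) := by
      intro ω
      ext a b
      by_cases ha : a = Fin.last k
      · subst ha
        rw [Matrix.updateRow_self]
        by_cases hb : b = Fin.last k
        · subst hb
          rw [Function.update_self]
          simp only [lead]
          have : ((Fin.castLE hk (Fin.last k), Fin.castLE hk (Fin.last k)) : Fin n × Fin n) = e := by
            rw [he, (hcast _).mpr rfl]
          rw [this, Function.update_self]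
        · rw [Function.update_of_ne hb]
          simp only [lead]
          rw [Function.update_of_ne]
          intro h
          exact hb ((hcast b).mp (congrArg Prod.snd h))
      · rw [Matrix.updateRow_ne ha]
        simp only [lead]
        rw [Function.update_of_ne]
        intro h
        exact ha ((hcast a).mp (congrArg Prod.fst h))
    have hm1 : Measurable fun ω : Fin n × Fin n → ℝ => (lead n k hk' ω).det :=
      measurable_det k _ fun a b => measurable_pi_apply _
    have hm2 : Measurable fun ω : Fin n × Fin n → ℝ =>
        (lead n (k + 1) hk (Function.update ω e 0)).det := by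
      refine measurable_det (k + 1) _ fun a b => ?_
      simp only [lead]
      by_cases h : ((Fin.castLE hk a, Fin.castLE hk b) : Fin n × Fin n) = e
      · rw [h]; simp
      · simp only [Function.update_of_ne h]
        exact measurable_pi_apply _
    have h := one_entry μ hμ e (fun ω => (lead n k hk' ω).det)
      (fun ω => (lead n (k + 1) hk (Function.update ω e 0)).det) hm1 hm2
      (fun ω x => by simp only [hupd]) (fun ω x => by simp) 0
    simp only [mul_zero, ENNReal.ofReal_zero, nonpos_iff_eq_zero] at h
    refine measure_mono_null (t := {ω | (lead n k hk' ω).det = 0} ∪ _) ?_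
      (measure_union_null (ih hk') h)
    intro ω hω
    by_cases h0 : (lead n k hk' ω).det = 0
    · left; exact h0
    · right
      refine ⟨h0, ?_⟩
      have h1 := det_affine (k + 1) (lead n (k + 1) hk ω) (Fin.last k) (Fin.last k)
      rw [hrow, hadj] at h1
      have h2 : lead n (k + 1) hk ω (Fin.last k) (Fin.last k) = ω e := by
        simp only [lead]
        rw [(hcast _).mpr rfl]
      rw [h2] at h1
      have h3 : (lead n (k + 1) hk ω).det = 0 := hω
      rw [h3] at h1
      show |(lead n k hk' ω).det * ω e + (lead n (k + 1) hk (Function.update ω e 0)).det| ≤ _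
      rw [← h1]; simp

theorem prob_det (μ : Measure ℝ) [IsProbabilityMeasure μ]
    (hμ : ∀ a b : ℝ, μ (Set.Icc a b) ≤ ENNReal.ofReal (b - a)) (n : ℕ) :
    Measure.pi (fun _ : Fin n × Fin n => μ) {ω | (toMat n ω).det = 0} = 0 :=
  prob_lead μ hμ n n le_rfl

end Pool.Agent.N602.RR
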