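import Pool.Agent.N602.RR.Final1
import Pool.Agent.N602.RR.Disc4
import Pool.Agent.N602.RR.Gaus

/-! # Random matrices are well conditioned -/

set_option autoImplicit false

namespace Pool.Agent.N602.RR

open Matrix MeasureTheory Filter Topology ProbabilityTheory
open scoped ENNReal

theorem exists_sv_vec {n : ℕ} (A : Matrix (Fin n) (Fin n) ℝ) (i : Fin n) :
    ∃ v : Fin n → ℝ, nn v = 1 ∧ nn (A *ᵥ v) = sv A i := by
  set T := Matrix.toEuclideanLin A with hT
  have hn : Module.finrank ℝ (EuclideanSpace ℝ (Fin n)) = n := by simp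
  set hS := T.isSymmetric_adjoint_comp_self
  set B := hS.eigenvectorBasis hn with hB
  refine ⟨(B i).ofLp, ?_, ?_⟩
  · rw [nn_eq]
    exact B.norm_eq_one i
  · rw [nn_mulVec]
    have h1 : ‖T (B i)‖ ^ 2 = sv A i ^ 2 := by
      have h2 : ‖T (B i)‖ ^ 2 = inner ℝ (B i) ((LinearMap.adjoint T ∘ₗ T) (B i)) := by
        rw [LinearMap.comp_apply, LinearMap.adjoint_inner_right, real_inner_self_eq_norm_sq]
      rw [h2, hB, hS.apply_eigenvectorBasis hn i, ← hB]
      have h3 := T.sq_singularValues_fin hn i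
      simp only [sv]
      rw [← hT, h3, inner_smul_right, real_inner_self_eq_norm_sq, B.norm_eq_one i]
      simp
    have h4 : (0 : ℝ) ≤ ‖T (B i)‖ := norm_nonneg _
    exact (pow_left_inj₀ h4 (sv_nonneg A i) (by norm_num)).mp h1

theorem cond_bound {n : ℕ} (hn : 1 ≤ n) (A : Matrix (Fin n) (Fin n) ℝ) (σ c : ℝ) (hσ : 0 < σ)
    (hl : ∀ v, σ * nn v ≤ nn (A *ᵥ v)) (hA : OB A c) : IsUnit A ∧ condN A ≤ c / σ := by
  have hinj : Function.Injective A.mulVec := by
    intro v w hvw
    have h1 := hl (v - w)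
    rw [mulVec_sub, show A.mulVec v = A.mulVec w from hvw, sub_self, nn_zero] at h1
    have h2 : nn (v - w) = 0 := by
      have := nn_nonneg (v - w)
      nlinarith
    exact sub_eq_zero.mp (nn_eq_zero h2)
  have hU : IsUnit A := mulVec_injective_iff_isUnit.mp hinj
  refine ⟨hU, ?_⟩
  obtain ⟨v, hv1, hv2⟩ := exists_sv_vec A ⟨0, by omega⟩
  obtain ⟨w, hw1, hw2⟩ := exists_sv_vec A ⟨n - 1, by omega⟩
  have h1 : sv A 0 ≤ c := by
    have := hA v
    rw [hv1, hv2, mul_one] at this
    exact this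
  have h2 : σ ≤ sv A (n - 1) := by
    have := hl w
    rw [hw1, hw2, mul_one] at this
    exact this
  unfold condN
  exact div_le_div₀ ((sv_nonneg A 0).trans h1) h1 hσ h2

/-- the good set -/
def Good (n : ℕ) : Set (Matrix (Fin n) (Fin n) ℝ) :=
  {A | 2 ≤ n ∧ IsUnit A ∧ condN A ≤ (n : ℝ) ^ 13}

/-- matrices that are not in the bad set are well conditioned -/
theorem good_of_not_bad (u v : ℝ) (hu : |u| ≤ 1) (hv : |v| ≤ 1) {n : ℕ} (hn : 2 ≤ n)
    (M : Fin n → (Fin n → Bool)) (hM : M ∉ Bad u v n) :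
    (fun i j => bv u v (M i j) : Matrix (Fin n) (Fin n) ℝ) ∈ Good n := by
  classical
  set A : Matrix (Fin n) (Fin n) ℝ := fun i j => bv u v (M i j) with hA
  have hn0 : (0 : ℝ) < n := by exact_mod_cast (by omega : 0 < n)
  have hn2 : (2 : ℝ) ≤ n := by exact_mod_cast hn
  have hOB : OB A (n * 1) := OB_entry A 1 (by norm_num) fun i j => bv_abs u v hu hv _
  have hlow : ∀ x : Fin n → ℝ, 1 / (200 * (n : ℝ) ^ 3) / n * nn x ≤ nn (A *ᵥ x) := by
    intro x
    by_cases hx0 : x = 0
    · subst hx0; simp [nn_zero]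
    · have hxn : 0 < ‖x‖ := norm_pos_iff.mpr hx0
      have : Nonempty (Fin n) := ⟨⟨0, by omega⟩⟩
      obtain ⟨i0, hi0⟩ : ∃ i0, |x i0| = ‖x‖ := by
        obtain ⟨i0, _, hi0⟩ := Finset.exists_max_image (Finset.univ : Finset (Fin n))
          (fun i => |x i|) ⟨⟨0, by omega⟩, Finset.mem_univ _⟩
        refine ⟨i0, le_antisymm (norm_le_pi_norm x i0) ?_⟩
        rw [pi_norm_le_iff_of_nonneg (abs_nonneg _)]
        exact fun i => hi0 i (Finset.mem_univ i)
      have hUn : Un (fun i => x i / ‖x‖) := by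
        refine ⟨⟨i0, ?_⟩, fun i => ?_⟩
        · rw [abs_div, abs_of_pos hxn, hi0, div_self hxn.ne']
        · rw [abs_div, abs_of_pos hxn, div_le_one hxn]
          exact norm_le_pi_norm x i
      obtain ⟨i, hi⟩ : ∃ i, 1 / (200 * (n : ℝ) ^ 3) < |lf u v (fun i => x i / ‖x‖) (M i)| := by
        by_contra hcon
        push Not at hcon
        apply hM
        simp only [Bad, Finset.mem_filter, Finset.mem_univ, true_and]
        exact ⟨_, hUn, hcon⟩
      have h1 : lf u v (fun i => x i / ‖x‖) (M i) = (A *ᵥ x) i / ‖x‖ := by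
        unfold lf
        rw [mulVec, dotProduct, Finset.sum_div]
        refine Finset.sum_congr rfl fun k _ => ?_
        simp only [hA]; ring
      rw [h1, abs_div, abs_of_pos hxn, lt_div_iff₀ hxn] at hi
      have h2 : nn x ≤ n * ‖x‖ := by
        have h3 : nn x ^ 2 ≤ (n * ‖x‖) ^ 2 := by
          rw [nn_sq]
          calc ∑ i, x i ^ 2 ≤ ∑ _i : Fin n, ‖x‖ ^ 2 := Finset.sum_le_sum fun i _ => by
                rw [← sq_abs]
                exact pow_le_pow_left₀ (abs_nonneg _) (norm_le_pi_norm x i) 2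
            _ = n * ‖x‖ ^ 2 := by simp
            _ ≤ _ := by
                rw [mul_pow]
                refine mul_le_mul_of_nonneg_right ?_ (by positivity)
                nlinarith
        exact (le_abs_self _).trans (abs_le_of_sq_le_sq h3 (by positivity))
      calc 1 / (200 * (n : ℝ) ^ 3) / n * nn x ≤ 1 / (200 * (n : ℝ) ^ 3) / n * (n * ‖x‖) :=
            mul_le_mul_of_nonneg_left h2 (by positivity)
        _ = 1 / (200 * (n : ℝ) ^ 3) * ‖x‖ := by field_simp
        _ ≤ |(A *ᵥ x) i| := hi.le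
        _ ≤ nn (A *ᵥ x) := abs_le_nn _ i
  obtain ⟨h1, h2⟩ := cond_bound (by omega) A _ _ (by positivity) hlow hOB
  refine ⟨hn, h1, h2.trans ?_⟩
  have h3 : (n : ℝ) * 1 / (1 / (200 * (n : ℝ) ^ 3) / n) = 200 * n ^ 5 := by field_simp
  rw [h3]
  have h4 : (200 : ℝ) ≤ (n : ℝ) ^ 8 := by
    calc (200 : ℝ) ≤ 2 ^ 8 := by norm_num
      _ ≤ _ := pow_le_pow_left₀ (by norm_num) hn2 8
  calc 200 * (n : ℝ) ^ 5 ≤ n ^ 8 * n ^ 5 := mul_le_mul_of_nonneg_right h4 (by positivity)
    _ = _ := by ring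

/-- from small complements to probability tending to one -/
theorem tendsto_of_compl {Ω : ℕ → Type} [∀ n, MeasurableSpace (Ω n)] (P : ∀ n, Measure (Ω n))
    [∀ n, IsProbabilityMeasure (P n)] (S : ∀ n, Set (Ω n))
    (h : Tendsto (fun n => P n (S n)ᶜ) atTop (𝓝 0)) : Tendsto (fun n => P n (S n)) atTop (𝓝 1) := by
  have h1 : Tendsto (fun n => 1 - P n (S n)ᶜ) atTop (𝓝 (1 - 0)) :=
    ENNReal.Tendsto.sub tendsto_const_nhds h (Or.inl ENNReal.one_ne_top)
  rw [tsub_zero] at h1
  refine tendsto_of_tendsto_of_tendsto_of_le_of_le h1 tendsto_const_nhds (fun n => ?_)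
    (fun n => prob_le_one)
  show 1 - P n (S n)ᶜ ≤ P n (S n)
  rw [tsub_le_iff_right]
  calc (1 : ℝ≥0∞) = P n Set.univ := measure_univ.symm
    _ = P n (S n ∪ (S n)ᶜ) := by rw [Set.union_compl_self]
    _ ≤ _ := measure_union_le _ _

/-! ### the two-valued ensembles -/

/-- a fair bit -/
noncomputable def bit : Measure Bool :=
  (1 / 2 : ℝ≥0∞) • Measure.dirac true + (1 / 2 : ℝ≥0∞) • Measure.dirac false

instance : IsProbabilityMeasure bit := ⟨by
  simp [bit, ENNReal.inv_two_add_inv_two]⟩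

theorem bit_singleton (b : Bool) : bit {b} = 1 / 2 := by
  cases b <;> simp [bit]

/-- the uniform law on `{u, v}` -/
noncomputable def twoPt (u v : ℝ) : Measure ℝ :=
  (1 / 2 : ℝ≥0∞) • Measure.dirac u + (1 / 2 : ℝ≥0∞) • Measure.dirac v

theorem twoPt_eq (u v : ℝ) : twoPt u v = bit.map (bv u v) := by
  have hm : Measurable (bv u v) := measurable_of_finite _
  unfold twoPt bit
  rw [Measure.map_add _ _ hm, Measure.map_smul, Measure.map_smul, Measure.map_dirac' hm,
    Measure.map_dirac' hm]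
  simp [bv]

instance (u v : ℝ) : IsProbabilityMeasure (twoPt u v) := by
  rw [twoPt_eq]
  exact Measure.isProbabilityMeasure_map (measurable_of_finite _).aemeasurable

theorem pi_bit {ι : Type} [Fintype ι] [DecidableEq ι] (F : Finset (ι → Bool)) :
    Measure.pi (fun _ : ι => bit) (F : Set (ι → Bool)) = F.card * (1 / 2) ^ (Fintype.card ι) := by
  rw [← MeasureTheory.sum_measure_singleton]
  rw [Finset.sum_congr rfl fun x _ => by
    rw [Measure.pi_singleton, Finset.prod_congr rfl fun i _ => bit_singleton (x i)]]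
  simp [Finset.card_univ]

theorem two_valued (u v : ℝ) (hu : |u| ≤ 1) (hv : |v| ≤ 1) (huv : 1 ≤ u - v) :
    Tendsto (fun n : ℕ => Measure.pi (fun _ : Fin n × Fin n => twoPt u v)
      {ω | toMat n ω ∈ Good n}ᶜ) atTop (𝓝 0) := by
  classical
  have hlim : Tendsto (fun n : ℕ => ENNReal.ofReal (((Bad u v n).card : ℝ) / 2 ^ (n * n))) atTop
      (𝓝 0) := by
    have := ENNReal.tendsto_ofReal (Bad_lim u v hu hv huv)
    simpa using this
  refine tendsto_of_tendsto_of_tendsto_of_le_of_le' tendsto_const_nhds hlim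
    (Eventually.of_forall fun n => zero_le) ?_
  filter_upwards [eventually_ge_atTop 2] with n hn
  let G : (Fin n × Fin n → Bool) → (Fin n × Fin n → ℝ) := fun ω p => bv u v (ω p)
  have hpi : Measure.pi (fun _ : Fin n × Fin n => twoPt u v) =
      (Measure.pi (fun _ : Fin n × Fin n => bit)).map G := by
    rw [twoPt_eq]
    exact (Measure.pi_map_pi (fun _ => (measurable_of_finite _).aemeasurable)).symm
  let F : Finset (Fin n × Fin n → Bool) := Finset.univ.filter fun ω =>
    (fun i j => ω (i, j)) ∈ Bad u v n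
  have hsub : {ω | toMat n ω ∈ Good n}ᶜ ⊆ (G '' {ω | ω ∉ F})ᶜ := by
    intro ω hω hω'
    obtain ⟨M, hM, rfl⟩ := hω'
    apply hω
    have h1 : (fun i j => M (i, j)) ∉ Bad u v n := fun h => hM (by simp [F, h])
    exact good_of_not_bad u v hu hv hn _ h1
  have hfin : MeasurableSet (G '' {ω | ω ∉ F}) := ((Set.toFinite _).image G).measurableSet
  rw [hpi]
  calc _ ≤ (Measure.pi (fun _ : Fin n × Fin n => bit)).map G (G '' {ω | ω ∉ F})ᶜ :=
        measure_mono hsub
    _ = Measure.pi (fun _ : Fin n × Fin n => bit) (G ⁻¹' (G '' {ω | ω ∉ F})ᶜ) :=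
        Measure.map_apply (measurable_of_finite _) hfin.compl
    _ ≤ Measure.pi (fun _ : Fin n × Fin n => bit) (F : Set (Fin n × Fin n → Bool)) := by
        refine measure_mono ?_
        intro ω hω
        by_contra h
        exact hω ⟨ω, h, rfl⟩
    _ = F.card * (1 / 2) ^ (n * n) := by rw [pi_bit]; simp
    _ = (Bad u v n).card * (1 / 2) ^ (n * n) := by
        congr 2
        refine Finset.card_bij (fun ω _ i j => ω (i, j)) (fun ω hω => ?_) (fun ω _ ω' _ h => ?_)
          (fun M hM => ⟨fun p => M p.1 p.2, ?_, rfl⟩)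
        · simpa [F] using hω
        · funext p
          exact congrFun (congrFun h p.1) p.2
        · simpa [F] using hM
    _ = ENNReal.ofReal (((Bad u v n).card : ℝ) / 2 ^ (n * n)) := by
        rw [ENNReal.ofReal_div_of_pos (by positivity), ENNReal.ofReal_natCast,
          ENNReal.ofReal_pow (by norm_num), ENNReal.ofReal_ofNat, one_div, div_eq_mul_inv,
          ENNReal.inv_pow]

end Pool.Agent.N602.RR
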