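import Pool.Agent.N602.RR.Ens

/-! # Gaussian matrices are well conditioned, and the solver for residuals -/

set_option autoImplicit false

namespace Pool.Agent.N602.RR

open Matrix MeasureTheory Filter Topology ProbabilityTheory
open scoped ENNReal

theorem gauss_Icc (a b : ℝ) : gaussianReal 0 1 (Set.Icc a b) ≤ ENNReal.ofReal (b - a) := by
  rw [gaussianReal_apply 0 (by norm_num)]
  calc ∫⁻ x in Set.Icc a b, gaussianPDF 0 1 x ≤ ∫⁻ _x in Set.Icc a b, 1 := by
        refine lintegral_mono fun x => ?_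
        rw [gaussianPDF_def]
        rw [ENNReal.ofReal_le_one, gaussianPDFReal_def]
        have h1 : (1 : ℝ) ≤ Real.sqrt (2 * Real.pi * ((1 : NNReal) : ℝ)) := by
          rw [Real.one_le_sqrt]
          have := Real.pi_gt_three
          simp only [NNReal.coe_one, mul_one]
          linarith
        have h2 : (Real.sqrt (2 * Real.pi * ((1 : NNReal) : ℝ)))⁻¹ ≤ 1 := inv_le_one_of_one_le₀ h1
        have h3 : Real.exp (-(x - 0) ^ 2 / (2 * ((1 : NNReal) : ℝ))) ≤ 1 := by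
          rw [Real.exp_le_one_iff]
          simp only [NNReal.coe_one, mul_one]
          nlinarith [sq_nonneg (x - 0)]
        calc _ ≤ (1 : ℝ) * 1 := mul_le_mul h2 h3 (Real.exp_pos _).le (by norm_num)
          _ = 1 := by norm_num
    _ = ENNReal.ofReal (b - a) := by simp

theorem gauss_tail (c : ℝ) (hc : 0 < c) :
    gaussianReal 0 1 {x | c ≤ |x|} ≤ ENNReal.ofReal (1 / c ^ 2) := by
  have h := meas_ge_le_variance_div_sq (μ := gaussianReal 0 1) (X := id)
    (memLp_id_gaussianReal 2) hc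
  rw [variance_id_gaussianReal] at h
  have h2 : ∫ x, id x ∂(gaussianReal 0 1) = 0 := by
    simp
  rw [h2] at h
  simpa using h

/-- deterministic part for Gaussian matrices -/
theorem good_of_entries {n : ℕ} (hn : 2 ≤ n) (A : Matrix (Fin n) (Fin n) ℝ)
    (h1 : ∀ i j, |A i j| ≤ (n : ℝ) ^ 2) (h2 : A.det ≠ 0)
    (h3 : ∀ i j, A.adjugate j i = 0 ∨ 1 / (n : ℝ) ^ 3 * |A.adjugate j i| < |A.det|) :
    A ∈ Good n := by
  have hn0 : (0 : ℝ) < n := by exact_mod_cast (by omega : 0 < n)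
  have hn1 : (1 : ℝ) ≤ n := by exact_mod_cast (by omega : 1 ≤ n)
  have hOB : OB A (n * (n : ℝ) ^ 2) := OB_entry A _ (by positivity) h1
  have hinv : OB A⁻¹ (n * (n : ℝ) ^ 3) := by
    refine OB_entry _ _ (by positivity) fun j i => ?_
    rw [Matrix.inv_def, Matrix.smul_apply, Ring.inverse_eq_inv', smul_eq_mul, abs_mul, abs_inv]
    have hd : 0 < |A.det| := abs_pos.mpr h2
    rw [inv_mul_le_iff₀ hd]
    rcases h3 i j with h | h
    · rw [h]; simp; positivity
    · have h4 : |A.adjugate j i| = (n : ℝ) ^ 3 * (1 / (n : ℝ) ^ 3 * |A.adjugate j i|) := by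
        field_simp
      rw [h4, mul_comm |A.det|]
      exact mul_le_mul_of_nonneg_left h.le (by positivity)
  have hU : IsUnit A.det := isUnit_iff_ne_zero.mpr h2
  have hlow : ∀ v, 1 / (n * (n : ℝ) ^ 3) * nn v ≤ nn (A *ᵥ v) := by
    intro v
    have h4 := hinv (A *ᵥ v)
    rw [mulVec_mulVec, Matrix.nonsing_inv_mul _ hU, one_mulVec] at h4
    calc 1 / (n * (n : ℝ) ^ 3) * nn v ≤ 1 / (n * (n : ℝ) ^ 3) * (n * n ^ 3 * nn (A *ᵥ v)) :=
          mul_le_mul_of_nonneg_left h4 (by positivity)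
      _ = _ := by field_simp
  obtain ⟨h5, h6⟩ := cond_bound (by omega) A _ _ (by positivity) hlow hOB
  refine ⟨hn, h5, h6.trans ?_⟩
  have h7 : (n : ℝ) * n ^ 2 / (1 / (n * (n : ℝ) ^ 3)) = n ^ 7 := by field_simp
  rw [h7]
  exact pow_le_pow_right₀ hn1 (by norm_num)

theorem gaussian_good :
    Tendsto (fun n : ℕ => Measure.pi (fun _ : Fin n × Fin n => gaussianReal 0 1)
      {ω | toMat n ω ∈ Good n}ᶜ) atTop (𝓝 0) := by
  have hlim : Tendsto (fun n : ℕ => ENNReal.ofReal (3 / (n : ℝ))) atTop (𝓝 0) := by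
    have h1 : Tendsto (fun n : ℕ => (3 : ℝ) / n) atTop (𝓝 0) :=
      tendsto_const_div_atTop_nhds_zero_nat 3
    have := ENNReal.tendsto_ofReal h1
    simpa using this
  refine tendsto_of_tendsto_of_tendsto_of_le_of_le' tendsto_const_nhds hlim
    (Eventually.of_forall fun n => zero_le) ?_
  filter_upwards [eventually_ge_atTop 2] with n hn
  have hn0 : (0 : ℝ) < n := by exact_mod_cast (by omega : 0 < n)
  have hn1 : (1 : ℝ) ≤ n := by exact_mod_cast (by omega : 1 ≤ n)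
  set P := Measure.pi (fun _ : Fin n × Fin n => gaussianReal 0 1) with hP
  -- the bad events
  let B1 : Fin n × Fin n → Set (Fin n × Fin n → ℝ) := fun p => {ω | (n : ℝ) ^ 2 ≤ |ω p|}
  let B2 : Fin n × Fin n → Set (Fin n × Fin n → ℝ) := fun p =>
    {ω | (toMat n ω).adjugate p.2 p.1 ≠ 0 ∧
      |(toMat n ω).det| ≤ 1 / (n : ℝ) ^ 3 * |(toMat n ω).adjugate p.2 p.1|}
  let B3 : Set (Fin n × Fin n → ℝ) := {ω | (toMat n ω).det = 0}
  have hB1 : ∀ p, P (B1 p) ≤ ENNReal.ofReal (1 / (n : ℝ) ^ 4) := by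
    intro p
    have hm : MeasurableSet {x : ℝ | (n : ℝ) ^ 2 ≤ |x|} :=
      measurableSet_le measurable_const measurable_id.abs
    have h1 : P (B1 p) = gaussianReal 0 1 {x : ℝ | (n : ℝ) ^ 2 ≤ |x|} := by
      have h2 := (measurePreserving_eval (fun _ : Fin n × Fin n => gaussianReal 0 1) p).measure_preimage
        hm.nullMeasurableSet
      exact h2
    rw [h1]
    refine (gauss_tail _ (by positivity)).trans (le_of_eq ?_)
    congr 2; ring
  have hB2 : ∀ p, P (B2 p) ≤ ENNReal.ofReal (2 * (1 / (n : ℝ) ^ 3)) := fun p =>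
    prob_adj (gaussianReal 0 1) gauss_Icc n p.1 p.2 (1 / (n : ℝ) ^ 3)
  have hB3 : P B3 = 0 := prob_det (gaussianReal 0 1) gauss_Icc n
  have hsub : {ω | toMat n ω ∈ Good n}ᶜ ⊆ (⋃ p, B1 p) ∪ (⋃ p, B2 p) ∪ B3 := by
    intro ω hω
    by_contra hcon
    simp only [Set.mem_union, Set.mem_iUnion, not_or, not_exists] at hcon
    obtain ⟨⟨g1, g2⟩, g3⟩ := hcon
    apply hω
    refine good_of_entries hn _ (fun i j => ?_) g3 (fun i j => ?_)
    · have := g1 (i, j)
      exact (not_le.mp this).le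
    · by_cases h0 : (toMat n ω).adjugate j i = 0
      · left; exact h0
      · right
        by_contra h5
        exact g2 (i, j) ⟨h0, not_lt.mp h5⟩
  have hcard : (Finset.univ : Finset (Fin n × Fin n)).card = n * n := by simp
  calc P {ω | toMat n ω ∈ Good n}ᶜ ≤ P ((⋃ p, B1 p) ∪ (⋃ p, B2 p) ∪ B3) := measure_mono hsub
    _ ≤ P (⋃ p, B1 p) + P (⋃ p, B2 p) + P B3 :=
        (measure_union_le _ _).trans (add_le_add (measure_union_le _ _) le_rfl)
    _ ≤ (∑ p, P (B1 p)) + (∑ p, P (B2 p)) + 0 := by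
        rw [hB3]
        exact add_le_add (add_le_add (measure_iUnion_fintype_le _ _)
          (measure_iUnion_fintype_le _ _)) le_rfl
    _ ≤ (∑ _p : Fin n × Fin n, ENNReal.ofReal (1 / (n : ℝ) ^ 4)) +
        (∑ _p : Fin n × Fin n, ENNReal.ofReal (2 * (1 / (n : ℝ) ^ 3))) + 0 :=
        add_le_add (add_le_add (Finset.sum_le_sum fun p _ => hB1 p)
          (Finset.sum_le_sum fun p _ => hB2 p)) le_rfl
    _ = ENNReal.ofReal ((n * n : ℕ) * (1 / (n : ℝ) ^ 4) + (n * n : ℕ) * (2 * (1 / (n : ℝ) ^ 3))) := by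
        rw [Finset.sum_const, Finset.sum_const, hcard, add_zero, nsmul_eq_mul, nsmul_eq_mul,
          ENNReal.ofReal_add (by positivity) (by positivity),
          ENNReal.ofReal_mul (p := ((n * n : ℕ) : ℝ)) (q := 1 / (n : ℝ) ^ 4) (by positivity),
          ENNReal.ofReal_mul (p := ((n * n : ℕ) : ℝ)) (q := 2 * (1 / (n : ℝ) ^ 3)) (by positivity),
          ENNReal.ofReal_natCast]
    _ ≤ ENNReal.ofReal (3 / (n : ℝ)) := by
        refine ENNReal.ofReal_le_ofReal ?_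
        push_cast
        have e1 : (n : ℝ) * n * (1 / (n : ℝ) ^ 4) = 1 / n ^ 2 := by field_simp
        have e2 : (n : ℝ) * n * (2 * (1 / (n : ℝ) ^ 3)) = 2 / n := by field_simp
        rw [e1, e2]
        have e3 : 1 / (n : ℝ) ^ 2 ≤ 1 / n :=
          one_div_le_one_div_of_le hn0 (le_self_pow₀ hn1 (by norm_num))
        have e4 : 3 / (n : ℝ) = 1 / n + 2 / n := by ring
        rw [e4]; linarith

/-! ### the solver for residuals -/

/-- the number of rows -/
noncomputable def cntR (A : List (List ℝ)) : ℝ := A.foldl (fun (s : ℝ) _ => s + 1) 0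

theorem CO_cntR : CO (fun _ => True) (fun l : List (List ℝ) => cntR l) (fun l => l.length) :=
  CO.foldl (l := fun x : List (List ℝ) => x) (s := fun _ => (0 : ℝ))
    (f := fun _ (s : ℝ) (_ : List ℝ) => s + 1) (Pb := fun _ => True)
    (Tb := fun _ => 0) CO.id CO.zero
    ((CO.snd (CO.fst CO.id)).add CO.one)
    (fun _ _ => True) (fun _ => 0) 1 (fun _ _ => trivial)
    (fun _ _ _ _ _ _ => ⟨trivial, le_rfl, trivial⟩) (fun x _ => by omega)

theorem cntR_eq (l : List (List ℝ)) : cntR l = l.length := by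
  unfold cntR
  rw [foldl_add (fun _ : List ℝ => (1 : ℝ))]
  simp

/-- thirteenth power -/
noncomputable def p13 (y : ℝ) : ℝ :=
  ((y * y) * (y * y)) * ((y * y) * (y * y)) * ((y * y) * (y * y)) * y

theorem p13_eq (y : ℝ) : p13 y = y ^ 13 := by unfold p13; ring

theorem CO_p13 : CO (fun _ => True) (fun y : ℝ => p13 y) (fun _ => 0) := by
  have h1 : CO (fun _ => True) (fun y : ℝ => y * y) (fun _ => 0) := CO.id.mul CO.id
  have h2 : CO (fun _ => True) (fun y : ℝ => (y * y) * (y * y)) (fun _ => 0) := h1.mul h1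
  exact ((h2.mul h2).mul h2).mul CO.id

/-- lowering the tolerance -/
noncomputable def prepL (x : (List (List ℝ) × List ℝ) × ℝ) : (List (List ℝ) × List ℝ) × ℝ :=
  (x.1, x.2 / p13 (cntR x.1.1))

theorem CO_prepL : CO (fun _ => True) prepL (fun x => x.1.1.length) :=
  (CO.fst CO.id).pair ((CO.snd CO.id).div (CO_p13.app0 (CO_cntR.app
    (f := fun x : (List (List ℝ) × List ℝ) × ℝ => x.1.1) (CO.fst (CO.fst CO.id)) 1
      (fun x _ => ⟨trivial, by simp⟩))))

theorem solver2 : ∃ (P : Prog) (C : ℝ), ∀ (n : ℕ) (A : Matrix (Fin n) (Fin n) ℝ), A ∈ Good n →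
    ∀ (b : Fin n → ℝ) (ε : ℝ), 0 < ε → ε < 1 →
    ∃ (t : ℕ) (x : Fin n → ℝ), Ev P (input A b ε) (output x) t ∧
      nn (A *ᵥ x - b) ≤ ε * nn b ∧
      (t : ℝ) ≤ C * n ^ 2 * Real.log (n / ε) ^ 3 := by
  obtain ⟨P, C, hC, h⟩ := solver
  obtain ⟨p1, C1, h1⟩ := CO_prepL
  refine ⟨.comp p1 P, (C1 * 2 + 1) * 4 + C * 29 ^ 3, fun n A hA b ε hε0 hε1 => ?_⟩
  obtain ⟨hn, hU, hcond⟩ := hA
  have hn0 : (0 : ℝ) < n := by exact_mod_cast (by omega : 0 < n)
  have hn1 : (1 : ℝ) ≤ n := by exact_mod_cast (by omega : 1 ≤ n)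
  have hn2 : (2 : ℝ) ≤ n := by exact_mod_cast hn
  have hc1 := cond_ge_one (by omega) A hU
  have hσ := sv_pos (by omega) A hU
  obtain ⟨t1, ht1, he1⟩ := h1 ((LL A, List.ofFn b), ε) trivial
  have hprep : prepL ((LL A, List.ofFn b), ε) = ((LL A, List.ofFn b), ε / (n : ℝ) ^ 13) := by
    unfold prepL
    rw [p13_eq, cntR_eq, (Sq_LL A).1]
  rw [hprep] at he1
  have hn13 : (1 : ℝ) ≤ (n : ℝ) ^ 13 := one_le_pow₀ hn1
  have hε' : 0 < ε / (n : ℝ) ^ 13 := by positivity
  have hε'1 : ε / (n : ℝ) ^ 13 < 1 := by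
    rw [div_lt_one (by positivity)]; linarith
  obtain ⟨t2, x, he2, hacc, ht2⟩ := h n (by omega) A hU b (ε / (n : ℝ) ^ 13) hε' hε'1
  refine ⟨_, x, Ev.comp he1 he2, ?_, ?_⟩
  · -- accuracy
    have hdet : IsUnit A.det := (Matrix.isUnit_iff_isUnit_det A).mp hU
    have e1 : A *ᵥ x - b = A *ᵥ (x - A⁻¹ *ᵥ b) := by
      rw [mulVec_sub, mulVec_mulVec, Matrix.mul_nonsing_inv _ hdet, one_mulVec]
    have e2 := sv_up A (x - A⁻¹ *ᵥ b)
    have e3 := sv_low A (A⁻¹ *ᵥ b)
    rw [mulVec_mulVec, Matrix.mul_nonsing_inv _ hdet, one_mulVec] at e3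
    have e4 : nn (A⁻¹ *ᵥ b) ≤ nn b / sv A (n - 1) := by
      rw [le_div_iff₀ hσ]; linarith
    rw [e1]
    calc nn (A *ᵥ (x - A⁻¹ *ᵥ b)) ≤ sv A 0 * nn (x - A⁻¹ *ᵥ b) := e2
      _ ≤ sv A 0 * (ε / (n : ℝ) ^ 13 * (nn b / sv A (n - 1))) := by
          refine mul_le_mul_of_nonneg_left (hacc.trans ?_) (sv_nonneg A 0)
          exact mul_le_mul_of_nonneg_left e4 hε'.le
      _ = condN A * (ε / (n : ℝ) ^ 13) * nn b := by unfold condN; ring
      _ ≤ (n : ℝ) ^ 13 * (ε / (n : ℝ) ^ 13) * nn b := by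
          refine mul_le_mul_of_nonneg_right ?_ (nn_nonneg b)
          exact mul_le_mul_of_nonneg_right hcond hε'.le
      _ = ε * nn b := by field_simp
  · -- time
    set L := Real.log (n / ε) with hL
    have hnε : (2 : ℝ) ≤ n / ε := by
      rw [le_div_iff₀ hε0]; nlinarith
    have hL0 : (0.69 : ℝ) ≤ L := by
      have h5 := Real.log_two_gt_d9
      have h6 : Real.log 2 ≤ L := Real.log_le_log (by norm_num) hnε
      linarith
    have hlen : (LL A).length = n := (Sq_LL A).1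
    simp only [hlen] at ht1
    have ht1' : (t1 : ℝ) ≤ C1 * 2 * n ^ 2 := by
      have h5 : t1 ≤ C1 * (2 * n ^ 2) := by
        refine ht1.trans (Nat.mul_le_mul_left _ ?_)
        have : n ≤ n ^ 2 := Nat.le_self_pow (by norm_num) n
        have : 1 ≤ n ^ 2 := Nat.one_le_pow _ _ (by omega)
        omega
      have h6 : (t1 : ℝ) ≤ ((C1 * (2 * n ^ 2) : ℕ) : ℝ) := by exact_mod_cast h5
      push_cast at h6
      linarith
    have hlog : 1 + Real.log (n * condN A / (ε / (n : ℝ) ^ 13)) ≤ 29 * L := by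
      have e1 : (n : ℝ) * condN A / (ε / (n : ℝ) ^ 13) ≤ (n / ε) ^ 27 := by
        have e2 : (n : ℝ) * condN A / (ε / (n : ℝ) ^ 13) = n * condN A * n ^ 13 * (1 / ε) := by
          field_simp
        rw [e2]
        have e3 : (1 : ℝ) ≤ 1 / ε := by rw [le_div_iff₀ hε0]; linarith
        calc (n : ℝ) * condN A * n ^ 13 * (1 / ε) ≤ n * n ^ 13 * n ^ 13 * (1 / ε) ^ 27 := by
              refine mul_le_mul ?_ (le_self_pow₀ e3 (by norm_num)) (by positivity) (by positivity)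
              exact mul_le_mul_of_nonneg_right (mul_le_mul_of_nonneg_left hcond hn0.le)
                (by positivity)
          _ = _ := by rw [div_pow, div_pow]; ring
      have e4 : Real.log (n * condN A / (ε / (n : ℝ) ^ 13)) ≤ 27 * L := by
        have e5 : Real.log (n * condN A / (ε / (n : ℝ) ^ 13)) ≤ Real.log ((n / ε) ^ 27) :=
          Real.log_le_log (by positivity) e1
        rw [Real.log_pow] at e5
        push_cast at e5
        exact e5
      linarith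
    have hlogpos : 0 ≤ Real.log (n * condN A / (ε / (n : ℝ) ^ 13)) := by
      apply Real.log_nonneg
      rw [le_div_iff₀ hε']
      nlinarith
    have ht2' : (t2 : ℝ) ≤ C * n ^ 2 * (29 * L) ^ 3 :=
      ht2.trans (mul_le_mul_of_nonneg_left (pow_le_pow_left₀ (by linarith) hlog 3) (by positivity))
    have hL3 : (1 : ℝ) ≤ 4 * L ^ 3 := by
      have : (0.69 : ℝ) ^ 3 ≤ L ^ 3 := pow_le_pow_left₀ (by norm_num) hL0 3
      norm_num at this
      linarith
    have hn2' : (1 : ℝ) ≤ (n : ℝ) ^ 2 := one_le_pow₀ hn1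
    have hfin : (C1 * 2 * (n : ℝ) ^ 2 + 1) ≤ (C1 * 2 + 1) * n ^ 2 * (4 * L ^ 3) := by
      have h5 : (C1 * 2 * (n : ℝ) ^ 2 + 1) ≤ (C1 * 2 + 1) * n ^ 2 := by nlinarith
      refine h5.trans (le_mul_of_one_le_right (by positivity) hL3)
    push_cast
    calc (t1 : ℝ) + t2 + 1 ≤ (C1 * 2 * n ^ 2 + 1) + C * n ^ 2 * (29 * L) ^ 3 := by linarith
      _ ≤ (C1 * 2 + 1) * n ^ 2 * (4 * L ^ 3) + C * n ^ 2 * (29 * L) ^ 3 := by linarith
      _ = _ := by ring

end Pool.Agent.N602.RR
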