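import Pool.Agent.N602.RR.Spec

/-! # The solver in terms of the condition number -/

set_option autoImplicit false

namespace Pool.Agent.N602.RR

open Matrix

/-- Runs are unique: the result and the number of steps are determined by the input. -/
theorem Ev.unique {p : Prog} {x y : D} {t : ℕ} (h : Ev p x y t) :
    ∀ {z : D} {u : ℕ}, Ev p x z u → y = z ∧ t = u := by
  induction h with
  | id x => intro z u h; cases h; exact ⟨rfl, rfl⟩
  | nil x => intro z u h; cases h; exact ⟨rfl, rfl⟩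
  | int a x => intro z u h; cases h; exact ⟨rfl, rfl⟩
  | hd x => intro z u h; cases h; exact ⟨rfl, rfl⟩
  | tl x => intro z u h; cases h; exact ⟨rfl, rfl⟩
  | cons h1 h2 ih1 ih2 =>
    intro z u h
    cases h with
    | cons g1 g2 =>
      obtain ⟨rfl, rfl⟩ := ih1 g1
      obtain ⟨rfl, rfl⟩ := ih2 g2
      exact ⟨rfl, rfl⟩
  | comp h1 h2 ih1 ih2 =>
    intro z u h
    cases h with
    | comp g1 g2 =>
      obtain ⟨rfl, rfl⟩ := ih1 g1
      obtain ⟨rfl, rfl⟩ := ih2 g2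
      exact ⟨rfl, rfl⟩
  | add x => intro z u h; cases h; exact ⟨rfl, rfl⟩
  | sub x => intro z u h; cases h; exact ⟨rfl, rfl⟩
  | mul x => intro z u h; cases h; exact ⟨rfl, rfl⟩
  | div x => intro z u h; cases h; exact ⟨rfl, rfl⟩
  | pos x => intro z u h; cases h; exact ⟨rfl, rfl⟩
  | iteT h1 hne h2 ih1 ih2 =>
    intro z u h
    cases h with
    | iteT g1 _ g2 =>
      obtain ⟨rfl, rfl⟩ := ih1 g1
      obtain ⟨rfl, rfl⟩ := ih2 g2
      exact ⟨rfl, rfl⟩
    | iteF g1 g2 => exact absurd (ih1 g1).1 hne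
  | iteF h1 h2 ih1 ih2 =>
    intro z u h
    cases h with
    | iteT g1 gne g2 => exact absurd (ih1 g1).1.symm gne
    | iteF g1 g2 =>
      obtain ⟨_, rfl⟩ := ih1 g1
      obtain ⟨rfl, rfl⟩ := ih2 g2
      exact ⟨rfl, rfl⟩
  | whF h1 ih1 =>
    intro z u h
    cases h with
    | whF g1 =>
      obtain ⟨_, rfl⟩ := ih1 g1
      exact ⟨rfl, rfl⟩
    | whT g1 gne g2 g3 => exact absurd (ih1 g1).1.symm gne
  | whT h1 hne h2 h3 ih1 ih2 ih3 =>
    intro z u h
    cases h with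
    | whF g1 => exact absurd (ih1 g1).1 hne
    | whT g1 _ g2 g3 =>
      obtain ⟨rfl, rfl⟩ := ih1 g1
      obtain ⟨rfl, rfl⟩ := ih2 g2
      obtain ⟨rfl, rfl⟩ := ih3 g3
      exact ⟨rfl, rfl⟩

/-- the input `(A, b, ε)` of a program: the list of the rows of `A`, the list of the entries of
`b`, and `ε` -/
noncomputable def input {n : ℕ} (A : Matrix (Fin n) (Fin n) ℝ) (b : Fin n → ℝ) (ε : ℝ) : D :=
  enc ((LL A, List.ofFn b), ε)

/-- the output: the list of the entries of a vector -/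
noncomputable def output {n : ℕ} (x : Fin n → ℝ) : D := enc (List.ofFn x)

/-- the condition number `σ_1 / σ_n` -/
noncomputable def condN {n : ℕ} (A : Matrix (Fin n) (Fin n) ℝ) : ℝ := sv A 0 / sv A (n - 1)

theorem cond_ge_one {n : ℕ} (hn : 1 ≤ n) (A : Matrix (Fin n) (Fin n) ℝ) (hA : IsUnit A) :
    1 ≤ condN A := by
  unfold condN
  rw [le_div_iff₀ (sv_pos hn A hA), one_mul]
  exact sv_antitone A (by omega)

/-- Solver: cost `O(n² log³(n κ / ε))`. -/
theorem solver : ∃ (P : Prog) (C : ℝ), 0 ≤ C ∧ ∀ (n : ℕ), 1 ≤ n →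
    ∀ (A : Matrix (Fin n) (Fin n) ℝ), IsUnit A → ∀ (b : Fin n → ℝ) (ε : ℝ), 0 < ε → ε < 1 →
    ∃ (t : ℕ) (x : Fin n → ℝ), Ev P (input A b ε) (output x) t ∧
      nn (x - A⁻¹ *ᵥ b) ≤ ε * nn (A⁻¹ *ᵥ b) ∧
      (t : ℝ) ≤ C * n ^ 2 * (1 + Real.log (n * condN A / ε)) ^ 3 := by
  obtain ⟨P, C, h⟩ := main_run
  refine ⟨P, 216 * C, by positivity, fun n hn A hA b ε hε0 hε1 => ?_⟩
  have hσ := sv_pos hn A hA
  have hS := sv_le_sabs hn A
  have hS0 : 0 < sabs A := by linarith
  have hcond := cond_ge_one hn A hA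
  have hn1 : (1 : ℝ) ≤ n := by exact_mod_cast hn
  set σ := sv A (n - 1) with hσdef
  have hμ0 : 0 < σ / (4 * sabs A) := by positivity
  have hμ1 : σ / (4 * sabs A) ≤ 1 := by rw [div_le_one (by positivity)]; linarith
  obtain ⟨t, x, h1, h2, h3⟩ := h n hn A b ε (σ / (4 * sabs A)) hε0 hε1 hμ0 hμ1 hS0 (fun v => by
    have h4 := sv_low A v
    have h5 : 2 * (σ / (4 * sabs A)) * (2 * sabs A) = σ := by field_simp; ring
    rw [h5]
    exact h4)
  refine ⟨t, x, h1, h3 _ ?_, h2.trans ?_⟩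
  · rw [mulVec_mulVec, Matrix.mul_nonsing_inv _ ((Matrix.isUnit_iff_isUnit_det A).mp hA),
      one_mulVec]
  · set L := n * condN A / ε with hL
    have hL1 : 1 ≤ L := by
      rw [hL, le_div_iff₀ hε0]
      nlinarith
    have hlogL : 0 ≤ Real.log L := Real.log_nonneg hL1
    have hK : 6 * n / ((σ / (4 * sabs A)) ^ 2 * ε) ≤ 96 * L ^ 5 := by
      have e1 : 6 * n / ((σ / (4 * sabs A)) ^ 2 * ε) = 96 * (n * (sabs A / σ) ^ 2 / ε) := by
        field_simp
        ring
      rw [e1]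
      refine mul_le_mul_of_nonneg_left ?_ (by norm_num)
      have e2 : sabs A / σ ≤ n * n * condN A := by
        rw [div_le_iff₀ hσ]
        have : condN A * σ = sv A 0 := by
          unfold condN; rw [← hσdef]; field_simp
        calc sabs A ≤ n * n * sv A 0 := sabs_le A
          _ = _ := by rw [mul_assoc (n * n : ℝ), this]
      have e3 : (sabs A / σ) ^ 2 ≤ (n * n * condN A) ^ 2 := pow_le_pow_left₀ (by positivity) e2 2
      have e4 : n * (sabs A / σ) ^ 2 / ε ≤ n * (n * n * condN A) ^ 2 / ε :=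
        div_le_div_of_nonneg_right (mul_le_mul_of_nonneg_left e3 (by positivity)) hε0.le
      refine e4.trans ?_
      have e5 : (1 : ℝ) ≤ 1 / ε := by rw [le_div_iff₀ hε0]; linarith
      have e6 : n * (n * n * condN A) ^ 2 / ε = n ^ 5 * condN A ^ 2 * (1 / ε) := by ring
      have e7 : L ^ 5 = n ^ 5 * condN A ^ 5 * (1 / ε) ^ 5 := by rw [hL]; field_simp
      rw [e6, e7]
      have e8 : condN A ^ 2 ≤ condN A ^ 5 := pow_le_pow_right₀ hcond (by norm_num)
      have e9 : (1 / ε) ≤ (1 / ε) ^ 5 := le_self_pow₀ e5 (by norm_num)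
      refine mul_le_mul (mul_le_mul_of_nonneg_left e8 (by positivity)) e9 (by positivity)
        (by positivity)
    have hlog : Real.log (6 * n / ((σ / (4 * sabs A)) ^ 2 * ε)) ≤ 5 + 5 * Real.log L := by
      have e1 : Real.log (6 * n / ((σ / (4 * sabs A)) ^ 2 * ε)) ≤ Real.log (96 * L ^ 5) :=
        Real.log_le_log (by positivity) hK
      rw [Real.log_mul (by norm_num) (by positivity), Real.log_pow] at e1
      have e2 : Real.log 96 ≤ 5 := by
        rw [Real.log_le_iff_le_exp (by norm_num)]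
        have e3 : (2.7 : ℝ) ^ 5 ≤ Real.exp 5 := by
          have e4 : (2.7 : ℝ) ≤ Real.exp 1 := by linarith [Real.exp_one_gt_d9]
          calc (2.7 : ℝ) ^ 5 ≤ (Real.exp 1) ^ 5 := pow_le_pow_left₀ (by norm_num) e4 5
            _ = _ := by rw [← Real.exp_nat_mul]; norm_num
        refine le_trans (by norm_num) e3
      push_cast at e1
      linarith
    have hK1 : 1 ≤ 6 * n / ((σ / (4 * sabs A)) ^ 2 * ε) := by
      rw [le_div_iff₀ (by positivity)]
      have e1 : (σ / (4 * sabs A)) ^ 2 ≤ 1 := pow_le_one₀ hμ0.le hμ1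
      nlinarith
    have hlog0 := Real.log_nonneg hK1
    have hfin : (1 + Real.log (6 * n / ((σ / (4 * sabs A)) ^ 2 * ε))) ^ 3 ≤
        (6 * (1 + Real.log L)) ^ 3 := pow_le_pow_left₀ (by linarith) (by linarith) 3
    calc (C : ℝ) * n ^ 2 * (1 + Real.log (6 * n / ((σ / (4 * sabs A)) ^ 2 * ε))) ^ 3
        ≤ C * n ^ 2 * (6 * (1 + Real.log L)) ^ 3 := mul_le_mul_of_nonneg_left hfin (by positivity)
      _ = _ := by ring

end Pool.Agent.N602.RR
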