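import Pool.Agent.N602.RR.Comb

/-! # Cost calculus: list functions -/

set_option autoImplicit false

namespace Pool.Agent.N602.RR

variable {α β γ δ σ τ : Type} [Enc α] [Enc β] [Enc γ] [Enc δ] [Enc σ] [Enc τ]

variable {P : α → Prop} {B : α → ℕ}

theorem CO.reverse {l : α → List β} (hl : CO P l B) (K : ℕ)
    (hK : ∀ x, P x → (l x).length ≤ K * (B x + 1)) : CO P (fun x => (l x).reverse) B := by
  have h := CO.foldl (P := P) (B := B) (l := l) (s := fun _ => ([] : List β))
    (f := fun _ acc b => b :: acc) (Pb := fun _ => True) (Tb := fun _ => 0) hl CO.nil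
    (CO.cons (CO.snd CO.id) (CO.snd (CO.fst CO.id))) (fun _ _ => True) (fun _ => 0) K
    (fun _ _ => trivial) (fun _ _ _ _ _ _ => ⟨trivial, le_rfl, trivial⟩)
    (fun x hx => by have := hK x hx; omega)
  refine h.congr fun x _ => ?_
  have : ∀ (l : List β) (m : List β), l.foldl (fun acc b => b :: acc) m = l.reverse ++ m := by
    intro l
    induction l with
    | nil => simp
    | cons a l ih => intro m; simp [ih]
  simp [this]

theorem CO.append {l m : α → List β} (hl : CO P l B) (hm : CO P m B) (K : ℕ)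
    (hK : ∀ x, P x → (l x).length ≤ K * (B x + 1)) : CO P (fun x => l x ++ m x) B := by
  have h := CO.foldl (P := P) (B := B) (l := fun x => (l x).reverse) (s := m)
    (f := fun _ acc b => b :: acc) (Pb := fun _ => True) (Tb := fun _ => 0) (hl.reverse K hK) hm
    (CO.cons (CO.snd CO.id) (CO.snd (CO.fst CO.id))) (fun _ _ => True) (fun _ => 0) K
    (fun _ _ => trivial) (fun _ _ _ _ _ _ => ⟨trivial, le_rfl, trivial⟩)
    (fun x hx => by have := hK x hx; simp; omega)
  refine h.congr fun x _ => ?_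
  have : ∀ (l : List β) (m : List β), l.foldl (fun acc b => b :: acc) m = l.reverse ++ m := by
    intro l
    induction l with
    | nil => simp
    | cons a l ih => intro m; simp [ih]
  simp [this]

/-- a map with a running state -/
def mapAcc {σ β γ : Type} (f : σ → β → σ × γ) : σ → List β → List γ
  | _, [] => []
  | s, b :: l => (f s b).2 :: mapAcc f (f s b).1 l

@[simp] theorem mapAcc_length {σ β γ : Type} (f : σ → β → σ × γ) (s : σ) (l : List β) :
    (mapAcc f s l).length = l.length := by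
  induction l generalizing s with
  | nil => rfl
  | cons b l ih => simp [mapAcc, ih]

theorem mapAcc_foldl {σ β γ : Type} (f : σ → β → σ × γ) (s : σ) (l : List β) (acc : List γ) :
    (l.foldl (fun (u : σ × List γ) b => ((f u.1 b).1, (f u.1 b).2 :: u.2)) (s, acc)).2 =
      (mapAcc f s l).reverse ++ acc := by
  induction l generalizing s acc with
  | nil => simp [mapAcc]
  | cons b l ih => simp [mapAcc, ih]

theorem CO.mapAcc {l : α → List β} {s : α → σ} {f : α → σ → β → σ × γ}
    {Pb : (α × σ) × β → Prop} {Tb : (α × σ) × β → ℕ}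
    (hl : CO P l B) (hs : CO P s B)
    (hb : CO Pb (fun y : (α × σ) × β => f y.1.1 y.1.2 y.2) Tb)
    (M : α → ℕ) (K : ℕ)
    (h1 : ∀ x, P x → ∀ u, ∀ b ∈ l x, Pb ((x, u), b) ∧ Tb ((x, u), b) ≤ M x)
    (hK : ∀ x, P x → (l x).length * (M x + 1) ≤ K * (B x + 1)) :
    CO P (fun x => RR.mapAcc (f x) (s x) (l x)) B := by
  -- the body on the state `(u, acc)`
  have hb' : CO (fun y : (α × (σ × List γ)) × β => Pb ((y.1.1, y.1.2.1), y.2))
      (fun y : (α × (σ × List γ)) × β => f y.1.1 y.1.2.1 y.2)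
      (fun y => Tb ((y.1.1, y.1.2.1), y.2)) :=
    CO.app (f := fun y : (α × (σ × List γ)) × β => ((y.1.1, y.1.2.1), y.2)) hb
      (((CO.fst (CO.fst CO.id)).pair (CO.fst (CO.snd (CO.fst CO.id)))).pair (CO.snd CO.id)) 1
      (fun y hy => ⟨hy, by omega⟩)
  have h := CO.foldl (P := P) (B := B) (l := l) (s := fun x => (s x, ([] : List γ)))
    (f := fun x (u : σ × List γ) b => ((f x u.1 b).1, (f x u.1 b).2 :: u.2))
    hl (hs.pair CO.nil) (hb'.fst.pair (hb'.snd.cons (CO.snd (CO.snd (CO.fst CO.id)))))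
    (fun _ _ => True) M K
    (fun _ _ => trivial) (fun x hx u _ b hb => ⟨(h1 x hx u.1 b hb).1, (h1 x hx u.1 b hb).2, trivial⟩)
    hK
  have h2 : CO P (fun x => ((l x).foldl (fun (u : σ × List γ) b =>
    ((f x u.1 b).1, (f x u.1 b).2 :: u.2)) (s x, ([] : List γ))).2) B := h.snd
  have hlen : ∀ x, P x → (l x).length ≤ K * (B x + 1) := fun x hx => by
    have := hK x hx
    nlinarith
  have h3 := h2.reverse K (fun x hx => by
    rw [mapAcc_foldl]
    simpa using hlen x hx)
  refine h3.congr fun x _ => ?_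
  rw [mapAcc_foldl]
  simp

theorem CO.map {l : α → List β} {f : α → β → γ}
    {Pb : α × β → Prop} {Tb : α × β → ℕ}
    (hl : CO P l B) (hb : CO Pb (fun y : α × β => f y.1 y.2) Tb)
    (M : α → ℕ) (K : ℕ)
    (h1 : ∀ x, P x → ∀ b ∈ l x, Pb (x, b) ∧ Tb (x, b) ≤ M x)
    (hK : ∀ x, P x → (l x).length * (M x + 1) ≤ K * (B x + 1)) :
    CO P (fun x => (l x).map (f x)) B := by
  have hb' : CO (fun y : (α × List γ) × β => Pb (y.1.1, y.2))
      (fun y : (α × List γ) × β => (y.1.2, f y.1.1 y.2)) (fun y => Tb (y.1.1, y.2)) :=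
    (CO.snd (CO.fst CO.id)).pair
      (CO.app (f := fun y : (α × List γ) × β => (y.1.1, y.2)) hb
      ((CO.fst (CO.fst CO.id)).pair (CO.snd CO.id)) 1
      (fun y hy => ⟨hy, by omega⟩))
  have h := CO.mapAcc (P := P) (B := B) (l := l) (s := fun _ => ([] : List γ))
    (f := fun x (u : List γ) b => (u, f x b)) hl CO.nil hb' M K
    (fun x hx u b hb => h1 x hx b hb) hK
  refine h.congr fun x _ => ?_
  have : ∀ (l : List β) (u : List γ), RR.mapAcc (fun (u : List γ) b => (u, f x b)) u l
      = l.map (f x) := by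
    intro l
    induction l with
    | nil => intro u; rfl
    | cons b l ih => intro u; simp [RR.mapAcc, ih]
  exact this _ _

theorem CO.zip {l : α → List β} {m : α → List γ} (hl : CO P l B) (hm : CO P m B) (K : ℕ)
    (hK : ∀ x, P x → (l x).length ≤ K * (B x + 1)) : CO P (fun x => (l x).zip (m x)) B := by
  obtain ⟨pl, Cl, hpl⟩ := hl
  obtain ⟨pm, Cm, hpm⟩ := hm
  -- loop state: ((l, m), acc)
  let cond : Prog := .ite (.comp .hd .hd) (.comp .hd .tl) .nil
  let body : Prog := .cons (.cons (.comp .hd (.comp .hd .tl)) (.comp .hd (.comp .tl .tl)))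
    (.cons (.cons (.comp .hd (.comp .hd .hd)) (.comp .hd (.comp .tl .hd))) .tl)
  have hw : ∀ (l' : List β) (m' : List γ) (acc : List (β × γ)),
      ∃ t d, t ≤ 100 * (l'.length + 1) ∧
      Ev (.wh cond body) (.cons (.cons (enc l') (enc m')) (enc acc))
        (.cons d (enc ((l'.zip m').reverse ++ acc))) t := by
    intro l'
    induction l' with
    | nil =>
      intro m' acc
      refine ⟨_, _, ?_, Ev.whF (Ev.iteF (Ev.comp (Ev.hd _) (Ev.hd _)) (Ev.nil _))⟩
      omega
    | cons a l' ih =>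
      intro m' acc
      cases m' with
      | nil =>
        refine ⟨_, _, ?_, Ev.whF (Ev.iteT (Ev.comp (Ev.hd _) (Ev.hd _)) ?_
          (Ev.comp (Ev.hd _) (Ev.tl _)))⟩
        · simp only [List.length_cons]; omega
        · intro hh
          change D.cons _ _ = D.nil at hh
          cases hh
      | cons b m' =>
        obtain ⟨t, d, ht, he⟩ := ih m' ((a, b) :: acc)
        obtain ⟨m1, hm1, hcond⟩ : ∃ m1, m1 ≤ 20 ∧ Ev cond
            (.cons (.cons (enc (a :: l')) (enc (b :: m'))) (enc acc)) (enc (b :: m')) m1 := by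
          refine ⟨_, ?_, Ev.iteT (Ev.comp (Ev.hd _) (Ev.hd _)) ?_ (Ev.comp (Ev.hd _) (Ev.tl _))⟩
          · omega
          · intro hh
            change D.cons _ _ = D.nil at hh
            cases hh
        obtain ⟨m2, hm2, hbody⟩ : ∃ m2, m2 ≤ 60 ∧ Ev body
            (.cons (.cons (enc (a :: l')) (enc (b :: m'))) (enc acc))
            (.cons (.cons (enc l') (enc m')) (enc ((a, b) :: acc))) m2 := by
          refine ⟨_, ?_, Ev.cons (Ev.cons (Ev.comp (Ev.hd _) (Ev.comp (Ev.hd _) (Ev.tl _)))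
            (Ev.comp (Ev.hd _) (Ev.comp (Ev.tl _) (Ev.tl _))))
            (Ev.cons (Ev.cons (Ev.comp (Ev.hd _) (Ev.comp (Ev.hd _) (Ev.hd _)))
              (Ev.comp (Ev.hd _) (Ev.comp (Ev.tl _) (Ev.hd _)))) (Ev.tl _))⟩
          omega
        refine ⟨m1 + m2 + t + 1, d, ?_, Ev.whT hcond ?_ hbody ?_⟩
        · simp only [List.length_cons]; omega
        · intro hh
          change D.cons _ _ = D.nil at hh
          cases hh
        · simpa using he
  have h : CO P (fun x => ((l x).zip (m x)).reverse) B := by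
    refine ⟨.comp (.comp (.cons (.cons pl pm) .nil) (.wh cond body)) .tl,
      Cl + Cm + 100 * (K + 1) + 10, fun x hx => ?_⟩
    obtain ⟨t, d, ht, he⟩ := hw (l x) (m x) []
    obtain ⟨tl, htl, hel⟩ := hpl x hx
    obtain ⟨tm, htm, hem⟩ := hpm x hx
    rw [List.append_nil] at he
    refine ⟨_, ?_, Ev.comp (Ev.comp (Ev.cons (Ev.cons hel hem) (Ev.nil _)) he) (Ev.tl _)⟩
    have h3 : t ≤ 100 * ((K + 1) * (B x + 1)) := by
      refine ht.trans (Nat.mul_le_mul_left _ ?_)
      have := hK x hx
      nlinarith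
    nlinarith
  have h2 := h.reverse K (fun x hx => by
    have := hK x hx
    simp only [List.length_reverse, List.length_zip]
    omega)
  exact h2.congr fun x _ => by simp

end Pool.Agent.N602.RR
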