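import Pool.Agent.N602.RR.Corr3

/-! # The main theorem on the algorithm -/

set_option autoImplicit false

namespace Pool.Agent.N602.RR

open Matrix

/-- the initial state -/
noncomputable def iniL (x : (List (List ℝ) × List ℝ) × ℝ) : St :=
  ((x, idxL x.1.1), (((2 : ℝ), [(1 : ℝ)]), ((1 : ℝ), ([] : List ℝ))))

theorem CO_iniL : CO (fun _ => True) iniL (fun x => x.1.1.length) := by
  have h : CO (fun _ => True) (fun x : (List (List ℝ) × List ℝ) × ℝ => idxL x.1.1)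
      (fun x => x.1.1.length) :=
    CO_idxL.app (f := fun x : (List (List ℝ) × List ℝ) × ℝ => x.1.1) (CO.fst (CO.fst CO.id)) 1
      (fun x _ => ⟨trivial, by simp⟩)
  exact (CO.id.pair h).pair ((CO.two.pair (CO.one.cons CO.nil)).pair (CO.one.pair CO.nil))

theorem iter_state {n : ℕ} (A : Matrix (Fin n) (Fin n) ℝ) (b : Fin n → ℝ) (ε : ℝ)
    (t : Fin n → ℝ) (fx : ℝ × List ℝ) (j : ℕ) :
    ∃ fx' : ℝ × List ℝ, bodyL^[j] ((((LL A, List.ofFn b), ε), List.ofFn t),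
      ((2, [1]), fx)) = ((((LL A, List.ofFn b), ε), List.ofFn t),
        (((2 : ℝ) ^ (2 ^ j), wts (2 ^ j)), fx')) ∧ (j = 0 → fx' = fx) ∧
        ∀ i, j = i + 1 → fx' = (flg (arg (2 ^ i) A b ε t), outL (arg (2 ^ i) A b ε t)) := by
  induction j with
  | zero =>
    refine ⟨fx, ?_, fun _ => rfl, fun i hi => by omega⟩
    simp [wts]
  | succ j ih =>
    obtain ⟨fx', h1, _, _⟩ := ih
    rw [Function.iterate_succ_apply', h1]
    refine ⟨(flg (arg (2 ^ j) A b ε t), outL (arg (2 ^ j) A b ε t)), ?_, fun h => by omega,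
      fun i hi => ?_⟩
    · unfold bodyL
      simp only
      rw [dbl_wts, show 2 * 2 ^ j = 2 ^ (j + 1) by ring]
      rfl
    · have : i = j := by omega
      subst this
      rfl

/-- the main result on the algorithm -/
theorem main_run : ∃ (p : Prog) (C : ℕ), ∀ (n : ℕ), 1 ≤ n → ∀ (A : Matrix (Fin n) (Fin n) ℝ)
    (b : Fin n → ℝ) (ε μ : ℝ), 0 < ε → ε < 1 → 0 < μ → μ ≤ 1 → 0 < sabs A →
    (∀ v, 2 * μ * (2 * sabs A) * nn v ≤ nn (A *ᵥ v)) →
    ∃ (t : ℕ) (out : Fin n → ℝ), Ev p (enc ((LL A, List.ofFn b), ε)) (enc (List.ofFn out)) t ∧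
      (t : ℝ) ≤ C * n ^ 2 * (1 + Real.log (6 * n / (μ ^ 2 * ε))) ^ 3 ∧
      ∀ xs, A *ᵥ xs = b → nn (out - xs) ≤ ε * nn xs := by
  classical
  obtain ⟨p1, C1, h1⟩ := CO_iniL
  obtain ⟨p2, C2, h2⟩ := while_cost (P := fun s : St => WF s.1) (f := bodyL)
    (r := fun s : St => s.2.2.1) (T := cstS) CO_bodyL (CO.fst (CO.snd (CO.snd CO.id)))
  refine ⟨.comp (.comp p1 p2) (.comp .tl (.comp .tl .tl)), 216 * (2 * C1 + 4 * C2 + 9),
    fun n hn A b ε μ hε0 hε1 hμ0 hμ1 hA hl => ?_⟩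
  obtain ⟨ti, hti, htieq⟩ := idxL_spec (LL A) (Sq_LL A).1
  set K : ℝ := 6 * n / (μ ^ 2 * ε) with hK
  have hn1 : (1 : ℝ) ≤ n := by exact_mod_cast hn
  have hμε : μ ^ 2 * ε ≤ 1 := by nlinarith [sq_nonneg μ, pow_le_one₀ (n := 2) hμ0.le hμ1]
  have hμε0 : 0 < μ ^ 2 * ε := by positivity
  have hK1 : 1 ≤ K := by
    rw [hK, le_div_iff₀ hμε0]; linarith
  have hlogK : 0 ≤ Real.log K := Real.log_nonneg hK1
  -- the first successful attempt
  have hex : ∃ j : ℕ, flg (arg (2 ^ j) A b ε ti) = 0 := by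
    obtain ⟨j, hj⟩ := pow_unbounded_of_one_lt K (one_lt_two)
    refine ⟨j, flg_good (2 ^ j) Nat.one_le_two_pow hn A hA b ε hε0 hε1 ti hti μ hμ0 hμ1 hl ?_⟩
    refine hj.le.trans ?_
    exact pow_le_pow_right₀ (by norm_num) (Nat.lt_two_pow_self).le
  set J := Nat.find hex with hJ
  have hJ0 : flg (arg (2 ^ J) A b ε ti) = 0 := Nat.find_spec hex
  have hJmin : ∀ i < J, flg (arg (2 ^ i) A b ε ti) ≠ 0 := fun i hi => Nat.find_min hex hi
  have hflg : ∀ i, flg (arg (2 ^ i) A b ε ti) ≠ 0 → flg (arg (2 ^ i) A b ε ti) = 1 := by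
    intro i hi
    unfold flg at hi ⊢
    split_ifs at hi ⊢ <;> first | rfl | exact absurd rfl hi
  have hJK : ((2 : ℝ) ^ (J + 1)) ≤ 2 + 6 * Real.log K := by
    by_cases h0 : J = 0
    · rw [h0]; norm_num; exact hlogK
    · obtain ⟨i, hi⟩ : ∃ i, J = i + 1 := ⟨J - 1, by omega⟩
      have h3 : ¬ K ≤ (2 : ℝ) ^ (2 ^ i) := fun h => hJmin i (by omega)
        (flg_good (2 ^ i) Nat.one_le_two_pow hn A hA b ε hε0 hε1 ti hti μ hμ0 hμ1 hl h)
      rw [not_le] at h3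
      have h4 : Real.log ((2 : ℝ) ^ (2 ^ i)) ≤ Real.log K := Real.log_le_log (by positivity) h3.le
      rw [Real.log_pow] at h4
      push_cast at h4
      have h5 := Real.log_two_gt_d9
      rw [hi]
      have h6 : (2 : ℝ) ^ (i + 1 + 1) = 4 * 2 ^ i := by ring
      rw [h6]
      have h7 : (0 : ℝ) ≤ 2 ^ i := by positivity
      nlinarith
  -- the states
  set s0 : St := ((((LL A, List.ofFn b), ε), List.ofFn ti), ((2, [1]), ((1 : ℝ), ([] : List ℝ))))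
    with hs0
  have hini : iniL ((LL A, List.ofFn b), ε) = s0 := by
    unfold iniL
    rw [htieq]
  obtain ⟨t1, ht1, he1⟩ := h1 ((LL A, List.ofFn b), ε) trivial
  rw [hini] at he1
  have hst := iter_state A b ε ti ((1 : ℝ), ([] : List ℝ))
  obtain ⟨t2, ht2, he2⟩ := h2 (J + 1) s0 (fun j _ => by
    obtain ⟨fx', e1, _, _⟩ := hst j
    rw [hs0, e1]
    exact WF_arg 1 A b ε ti) (fun j hj => by
    obtain ⟨fx', e1, e2, e3⟩ := hst j
    rw [hs0, e1]
    show 0 < fx'.1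
    rcases Nat.eq_zero_or_pos j with h0 | h0
    · rw [e2 h0]; norm_num
    · obtain ⟨i, hi⟩ : ∃ i, j = i + 1 := ⟨j - 1, by omega⟩
      rw [e3 i hi]
      show 0 < flg (arg (2 ^ i) A b ε ti)
      rw [hflg i (hJmin i (by omega))]
      norm_num) (by
    obtain ⟨fx', e1, e2, e3⟩ := hst (J + 1)
    rw [hs0, e1]
    show ¬ 0 < fx'.1
    rw [e3 J rfl]
    show ¬ 0 < flg (arg (2 ^ J) A b ε ti)
    rw [hJ0]; norm_num)
  obtain ⟨fx', e1, _, e3⟩ := hst (J + 1)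
  have e4 := e3 J rfl
  have efin : bodyL^[J + 1] s0 = ((((LL A, List.ofFn b), ε), List.ofFn ti),
        (((2 : ℝ) ^ (2 ^ (J + 1)), wts (2 ^ (J + 1))), (flg (arg (2 ^ J) A b ε ti),
          outL (arg (2 ^ J) A b ε ti)))) := by
    rw [hs0, e1, e4]
  rw [efin] at he2
  -- the output exists
  obtain ⟨out, hout⟩ : ∃ out : Fin n → ℝ, outL (arg (2 ^ J) A b ε ti) = List.ofFn out := by
    have hlen : (outL (arg (2 ^ J) A b ε ti)).length = n := by
      unfold outL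
      rw [List.length_map, (Sq_matX (WF_arg (2 ^ J) A b ε ti)).1]
      simp [arg]
    refine ⟨fun i => (outL (arg (2 ^ J) A b ε ti))[(i : ℕ)]'(by rw [hlen]; exact i.2), ?_⟩
    apply List.ext_getElem
    · simp [hlen]
    · intro i hi1 hi2
      simp
  rw [hout] at he2
  refine ⟨_, out, Ev.comp (Ev.comp he1 he2)
    (Ev.comp (Ev.tl _) (Ev.comp (Ev.tl _) (Ev.tl _))), ?_, ?_⟩
  · -- time
    have hm : J + 1 + 1 ≤ 2 ^ (J + 1) + 1 := by
      have := (Nat.lt_two_pow_self (n := J + 1))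
      omega
    have hsum : ∑ j ∈ Finset.range (J + 1 + 1), (cstS (bodyL^[j] s0) + 1) ≤
        (J + 1 + 1) * ((n ^ 2 + 1) * (2 ^ (J + 1) + 1) ^ 2 + 1) := by
      calc ∑ j ∈ Finset.range (J + 1 + 1), (cstS (bodyL^[j] s0) + 1)
          ≤ ∑ _j ∈ Finset.range (J + 1 + 1), ((n ^ 2 + 1) * (2 ^ (J + 1) + 1) ^ 2 + 1) := by
            refine Finset.sum_le_sum fun j hj => ?_
            rw [Finset.mem_range] at hj
            obtain ⟨fy, e5, _, _⟩ := hst j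
            rw [hs0, e5]
            have h3 : cstS ((((LL A, List.ofFn b), ε), List.ofFn ti),
              (((2 : ℝ) ^ (2 ^ j), wts (2 ^ j)), fy)) = (n ^ 2 + 1) * (2 ^ j + 1) ^ 2 := by
              simp [cstS, cstA]
            rw [h3]
            have h4 : 2 ^ j ≤ 2 ^ (J + 1) := Nat.pow_le_pow_right (by norm_num) (by omega)
            have h5 : (2 ^ j + 1) ^ 2 ≤ (2 ^ (J + 1) + 1) ^ 2 := Nat.pow_le_pow_left (by omega) 2
            have := Nat.mul_le_mul_left (n ^ 2 + 1) h5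
            omega
        _ = _ := by simp
    set y := 2 ^ (J + 1) + 1 with hy
    have hn2 : 1 ≤ n ^ 2 := Nat.one_le_pow _ _ hn
    have hsum2 : (J + 1 + 1) * ((n ^ 2 + 1) * y ^ 2 + 1) ≤ 4 * (n ^ 2 * y ^ 3) := by
      have hy1 : 1 ≤ y := by omega
      have h3 : (n ^ 2 + 1) * y ^ 2 + 1 ≤ 3 * (n ^ 2 * y ^ 2) := by
        have : 1 ≤ y ^ 2 := Nat.one_le_pow _ _ hy1
        nlinarith
      calc (J + 1 + 1) * ((n ^ 2 + 1) * y ^ 2 + 1) ≤ y * (3 * (n ^ 2 * y ^ 2)) :=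
            Nat.mul_le_mul hm h3
        _ = 3 * (n ^ 2 * y ^ 3) := by ring
        _ ≤ _ := by omega
    have ht1' : t1 ≤ C1 * (2 * (n ^ 2 * y ^ 3)) := by
      refine ht1.trans (Nat.mul_le_mul_left _ ?_)
      have h3 : (LL A).length = n := (Sq_LL A).1
      simp only [h3]
      have h4 : n ≤ n ^ 2 := Nat.le_self_pow (by norm_num) n
      have h5 : 1 ≤ y ^ 3 := Nat.one_le_pow _ _ (by omega)
      nlinarith
    have ht2' : t2 ≤ C2 * (4 * (n ^ 2 * y ^ 3)) :=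
      ht2.trans (Nat.mul_le_mul_left _ (hsum.trans hsum2))
    have h9 : 1 ≤ n ^ 2 * y ^ 3 := Nat.mul_pos (by omega) (Nat.pow_pos (by omega))
    have htot : t1 + t2 + 1 + (1 + (1 + 1 + 1) + 1) + 1 ≤ (2 * C1 + 4 * C2 + 9) * (n ^ 2 * y ^ 3) := by
      nlinarith
    have hyr : (y : ℝ) ≤ 6 * (1 + Real.log K) := by
      rw [hy]; push_cast; linarith
    have hyr3 : (y : ℝ) ^ 3 ≤ (6 * (1 + Real.log K)) ^ 3 :=
      pow_le_pow_left₀ (by positivity) hyr 3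
    calc ((t1 + t2 + 1 + (1 + (1 + 1 + 1) + 1) + 1 : ℕ) : ℝ)
        ≤ (((2 * C1 + 4 * C2 + 9) * (n ^ 2 * y ^ 3) : ℕ) : ℝ) := by exact_mod_cast htot
      _ = (2 * C1 + 4 * C2 + 9 : ℝ) * n ^ 2 * (y : ℝ) ^ 3 := by push_cast; ring
      _ ≤ (2 * C1 + 4 * C2 + 9 : ℝ) * n ^ 2 * (6 * (1 + Real.log K)) ^ 3 :=
          mul_le_mul_of_nonneg_left hyr3 (by positivity)
      _ = _ := by push_cast; ring
  · intro xs hxs
    obtain ⟨out', ho1, ho2⟩ := sound (2 ^ J) Nat.one_le_two_pow hn A hA b ε hε0 hε1 ti hti hJ0 xs hxs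
    have : out = out' := List.ofFn_injective (hout.symm.trans ho1)
    rw [this]
    exact ho2

end Pool.Agent.N602.RR
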