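import Mathlib

/-!
# The computation model: a real RAM with exact arithmetic in pointer-machine form

A *datum* is a binary tree whose leaves are `nil` or real numbers (a pointer memory with exact real
cells). A program is built from finitely many instructions. Every instruction costs one time unit:
the projections `hd`, `tl`, consing, the constants `nil` and integers, the exact real operations
`+, -, *, /`, the comparison `0 < x`, sequencing, branching and while loops. So the running time
counts all arithmetic operations and comparisons of real numbers, and also all pointer operations.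
-/

set_option autoImplicit false

namespace Pool.Agent.N602.RR

/-- data: binary trees with real atoms -/
inductive D : Type
  | num (r : ℝ) : D
  | nil : D
  | cons (a b : D) : D

/-- head (and `nil` on atoms) -/
def D.hd : D → D
  | .cons a _ => a
  | _ => .nil

/-- tail (and `nil` on atoms) -/
def D.tl : D → D
  | .cons _ b => b
  | _ => .nil

/-- the truth value true; false is `nil` -/
def D.tt : D := .cons .nil .nil

/-- a binary operation on a pair of numbers (`nil` on other data) -/
def D.op (f : ℝ → ℝ → ℝ) : D → D
  | .cons (.num a) (.num b) => .num (f a b)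
  | _ => .nil

open Classical in
/-- the comparison `0 < a` (false on other data) -/
noncomputable def D.pos : D → D
  | .num a => if 0 < a then D.tt else .nil
  | _ => .nil

/-- programs -/
inductive Prog : Type
  | id | nil | int (z : ℤ) | hd | tl
  | cons (p q : Prog)
  | comp (p q : Prog)
  | add | sub | mul | div | pos
  | ite (c p q : Prog)
  | wh (c p : Prog)

/-- `Ev p x y t`: the program `p` on the datum `x` stops with result `y` after `t` steps. -/
inductive Ev : Prog → D → D → ℕ → Prop
  | id (x : D) : Ev .id x x 1
  | nil (x : D) : Ev .nil x .nil 1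
  | int (z : ℤ) (x : D) : Ev (.int z) x (.num (z : ℝ)) 1
  | hd (x : D) : Ev .hd x x.hd 1
  | tl (x : D) : Ev .tl x x.tl 1
  | cons {p q : Prog} {x a b : D} {t u : ℕ} :
      Ev p x a t → Ev q x b u → Ev (.cons p q) x (.cons a b) (t + u + 1)
  | comp {p q : Prog} {x y z : D} {t u : ℕ} :
      Ev p x y t → Ev q y z u → Ev (.comp p q) x z (t + u + 1)
  | add (x : D) : Ev .add x (x.op (· + ·)) 1
  | sub (x : D) : Ev .sub x (x.op (· - ·)) 1
  | mul (x : D) : Ev .mul x (x.op (· * ·)) 1
  | div (x : D) : Ev .div x (x.op (· / ·)) 1
  | pos (x : D) : Ev .pos x x.pos 1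
  | iteT {c p q : Prog} {x d y : D} {t u : ℕ} :
      Ev c x d t → d ≠ .nil → Ev p x y u → Ev (.ite c p q) x y (t + u + 1)
  | iteF {c p q : Prog} {x y : D} {t u : ℕ} :
      Ev c x .nil t → Ev q x y u → Ev (.ite c p q) x y (t + u + 1)
  | whF {c p : Prog} {x : D} {t : ℕ} :
      Ev c x .nil t → Ev (.wh c p) x x (t + 1)
  | whT {c p : Prog} {x d y z : D} {t u v : ℕ} :
      Ev c x d t → d ≠ .nil → Ev p x y u → Ev (.wh c p) y z v → Ev (.wh c p) x z (t + u + v + 1)

/-- encodings of the usual data types -/
class Enc (α : Type) where
  enc : α → D

export Enc (enc)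

instance : Enc ℝ := ⟨D.num⟩
instance : Enc Unit := ⟨fun _ => D.nil⟩
instance : Enc Bool := ⟨fun b => if b then D.tt else D.nil⟩
instance {α β : Type} [Enc α] [Enc β] : Enc (α × β) := ⟨fun x => .cons (enc x.1) (enc x.2)⟩

/-- lists are coded as usual by `cons` and `nil` -/
def encList {α : Type} [Enc α] : List α → D
  | [] => .nil
  | a :: l => .cons (enc a) (encList l)

instance {α : Type} [Enc α] : Enc (List α) := ⟨encList⟩

end Pool.Agent.N602.RR
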