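import Pool.Agent.N602.RR.Alg3

/-! # What the list functions compute -/

set_option autoImplicit false

namespace Pool.Agent.N602.RR

open Classical

/-- the powers of two `2^(w-1), …, 1` -/
noncomputable def wts : ℕ → List ℝ
  | 0 => []
  | w + 1 => 2 ^ w :: wts w

@[simp] theorem wts_length (w : ℕ) : (wts w).length = w := by
  induction w with
  | zero => rfl
  | succ w ih => simp [wts, ih]

theorem wts_append (m w : ℕ) : (wts m).map (fun a => a * 2 ^ w) ++ wts w = wts (m + w) := by
  induction m with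
  | zero => simp [wts]
  | succ m ih =>
    rw [show m + 1 + w = (m + w) + 1 by ring]
    simp only [wts, List.map_cons, List.cons_append, ih]
    rw [pow_add]

theorem dbl_wts (w : ℕ) : dbl (2 ^ w, wts w) = (2 ^ (2 * w), wts (2 * w)) := by
  unfold dbl
  simp only
  rw [wts_append, two_mul, pow_add]

theorem dbl5_wts (w : ℕ) : dbl5 (2 ^ w, wts w) = (2 ^ (32 * w), wts (32 * w)) := by
  unfold dbl5
  simp only [dbl_wts]
  ring_nf

theorem fl_spec (w : ℕ) (acc r : ℝ) (h0 : 0 ≤ r) (h1 : r < 2 ^ w) :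
    (wts w).foldl flStep (acc, r) = (acc + (⌊r⌋ : ℝ), r - (⌊r⌋ : ℝ)) := by
  induction w generalizing acc r with
  | zero =>
    have : ⌊r⌋ = 0 := by
      rw [Int.floor_eq_zero_iff]
      exact ⟨h0, by simpa using h1⟩
    simp [wts, this]
  | succ w ih =>
    simp only [wts, List.foldl_cons]
    by_cases h : 0 < 2 ^ w - r
    · have : flStep (acc, r) (2 ^ w) = (acc, r) := by simp only [flStep]; rw [if_pos h]
      rw [this]
      exact ih acc r h0 (by linarith)
    · have : flStep (acc, r) (2 ^ w) = (acc + 2 ^ w, r - 2 ^ w) := by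
        simp only [flStep]; rw [if_neg h]
      rw [this, ih _ _ (by linarith) (by rw [pow_succ] at h1; linarith)]
      have h2 : ⌊r - 2 ^ w⌋ = ⌊r⌋ - 2 ^ w := by
        have := Int.floor_sub_intCast r (2 ^ w)
        push_cast at this
        exact this
      rw [h2]
      push_cast
      ext <;> simp

theorem fl_floor (w : ℕ) (r : ℝ) (h0 : 0 ≤ r) (h1 : r < 2 ^ w) : flL (wts w) r = ⌊r⌋ := by
  unfold flL
  rw [fl_spec w 0 r h0 h1]
  simp

theorem fl_int (w : ℕ) (r : ℝ) : ∃ z : ℤ, flL (wts w) r = z := by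
  have : ∀ (w : ℕ) (a : ℤ) (r : ℝ), ∃ z : ℤ, ((wts w).foldl flStep ((a : ℝ), r)).1 = z := by
    intro w
    induction w with
    | zero => intro a r; exact ⟨a, rfl⟩
    | succ w ih =>
      intro a r
      simp only [wts, List.foldl_cons]
      by_cases h : 0 < 2 ^ w - r
      · have : flStep ((a : ℝ), r) (2 ^ w) = ((a : ℝ), r) := by simp only [flStep]; rw [if_pos h]
        rw [this]
        exact ih a r
      · have : flStep ((a : ℝ), r) (2 ^ w) = (((a + 2 ^ w : ℤ) : ℝ), r - 2 ^ w) := by
          simp only [flStep]; rw [if_neg h]; push_cast; rfl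
        rw [this]
        exact ih _ _
  obtain ⟨z, hz⟩ := this w 0 r
  exact ⟨z, by unfold flL; simpa using hz⟩

/-- recursive form of `packL` -/
noncomputable def packR (β : ℝ) : List ℝ → ℝ
  | [] => 0
  | a :: l => a + packR β l / β

theorem packL_eq (β : ℝ) (l : List ℝ) : packL β l = packR β l := by
  have : ∀ (l : List ℝ) (s t : ℝ),
      (l.foldl (fun (s : ℝ × ℝ) a => (s.1 / β, s.2 + s.1 * a)) (s, t)).2 = t + s * packR β l := by
    intro l
    induction l with
    | nil => intro s t; simp [packR]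
    | cons a l ih => intro s t; simp only [List.foldl_cons, ih, packR]; ring
  unfold packL
  rw [this]; ring

theorem packR_nonneg {β : ℝ} (hβ : 0 < β) (d : List ℝ) (h : ∀ x ∈ d, 0 ≤ x) :
    0 ≤ packR β d := by
  induction d with
  | nil => simp [packR]
  | cons a d ih =>
    simp only [packR]
    have h1 := h a (by simp)
    have h2 := ih (fun x hx => h x (by simp [hx]))
    positivity

theorem packR_lt {β : ℝ} (hβ : 0 < β) (d : List ℝ) (h : ∀ x ∈ d, x + 1 ≤ β) :
    packR β d < β := by
  induction d with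
  | nil => simpa [packR] using hβ
  | cons a d ih =>
    simp only [packR]
    have h1 := h a (by simp)
    have h2 := ih (fun x hx => h x (by simp [hx]))
    have h3 : packR β d / β < 1 := by rwa [div_lt_one hβ]
    linarith

theorem unpack_pack (w : ℕ) (H : ℝ) (ts d : List ℝ) (hlen : ts.length = d.length)
    (h : ∀ x ∈ d, 0 ≤ x ∧ x + 1 ≤ 2 ^ w ∧ ∃ z : ℤ, x = z) :
    unpackL ((2 ^ w, H), (wts w, ts)) (packR (2 ^ w) d) = d.map (fun x => x - H) := by
  unfold unpackL
  simp only
  have hβ : (0 : ℝ) < 2 ^ w := by positivity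
  induction d generalizing ts with
  | nil =>
    have : ts = [] := List.eq_nil_of_length_eq_zero (by simpa using hlen)
    subst this
    rfl
  | cons a d ih =>
    cases ts with
    | nil => simp at hlen
    | cons b ts =>
      have h1 := h a (by simp)
      have h2 : ∀ x ∈ d, 0 ≤ x ∧ x + 1 ≤ 2 ^ w ∧ ∃ z : ℤ, x = z := fun x hx => h x (by simp [hx])
      have h3 := packR_nonneg hβ d (fun x hx => (h2 x hx).1)
      have h4 := packR_lt hβ d (fun x hx => (h2 x hx).2.1)
      have h5 : packR (2 ^ w) d / 2 ^ w < 1 := by rwa [div_lt_one hβ]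
      have h6 : 0 ≤ packR (2 ^ w) d / 2 ^ w := by positivity
      have hfl : flL (wts w) (packR (2 ^ w) (a :: d)) = a := by
        rw [fl_floor]
        · obtain ⟨z, hz⟩ := h1.2.2
          simp only [packR]
          rw [hz]
          have : ⌊(z : ℝ) + packR (2 ^ w) d / 2 ^ w⌋ = z := by
            rw [Int.floor_eq_iff]
            constructor <;> linarith
          rw [this]
        · simp only [packR]; linarith [h1.1]
        · simp only [packR]; linarith [h1.2.1]
      simp only [mapAcc, List.map_cons, hfl]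
      congr 1
      have : (packR (2 ^ w) (a :: d) - a) * 2 ^ w = packR (2 ^ w) d := by
        simp only [packR]
        field_simp
        ring
      rw [this]
      exact ih ts (by simpa using hlen) h2

variable {n : ℕ}

theorem zip_ofFn {α β : Type} (u : Fin n → α) (v : Fin n → β) :
    (List.ofFn u).zip (List.ofFn v) = List.ofFn (fun i => (u i, v i)) := by
  apply List.ext_getElem
  · simp
  · intro i h1 h2
    simp

theorem foldl_add {α : Type} (g : α → ℝ) (l : List α) (s : ℝ) :
    l.foldl (fun s a => s + g a) s = s + (l.map g).sum := by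
  induction l generalizing s with
  | nil => simp
  | cons a l ih => simp [ih, add_assoc]

theorem dotL_ofFn (u v : Fin n → ℝ) : dotL (List.ofFn u) (List.ofFn v) = ∑ i, u i * v i := by
  unfold dotL
  rw [foldl_add (fun p : ℝ × ℝ => p.1 * p.2), zip_ofFn, List.map_ofFn, List.sum_ofFn]
  simp

theorem packR_ofFn (β : ℝ) (v : Fin n → ℝ) : packR β (List.ofFn v) = ∑ j, v j / β ^ (j : ℕ) := by
  induction n with
  | zero => simp [packR]
  | succ n ih =>
    rw [List.ofFn_succ, packR, ih, Fin.sum_univ_succ]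
    simp only [Fin.val_zero, pow_zero, div_one, Fin.val_succ, pow_succ]
    rw [Finset.sum_div]
    congr 1
    refine Finset.sum_congr rfl fun j _ => ?_
    rw [div_div]

/-- a matrix as a list of rows -/
noncomputable def LL (M : Matrix (Fin n) (Fin n) ℝ) : List (List ℝ) :=
  List.ofFn fun i => List.ofFn (M i)

theorem Sq_LL (M : Matrix (Fin n) (Fin n) ℝ) : Sq n (LL M) := by
  constructor
  · simp [LL]
  · intro r hr
    simp only [LL, List.mem_ofFn] at hr
    obtain ⟨i, rfl⟩ := hr
    simp

/-- entrywise integer -/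
def IntM (M : Matrix (Fin n) (Fin n) ℝ) : Prop := ∀ i j, ∃ z : ℤ, M i j = z

theorem mulL_LL (w : ℕ) (H : ℝ) (hH : ∃ z : ℤ, H = z) (hH2 : 2 * H = 2 ^ w) (ts : List ℝ)
    (hts : ts.length = n) (A B : Matrix (Fin n) (Fin n) ℝ) (hAB : IntM (A * B))
    (hb : ∀ i j, |(A * B) i j| < H) :
    mulL ((2 ^ w, H), (wts w, ts)) (LL A) (LL B) = LL (A * B) := by
  unfold mulL mulAux
  have hts' : (ts.map fun _ => H) = List.ofFn (fun _ : Fin n => H) := by
    apply List.ext_getElem
    · simp [hts]
    · intro i h1 h2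
      simp
  simp only [LL, List.map_ofFn, hts', packL_eq]
  congr 1
  funext i
  simp only [Function.comp]
  rw [dotL_ofFn, packR_ofFn]
  have h1 : ∑ k, A i k * packR (2 ^ w) (List.ofFn (B k)) + ∑ j : Fin n, H / (2 ^ w) ^ (j : ℕ)
      = packR (2 ^ w) (List.ofFn (fun j => (A * B) i j + H)) := by
    rw [packR_ofFn]
    simp only [packR_ofFn, Finset.mul_sum]
    rw [Finset.sum_comm, ← Finset.sum_add_distrib]
    refine Finset.sum_congr rfl fun j _ => ?_
    rw [add_div, Matrix.mul_apply, Finset.sum_div]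
    congr 1
    refine Finset.sum_congr rfl fun k _ => ?_
    ring
  simp only [Function.comp_def, packL_eq]
  rw [h1, unpack_pack w H ts _ (by simp [hts])]
  · rw [List.map_ofFn]
    congr 1
    funext j
    simp
  · intro x hx
    rw [List.mem_ofFn] at hx
    obtain ⟨j, rfl⟩ := hx
    have h2 := abs_lt.mp (hb i j)
    obtain ⟨z, hz⟩ := hAB i j
    obtain ⟨y, hy⟩ := hH
    refine ⟨by linarith, ?_, ⟨z + y, by rw [hz, hy]; push_cast; ring⟩⟩
    have h3 : z < y := by
      rw [hz, hy] at h2
      exact_mod_cast h2.2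
    have h4 : (z : ℝ) + 1 ≤ y := by exact_mod_cast h3
    rw [hz]; rw [← hH2]; rw [hy]; linarith

theorem transL_LL (ts : List ℝ) (hts : ts.length = n) (A : Matrix (Fin n) (Fin n) ℝ) :
    transL ts (LL A) = LL A.transpose := by
  unfold transL
  rw [List.foldl_reverse]
  have h0 : (ts.map fun _ => ([] : List ℝ)) = List.ofFn (fun _ : Fin n => ([] : List ℝ)) := by
    apply List.ext_getElem
    · simp [hts]
    · intro i h1 h2
      simp
  have h1 : ∀ Rf : List (Fin n → ℝ), ((Rf.map List.ofFn).foldr (fun (row : List ℝ)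
      (cols : List (List ℝ)) => (row.zip cols).map (fun p => p.1 :: p.2)) (ts.map fun _ => []))
      = List.ofFn (fun j => Rf.map (fun r => r j)) := by
    intro Rf
    induction Rf with
    | nil => simpa using h0
    | cons a Rf ih =>
      simp only [List.map_cons, List.foldr_cons, ih]
      rw [zip_ofFn, List.map_ofFn]
      rfl
  have h2 := h1 (List.ofFn (fun i => (A i : Fin n → ℝ)))
  simp only [List.map_ofFn, Function.comp_def] at h2
  exact h2

theorem idL_LL (t : Fin n → ℝ) (ht : Function.Injective t) :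
    idL (List.ofFn t) = LL (1 : Matrix (Fin n) (Fin n) ℝ) := by
  unfold idL LL
  simp only [List.map_ofFn]
  congr 1
  funext i
  simp only [Function.comp_def]
  congr 1
  funext j
  by_cases h : i = j
  · subst h
    simp
  · have h1 : t i - t j ≠ 0 := sub_ne_zero.mpr (fun h' => h (ht h'))
    have h2 : 0 < (t i - t j) * (t i - t j) := mul_self_pos.mpr h1
    simp [h2, Matrix.one_apply_ne h]

theorem combL_LL (w : ℕ) (H : ℝ) (hH : ∃ z : ℤ, H = z) (hH2 : 2 * H = 2 ^ w) (ts : List ℝ)
    (Q2 : ℝ) (X Z : Matrix (Fin n) (Fin n) ℝ)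
    (hb : ∀ i j, |2 * X i j - Z i j / Q2| < H) :
    combL ((2 ^ w, H), (wts w, ts)) Q2 (LL X) (LL Z) =
      LL (fun i j => (⌊2 * X i j - Z i j / Q2⌋ : ℝ)) := by
  unfold combL LL
  rw [zip_ofFn, List.map_ofFn]
  congr 1
  funext i
  simp only [Function.comp_def]
  rw [zip_ofFn, List.map_ofFn]
  congr 1
  funext j
  simp only [Function.comp_def]
  have h2 := abs_lt.mp (hb i j)
  rw [fl_floor _ _ (by linarith) (by linarith)]
  obtain ⟨y, hy⟩ := hH
  rw [hy, Int.floor_add_intCast]
  push_cast
  ring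

theorem roundL_LL (w : ℕ) (β H : ℝ) (ts : List ℝ) (Q s : ℝ) (hQ : ∃ z : ℤ, Q = z)
    (hs : 0 < s) (hQ0 : 0 < Q) (hQw : 2 * Q < 2 ^ w) (A : Matrix (Fin n) (Fin n) ℝ)
    (hA : ∀ i j, |A i j| ≤ s) :
    roundL ((β, H), (wts w, ts)) Q s (LL A) = LL (fun i j => (⌊A i j / s * Q⌋ : ℝ)) := by
  unfold roundL LL
  rw [List.map_ofFn]
  congr 1
  funext i
  simp only [Function.comp_def]
  rw [List.map_ofFn]
  congr 1
  funext j
  simp only [Function.comp_def]
  have h2 := abs_le.mp (hA i j)
  have h3 : A i j / s ≤ 1 := by rw [div_le_one hs]; exact h2.2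
  have h4 : -1 ≤ A i j / s := by rw [le_div_iff₀ hs]; linarith
  rw [fl_floor _ _ (by nlinarith) (by nlinarith)]
  obtain ⟨y, hy⟩ := hQ
  have h5 : (A i j / s + 1) * Q = A i j / s * Q + (y : ℝ) := by rw [← hy]; ring
  rw [h5, Int.floor_add_intCast]
  push_cast
  rw [hy]
  ring

theorem frobL_LL (X : Matrix (Fin n) (Fin n) ℝ) : frobL (LL X) = ∑ i, ∑ j, X i j ^ 2 := by
  unfold frobL LL
  rw [foldl_add (fun r : List ℝ => dotL r r), List.map_ofFn, List.sum_ofFn]
  simp only [Function.comp_def, dotL_ofFn, zero_add]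
  refine Finset.sum_congr rfl fun i _ => Finset.sum_congr rfl fun j _ => ?_
  ring

theorem absL_ofFn (v : Fin n → ℝ) : absL (List.ofFn v) = ∑ i, |v i| := by
  unfold absL
  rw [foldl_add (fun a : ℝ => if 0 < a then a else 0 - a), List.map_ofFn, List.sum_ofFn]
  simp only [Function.comp_def, zero_add]
  refine Finset.sum_congr rfl fun i _ => ?_
  split_ifs with h
  · rw [abs_of_pos h]
  · rw [abs_of_nonpos (not_lt.mp h)]; ring

theorem absM_LL (X : Matrix (Fin n) (Fin n) ℝ) : absM (LL X) = ∑ i, ∑ j, |X i j| := by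
  unfold absM LL
  rw [foldl_add (fun r : List ℝ => absL r), List.map_ofFn, List.sum_ofFn]
  simp only [Function.comp_def, absL_ofFn, zero_add]

theorem cntL_eq (l : List ℝ) : cntL l = l.length := by
  unfold cntL
  rw [foldl_add (fun _ : ℝ => (1 : ℝ))]
  simp

theorem subId_LL (k : ℝ) (t : Fin n → ℝ) (ht : Function.Injective t)
    (X : Matrix (Fin n) (Fin n) ℝ) :
    subId k (List.ofFn t) (LL X) = LL (fun i j => X i j - k * (1 : Matrix (Fin n) (Fin n) ℝ) i j) := by
  unfold subId
  rw [idL_LL t ht]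
  unfold LL
  rw [zip_ofFn, List.map_ofFn]
  congr 1
  funext i
  simp only [Function.comp_def]
  rw [zip_ofFn, List.map_ofFn]
  rfl

theorem idxL_spec (A : List (List ℝ)) (hA : A.length = n) :
    ∃ t : Fin n → ℝ, Function.Injective t ∧ idxL A = List.ofFn t := by
  have h : ∀ (A : List (List ℝ)) (c : ℝ) (acc : List ℝ),
      acc.Nodup → (∀ x ∈ acc, x < c) →
      ((A.foldl (fun (s : ℝ × List ℝ) _ => (s.1 + 1, s.1 :: s.2)) (c, acc)).2.Nodup ∧
      (A.foldl (fun (s : ℝ × List ℝ) _ => (s.1 + 1, s.1 :: s.2)) (c, acc)).2.length =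
        A.length + acc.length) := by
    intro A
    induction A with
    | nil => intro c acc h1 h2; exact ⟨h1, by simp⟩
    | cons a A ih =>
      intro c acc h1 h2
      simp only [List.foldl_cons]
      obtain ⟨h3, h4⟩ := ih (c + 1) (c :: acc) (by
        rw [List.nodup_cons]
        exact ⟨fun h => lt_irrefl _ (h2 c h), h1⟩) (by
        intro x hx
        rcases List.mem_cons.mp hx with rfl | hx
        · linarith
        · linarith [h2 x hx])
      exact ⟨h3, by rw [h4]; simp; ring⟩
  obtain ⟨h1, h2⟩ := h A 0 [] List.nodup_nil (by simp)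
  have h3 : (idxL A).Nodup := h1
  have h4 : (idxL A).length = n := by unfold idxL; rw [h2]; simp [hA]
  subst h4
  exact ⟨(idxL A).get, List.nodup_iff_injective_get.mp h3, (List.ofFn_get _).symm⟩

end Pool.Agent.N602.RR
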