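import Pool.Agent.N602.RR.Main

/-! # Singular values -/

set_option autoImplicit false

namespace Pool.Agent.N602.RR

open Matrix Module InnerProductSpace

/-- The singular values `σ_1 ≥ σ_2 ≥ …` of a real square matrix; `sv A i` is `σ_{i+1}`. -/
noncomputable def sv {n : ℕ} (A : Matrix (Fin n) (Fin n) ℝ) (i : ℕ) : ℝ :=
  (Matrix.toEuclideanLin A).singularValues i

variable {n : ℕ}

theorem norm_sq_eq_sum (A : Matrix (Fin n) (Fin n) ℝ) (v : EuclideanSpace ℝ (Fin n)) :
    ∃ c : Fin n → ℝ, ‖v‖ ^ 2 = ∑ i, c i ^ 2 ∧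
      ‖Matrix.toEuclideanLin A v‖ ^ 2 = ∑ i : Fin n, sv A i ^ 2 * c i ^ 2 := by
  set T := Matrix.toEuclideanLin A with hT
  have hn : finrank ℝ (EuclideanSpace ℝ (Fin n)) = n := by simp
  set hS := T.isSymmetric_adjoint_comp_self
  set B := hS.eigenvectorBasis hn with hB
  refine ⟨fun i => B.repr v i, ?_, ?_⟩
  · rw [← B.repr.norm_map v, EuclideanSpace.norm_sq_eq]
    simp
  · have h1 : ‖T v‖ ^ 2 = inner ℝ v ((LinearMap.adjoint T ∘ₗ T) v) := by
      rw [LinearMap.comp_apply, LinearMap.adjoint_inner_right, real_inner_self_eq_norm_sq]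
    rw [h1, ← B.repr.inner_map_map]
    rw [PiLp.inner_apply]
    refine Finset.sum_congr rfl fun i _ => ?_
    rw [hB, hS.eigenvectorBasis_apply_self_apply hn v i]
    have h2 := T.sq_singularValues_fin hn i
    simp only [sv]
    rw [← hT, h2]
    simp
    ring

theorem nn_mulVec (A : Matrix (Fin n) (Fin n) ℝ) (v : Fin n → ℝ) :
    nn (A *ᵥ v) = ‖Matrix.toEuclideanLin A (WithLp.toLp 2 v)‖ := by
  rw [nn_eq]
  rfl

theorem sv_antitone (A : Matrix (Fin n) (Fin n) ℝ) : Antitone (sv A) :=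
  (Matrix.toEuclideanLin A).singularValues_antitone

theorem sv_nonneg (A : Matrix (Fin n) (Fin n) ℝ) (i : ℕ) : 0 ≤ sv A i :=
  (Matrix.toEuclideanLin A).singularValues_nonneg i

/-- lower bound by the smallest singular value -/
theorem sv_low (A : Matrix (Fin n) (Fin n) ℝ) (v : Fin n → ℝ) :
    sv A (n - 1) * nn v ≤ nn (A *ᵥ v) := by
  obtain ⟨c, h1, h2⟩ := norm_sq_eq_sum A (WithLp.toLp 2 v)
  rw [nn_mulVec, nn_eq]
  refine (le_abs_self _).trans (abs_le_of_sq_le_sq ?_ (norm_nonneg _))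
  rw [mul_pow, h1, h2, Finset.mul_sum]
  refine Finset.sum_le_sum fun i _ => ?_
  refine mul_le_mul_of_nonneg_right ?_ (sq_nonneg _)
  exact pow_le_pow_left₀ (sv_nonneg A _) (sv_antitone A (by have := i.2; omega)) 2

/-- upper bound by the largest singular value -/
theorem sv_up (A : Matrix (Fin n) (Fin n) ℝ) : OB A (sv A 0) := by
  intro v
  obtain ⟨c, h1, h2⟩ := norm_sq_eq_sum A (WithLp.toLp 2 v)
  rw [nn_mulVec, nn_eq]
  refine (le_abs_self _).trans (abs_le_of_sq_le_sq ?_ (mul_nonneg (sv_nonneg A 0) (norm_nonneg _)))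
  rw [mul_pow, h1, h2, Finset.mul_sum]
  refine Finset.sum_le_sum fun i _ => ?_
  refine mul_le_mul_of_nonneg_right ?_ (sq_nonneg _)
  exact pow_le_pow_left₀ (sv_nonneg A _) (sv_antitone A (by omega)) 2

theorem sabs_le (A : Matrix (Fin n) (Fin n) ℝ) : sabs A ≤ n * n * sv A 0 := by
  unfold sabs
  calc ∑ i, ∑ j, |A i j| ≤ ∑ _i : Fin n, ∑ _j : Fin n, sv A 0 :=
        Finset.sum_le_sum fun i _ => Finset.sum_le_sum fun j _ => (sv_up A).entry i j
    _ = _ := by simp; ring

/-- the smallest singular value of an invertible matrix is positive -/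
theorem sv_pos (hn : 1 ≤ n) (A : Matrix (Fin n) (Fin n) ℝ) (hA : IsUnit A) :
    0 < sv A (n - 1) := by
  have hinj : Function.Injective (Matrix.toEuclideanLin A) := by
    intro v w hvw
    have h1 : A.mulVec v.ofLp = A.mulVec w.ofLp := by
      have := congrArg WithLp.ofLp hvw
      simpa using this
    have h2 := mulVec_injective_iff_isUnit.mpr hA h1
    exact WithLp.ofLp_injective 2 h2
  have h := ((Matrix.toEuclideanLin A).injective_iff_forall_lt_finrank_singularValues_pos).mp hinj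
    (n - 1) (by simp; omega)
  exact h

theorem sv_le_sabs (hn : 1 ≤ n) (A : Matrix (Fin n) (Fin n) ℝ) : sv A (n - 1) ≤ sabs A := by
  have h1 := sv_low A (Pi.single ⟨0, hn⟩ 1)
  have h2 : nn (Pi.single (⟨0, hn⟩ : Fin n) (1 : ℝ)) = 1 := by
    unfold nn
    rw [Finset.sum_eq_single ⟨0, hn⟩]
    · simp
    · intro b _ hb
      simp [hb]
    · simp
  have h3 := OB_frob A (sabs A) (sabs_nonneg A) (sum_sq_le_sabs A) (Pi.single ⟨0, hn⟩ 1)
  rw [h2] at h1 h3
  linarith

end Pool.Agent.N602.RR
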